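import Mathlib

/-!
# Lengths, multiplicities and the Lech-Mumford constant

Definitions and the comparison of lengths along a local homomorphism with the same residue field.
-/

set_option autoImplicit false

namespace Pool.Agent.X272.LMBase

open IsLocalRing Filter Topology
open scoped ENNReal Nat

/-- The length of `S / I`, as an element of `[0, ∞]`. -/
noncomputable def len {S : Type*} [CommRing S] (I : Ideal S) : ℝ≥0∞ :=
  ((Module.length S (S ⧸ I) : ℕ∞) : ℝ≥0∞)

/-- The Krull dimension of `S` as a natural number (the junk value `0` is used for the zero ring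
and for rings of infinite dimension). -/
noncomputable def dimN (S : Type*) [CommRing S] : ℕ := ((ringKrullDim S).unbotD 0).toNat

/-- The Hilbert-Samuel multiplicity `e(I) = lim e! ℓ(S / I ^ k) / k ^ e`, `e = dim S`. It is
written with an upper limit, so that no proof of existence of the limit is needed in the
definition. -/
noncomputable def mult {S : Type*} [CommRing S] (I : Ideal S) : ℝ≥0∞ :=
  limsup (fun k : ℕ => ((dimN S)! : ℝ≥0∞) * len (I ^ k) / (k : ℝ≥0∞) ^ dimN S) atTop

/-- The Lech-Mumford constant `LM(S)`, the supremum of `e(I) / (e! ℓ(S / I))` over all ideals `I`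
whose radical is the maximal ideal. -/
noncomputable def LM (S : Type*) [CommRing S] [IsLocalRing S] : ℝ≥0∞ :=
  ⨆ (I : Ideal S) (_ : I.radical = maximalIdeal S), mult I / (((dimN S)! : ℝ≥0∞) * len I)

section Compare

variable {A B : Type*} [CommRing A] [CommRing B] [IsLocalRing B] [Algebra A B]

theorem isSimple_of_res (hres : ∀ b : B, ∃ a : A, b - algebraMap A B a ∈ maximalIdeal B)
    (Q : Type*) [AddCommGroup Q] [Module B Q] [Module A Q] [IsScalarTower A B Q]
    [hQ : IsSimpleModule B Q] : IsSimpleModule A Q := by
  have hann : Module.annihilator B Q = maximalIdeal B :=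
    IsLocalRing.eq_maximalIdeal IsSimpleModule.annihilator_isMaximal
  have hnt : Nontrivial Q := IsSimpleModule.nontrivial B Q
  have key : ∀ P : Submodule A Q, P = ⊥ ∨ P = ⊤ := by
    intro P
    let P' : Submodule B Q :=
      { carrier := P
        add_mem' := fun h1 h2 => P.add_mem h1 h2
        zero_mem' := P.zero_mem
        smul_mem' := by
          intro b q hq
          obtain ⟨a, ha⟩ := hres b
          have h1 : (b - algebraMap A B a) • q = 0 := by
            rw [← hann] at ha
            exact Module.mem_annihilator.1 ha q
          have h2 : b • q = a • q := by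
            rw [sub_smul, sub_eq_zero] at h1
            rw [h1, algebraMap_smul]
          rw [h2]
          exact P.smul_mem a hq }
    rcases eq_bot_or_eq_top P' with h | h
    · left
      rw [eq_bot_iff]
      intro q hq
      have : q ∈ P' := hq
      rw [h] at this
      exact this
    · right
      rw [eq_top_iff]
      intro q _
      have : q ∈ P' := by rw [h]; trivial
      exact this
  rw [isSimpleModule_iff]
  exact { exists_pair_ne := ⟨⊥, ⊤, bot_ne_top⟩, eq_bot_or_eq_top := key }

theorem length_eq_of_res_aux (hres : ∀ b : B, ∃ a : A, b - algebraMap A B a ∈ maximalIdeal B)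
    (M : Type*) [AddCommGroup M] [Module B M] (h : IsFiniteLength B M) :
    ∀ (_ : Module A M) (_ : IsScalarTower A B M), Module.length A M = Module.length B M := by
  induction h with
  | of_subsingleton => intro _ _; rw [Module.length_eq_zero, Module.length_eq_zero]
  | @of_simple_quotient M _ _ N _ hN ih =>
    intro i1 i2
    have h1 : Module.length B M = Module.length B N + Module.length B (M ⧸ N) :=
      Module.length_eq_add_of_exact N.subtype N.mkQ N.subtype_injective N.mkQ_surjective
        (LinearMap.exact_subtype_mkQ N)
    have h2 : Module.length A M = Module.length A N + Module.length A (M ⧸ N) :=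
      Module.length_eq_add_of_exact (N.subtype.restrictScalars A) (N.mkQ.restrictScalars A)
        N.subtype_injective N.mkQ_surjective (LinearMap.exact_subtype_mkQ N)
    have h3 : IsSimpleModule A (M ⧸ N) := isSimple_of_res hres (M ⧸ N)
    rw [h1, h2, ih _ inferInstance, Module.length_eq_one A (M ⧸ N), Module.length_eq_one B (M ⧸ N)]

theorem length_eq_of_res (hres : ∀ b : B, ∃ a : A, b - algebraMap A B a ∈ maximalIdeal B)
    (M : Type*) [AddCommGroup M] [Module B M] [i1 : Module A M] [i2 : IsScalarTower A B M]
    (h : IsFiniteLength B M) : Module.length A M = Module.length B M :=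
  length_eq_of_res_aux hres M h i1 i2

end Compare

section Basic

variable {S : Type*} [CommRing S]

theorem length_ne_top [IsNoetherianRing S] [IsLocalRing S] {I : Ideal S}
    (hI : I.radical = maximalIdeal S) : Module.length S (S ⧸ I) ≠ ⊤ := by
  have h1 : maximalIdeal S ∈ I.minimalPrimes := by
    rw [Ideal.minimalPrimes, Set.mem_ofPred]
    refine ⟨⟨inferInstance, ?_⟩, ?_⟩
    · rw [← hI]; exact Ideal.le_radical
    · rintro P ⟨hP, hIP⟩ _
      rw [← hI]
      exact hP.radical_le_iff.2 hIP
  have h2 : IsArtinianRing (S ⧸ I) :=
    IsLocalRing.quotient_artinian_of_mem_minimalPrimes_of_isLocalRing I h1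
  rw [Module.length_eq_of_surjective (R := S ⧸ I) (M := S ⧸ I) Ideal.Quotient.mk_surjective]
  exact Module.length_ne_top

theorem isFiniteLength_quot [IsNoetherianRing S] [IsLocalRing S] {I : Ideal S}
    (hI : I.radical = maximalIdeal S) : IsFiniteLength S (S ⧸ I) :=
  Module.length_ne_top_iff.1 (length_ne_top hI)

theorem len_ne_top [IsNoetherianRing S] [IsLocalRing S] {I : Ideal S}
    (hI : I.radical = maximalIdeal S) : len I ≠ ∞ := by
  unfold len
  exact ENat.toENNReal_ne_top.2 (length_ne_top hI)

theorem len_mono {I J : Ideal S} (h : I ≤ J) : len J ≤ len I := by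
  unfold len
  rw [ENat.toENNReal_le]
  exact Module.length_le_of_surjective (Submodule.factor h) (Submodule.factor_surjective h)

theorem len_inf_le (I J : Ideal S) : len (I ⊓ J) ≤ len I + len J := by
  unfold len
  rw [← ENat.toENNReal_add, ENat.toENNReal_le, ← Module.length_prod]
  let f : S →ₗ[S] (S ⧸ I) × (S ⧸ J) := LinearMap.prod (Submodule.mkQ I) (Submodule.mkQ J)
  have hf : LinearMap.ker f = I ⊓ J := by
    rw [LinearMap.ker_prod, Submodule.ker_mkQ, Submodule.ker_mkQ]
  have h1 := Module.length_le_of_injective ((I ⊓ J).liftQ f hf.ge)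
    (LinearMap.ker_eq_bot.1 (by rw [Submodule.ker_liftQ, hf, Submodule.mkQ_map_self]))
  exact h1

theorem len_ne_zero {I : Ideal S} (h : I ≠ ⊤) : len I ≠ 0 := by
  unfold len
  have : Nontrivial (S ⧸ I) := Ideal.Quotient.nontrivial_iff.2 h
  rw [Ne, ENat.toENNReal_eq_zero]
  exact (Module.length_pos (R := S) (M := S ⧸ I)).ne'

theorem mult_mono {I J : Ideal S} (h : I ≤ J) : mult J ≤ mult I := by
  unfold mult
  refine limsup_le_limsup (Eventually.of_forall fun k => ?_)
  exact ENNReal.div_le_div_right (mul_le_mul_right (len_mono (Ideal.pow_right_mono h k)) _) _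

end Basic

end Pool.Agent.X272.LMBase
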