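import Mathlib
import Pool.Agent.X272.LMBase

/-!
# An improved Lech inequality for rings whose quotient by one element is principal

For a filtration `F` of ideals of a ring `R` and an element `y` such that the quotient by `y` is
a principal ideal ring, `2 ℓ(R / F k) + k (k - 1) ℓ(R / (F 1 + (y))) ≤ 2 k² ℓ(R / F 1)`.
-/

set_option autoImplicit false

namespace Pool.Agent.X272.LMKey

open IsLocalRing Filter Topology Pool.Agent.X272.LMBase
open scoped ENNReal

variable {R : Type*} [CommRing R]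

/-- the colon ideal `(I : y)` -/
def col (I : Ideal R) (y : R) : Ideal R := Submodule.comap (LinearMap.lsmul R R y) I

theorem mem_col {I : Ideal R} {y r : R} : r ∈ col I y ↔ y * r ∈ I := Iff.rfl

theorem le_col (I : Ideal R) (y : R) : I ≤ col I y := fun _ hr => I.mul_mem_left y hr

theorem len_top : len (⊤ : Ideal R) = 0 := by
  rw [len, Module.length_eq_zero]
  simp

theorem len_le_len_of_le {I J : Ideal R} (h : I ≤ J) : len J ≤ len I := len_mono h

/-- `ℓ(R / I) = ℓ(R / (I + (y))) + ℓ(R / (I : y))` -/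
theorem len_eq (I : Ideal R) (y : R) : len I = len (I ⊔ Ideal.span {y}) + len (col I y) := by
  unfold len
  rw [← ENat.toENNReal_add]
  congr 1
  let f : (R ⧸ col I y) →ₗ[R] (R ⧸ I) := Submodule.mapQ (col I y) I (LinearMap.lsmul R R y) le_rfl
  let g : (R ⧸ I) →ₗ[R] (R ⧸ (I ⊔ Ideal.span {y})) := Submodule.factor le_sup_left
  have hf : Function.Injective f := by
    rw [injective_iff_map_eq_zero]
    intro q hq
    obtain ⟨r, rfl⟩ := Submodule.mkQ_surjective (col I y) q
    have h2 : (Submodule.Quotient.mk (y * r) : R ⧸ I) = 0 := hq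
    rw [Submodule.Quotient.mk_eq_zero] at h2
    exact (Submodule.Quotient.mk_eq_zero _).2 h2
  have hg : Function.Surjective g := Submodule.factor_surjective _
  have hfg : Function.Exact f g := by
    intro q
    obtain ⟨r, rfl⟩ := Submodule.mkQ_surjective I q
    have h1 : g (I.mkQ r) = 0 ↔ r ∈ I ⊔ Ideal.span {y} := by
      change Submodule.Quotient.mk r = 0 ↔ _
      exact Submodule.Quotient.mk_eq_zero _
    rw [h1, Submodule.mem_sup]
    constructor
    · rintro ⟨a, ha, b, hb, rfl⟩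
      obtain ⟨c, rfl⟩ := Ideal.mem_span_singleton'.1 hb
      refine ⟨Submodule.Quotient.mk c, ?_⟩
      change (Submodule.Quotient.mk (y * c) : R ⧸ I) = Submodule.Quotient.mk (a + c * y)
      rw [Submodule.Quotient.eq]
      have : y * c - (a + c * y) = -a := by ring
      rw [this]
      exact I.neg_mem ha
    · rintro ⟨q, hq⟩
      obtain ⟨c, rfl⟩ := Submodule.mkQ_surjective _ q
      have h2 : (Submodule.Quotient.mk (y * c) : R ⧸ I) = Submodule.Quotient.mk r := hq
      rw [Submodule.Quotient.eq] at h2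
      refine ⟨r - y * c, ?_, c * y, Ideal.mem_span_singleton'.2 ⟨c, rfl⟩, by ring⟩
      have : r - y * c = -(y * c - r) := by ring
      rw [this]
      exact I.neg_mem h2
  rw [Module.length_eq_add_of_exact f g hf hg hfg, add_comm]

theorem len_sup_mul_le (Q : Ideal R) (u v : R) :
    len (Ideal.span {u * v} ⊔ Q) ≤ len (Ideal.span {u} ⊔ Q) + len (Ideal.span {v} ⊔ Q) := by
  rw [len_eq (Ideal.span {u * v} ⊔ Q) u]
  refine add_le_add (len_mono ?_) (len_mono ?_)
  · rw [sup_le_iff]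
    exact ⟨le_sup_right, le_sup_right.trans le_sup_left⟩
  · rw [sup_le_iff]
    refine ⟨?_, le_sup_right.trans (le_col _ _)⟩
    rw [Ideal.span_le, Set.singleton_subset_iff]
    exact le_sup_left (a := Ideal.span {u * v}) (b := Q) (Ideal.mem_span_singleton_self _)

/-- A multiplicative filtration together with an element `y` such that all ideals containing
`Q ∋ y` are of the form `(u) + Q`, where `Q` is contained in all the ideals `F k + (y)`. -/
structure Data (R : Type*) [CommRing R] where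
  F : ℕ → Ideal R
  y : R
  Q : Ideal R
  F_zero : F 0 = ⊤
  F_mul : ∀ k l, F k * F l ≤ F (k + l)
  hQ : ∀ k, Q ≤ F k ⊔ Ideal.span {y}
  hy : y ∈ Q
  princ : ∀ I : Ideal R, Q ≤ I → ∃ u, I = Ideal.span {u} ⊔ Q

namespace Data

variable (X : Data R)

/-- `ℓ(R / ((F k : y ^ i) + (y)))` -/
noncomputable def al (k i : ℕ) : ℝ≥0∞ := len (col (X.F k) (X.y ^ i) ⊔ Ideal.span {X.y})

theorem al_add (k l i j : ℕ) : X.al (k + l) (i + j) ≤ X.al k i + X.al l j := by
  have hQ1 : X.Q ≤ col (X.F k) (X.y ^ i) ⊔ Ideal.span {X.y} :=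
    (X.hQ k).trans (sup_le_sup_right (le_col _ _) _)
  have hQ2 : X.Q ≤ col (X.F l) (X.y ^ j) ⊔ Ideal.span {X.y} :=
    (X.hQ l).trans (sup_le_sup_right (le_col _ _) _)
  obtain ⟨u, hu⟩ := X.princ _ hQ1
  obtain ⟨v, hv⟩ := X.princ _ hQ2
  unfold al
  rw [hu, hv]
  refine le_trans (len_mono ?_) (len_sup_mul_le X.Q u v)
  rw [sup_le_iff]
  refine ⟨?_, (X.hQ (k + l)).trans (sup_le_sup_right (le_col _ _) _)⟩
  rw [Ideal.span_le, Set.singleton_subset_iff]
  have hu' : u ∈ col (X.F k) (X.y ^ i) ⊔ Ideal.span {X.y} := by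
    rw [hu]; exact le_sup_left (a := Ideal.span {u}) (b := X.Q) (Ideal.mem_span_singleton_self _)
  have hv' : v ∈ col (X.F l) (X.y ^ j) ⊔ Ideal.span {X.y} := by
    rw [hv]; exact le_sup_left (a := Ideal.span {v}) (b := X.Q) (Ideal.mem_span_singleton_self _)
  obtain ⟨a, ha, b, hb, rfl⟩ := Submodule.mem_sup.1 hu'
  obtain ⟨c, hc, d, hd, rfl⟩ := Submodule.mem_sup.1 hv'
  obtain ⟨b', rfl⟩ := Ideal.mem_span_singleton'.1 hb
  obtain ⟨d', rfl⟩ := Ideal.mem_span_singleton'.1 hd
  refine Submodule.mem_sup.2 ⟨a * c, ?_, (a * d' + b' * c + b' * X.y * d') * X.y,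
    Ideal.mem_span_singleton'.2 ⟨_, rfl⟩, by ring⟩
  rw [mem_col] at ha hc ⊢
  have h1 := X.F_mul k l (Ideal.mul_mem_mul ha hc)
  have h2 : X.y ^ (i + j) * (a * c) = X.y ^ i * a * (X.y ^ j * c) := by ring
  rw [h2]
  exact h1

theorem al_zero : X.al 0 0 = 0 := by
  have : col (X.F 0) (X.y ^ 0) ⊔ Ideal.span {X.y} = ⊤ := by
    rw [eq_top_iff]
    refine le_trans ?_ le_sup_left
    intro r _
    rw [mem_col, X.F_zero]
    trivial
  rw [al, this, len_top]

theorem al_mul (q s t : ℕ) :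
    X.al (s + t) (s * q + t * (q + 1)) ≤ s * X.al 1 q + t * X.al 1 (q + 1) := by
  induction s with
  | zero =>
    induction t with
    | zero => simp [X.al_zero]
    | succ t ih =>
      have h := X.al_add (0 + t) 1 (0 * q + t * (q + 1)) (q + 1)
      have e : 0 * q + t * (q + 1) + (q + 1) = 0 * q + (t + 1) * (q + 1) := by ring
      rw [e] at h
      refine h.trans ((add_le_add_left ih _).trans (le_of_eq ?_))
      push_cast
      ring
  | succ s ih =>
    have h := X.al_add (s + t) 1 (s * q + t * (q + 1)) q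
    have e1 : s + t + 1 = s + 1 + t := by ring
    have e2 : s * q + t * (q + 1) + q = (s + 1) * q + t * (q + 1) := by ring
    rw [e1, e2] at h
    refine h.trans ((add_le_add_left ih _).trans (le_of_eq ?_))
    push_cast
    ring

/-- `ℓ(R / F k)` is the sum of the first `M` numbers `al k m` and `ℓ(R / (F k : y ^ M))`. -/
theorem len_eq_sum (k M : ℕ) :
    len (X.F k) = ∑ m ∈ Finset.range M, X.al k m + len (col (X.F k) (X.y ^ M)) := by
  induction M with
  | zero =>
    have : col (X.F k) (X.y ^ 0) = X.F k := by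
      ext r; rw [mem_col, pow_zero, one_mul]
    rw [Finset.sum_range_zero, zero_add, this]
  | succ M ih =>
    rw [ih, Finset.sum_range_succ, add_assoc]
    congr 1
    rw [len_eq (col (X.F k) (X.y ^ M)) X.y]
    congr 2
    ext r
    rw [mem_col, mem_col, mem_col, pow_succ, mul_assoc]

theorem len_eq_sum' (k M : ℕ) (h : X.y ^ M ∈ X.F k) :
    len (X.F k) = ∑ m ∈ Finset.range M, X.al k m := by
  rw [X.len_eq_sum k M]
  have : col (X.F k) (X.y ^ M) = ⊤ := by
    rw [eq_top_iff]
    intro r _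
    rw [mem_col]
    exact Ideal.mul_mem_right _ _ h
  rw [this, len_top, add_zero]

theorem pow_mem (r k : ℕ) (h : X.y ^ r ∈ X.F 1) : X.y ^ (k * r) ∈ X.F k := by
  induction k with
  | zero => rw [X.F_zero]; trivial
  | succ k ih =>
    have h1 := X.F_mul k 1 (Ideal.mul_mem_mul ih h)
    rw [← pow_add] at h1
    have e : k * r + r = (k + 1) * r := by ring
    rw [e] at h1
    exact h1

theorem sum_split (k r : ℕ) (f : ℕ → ℝ≥0∞) :
    ∑ m ∈ Finset.range (k * r), f m =
      ∑ q ∈ Finset.range r, ∑ t ∈ Finset.range k, f (k * q + t) := by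
  induction r with
  | zero => simp
  | succ r ih =>
    rw [Finset.sum_range_succ, ← ih, Nat.mul_succ, Finset.sum_range_add]

theorem two_mul_sum_id (k : ℕ) : (2 : ℝ≥0∞) * ∑ t ∈ Finset.range k, (t : ℝ≥0∞) + k = k * k := by
  induction k with
  | zero => simp
  | succ k ih =>
    rw [Finset.sum_range_succ]
    calc (2 : ℝ≥0∞) * (∑ t ∈ Finset.range k, (t : ℝ≥0∞) + k) + ((k + 1 : ℕ) : ℝ≥0∞)
        = (2 * ∑ t ∈ Finset.range k, (t : ℝ≥0∞) + k) + (k + ((k + 1 : ℕ) : ℝ≥0∞)) := by ring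
      _ = k * k + (k + ((k + 1 : ℕ) : ℝ≥0∞)) := by rw [ih]
      _ = ((k + 1 : ℕ) : ℝ≥0∞) * ((k + 1 : ℕ) : ℝ≥0∞) := by push_cast; ring

theorem sum_sub (k : ℕ) :
    (2 : ℝ≥0∞) * ∑ t ∈ Finset.range k, ((k - t : ℕ) : ℝ≥0∞) = k * k + k := by
  have h1 : ∑ t ∈ Finset.range k, ((k - t : ℕ) : ℝ≥0∞) =
      ∑ t ∈ Finset.range k, ((t : ℝ≥0∞) + 1) := by
    rw [← Finset.sum_range_reflect]
    refine Finset.sum_congr rfl fun t ht => ?_
    rw [Finset.mem_range] at ht
    have : k - (k - 1 - t) = t + 1 := by omega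
    rw [this]
    push_cast
    rfl
  rw [h1, Finset.sum_add_distrib, Finset.sum_const, Finset.card_range, nsmul_eq_mul, mul_one,
    mul_add, ← two_mul_sum_id]
  ring

theorem key (r : ℕ) (hr : X.y ^ r ∈ X.F 1) (k : ℕ) :
    2 * len (X.F k) + (k * k : ℝ≥0∞) * len (X.F 1 ⊔ Ideal.span {X.y}) ≤
      2 * (k * k : ℝ≥0∞) * len (X.F 1) + k * len (X.F 1 ⊔ Ideal.span {X.y}) := by
  have e0 : len (X.F 1 ⊔ Ideal.span {X.y}) = X.al 1 0 := by
    unfold al
    congr 2
    ext s
    rw [mem_col, pow_zero, one_mul]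
  rw [e0]
  set L := len (X.F 1) with hL
  have hL1 : L = ∑ q ∈ Finset.range r, X.al 1 q := X.len_eq_sum' 1 r hr
  have hL2 : L = ∑ q ∈ Finset.range r, X.al 1 (q + 1) + X.al 1 0 := by
    rw [← Finset.sum_range_succ']
    refine X.len_eq_sum' 1 (r + 1) ?_
    rw [pow_succ]
    exact Ideal.mul_mem_right _ _ hr
  set G : ℝ≥0∞ := 2 * ∑ t ∈ Finset.range k, (t : ℝ≥0∞) with hG
  have hGk : G + k = k * k := two_mul_sum_id k
  have h1 : 2 * len (X.F k) ≤ (k * k + k) * L + G * ∑ q ∈ Finset.range r, X.al 1 (q + 1) := by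
    rw [X.len_eq_sum' k (k * r) (X.pow_mem r k hr), sum_split, hL1, Finset.mul_sum, Finset.mul_sum,
      Finset.mul_sum, ← Finset.sum_add_distrib]
    refine Finset.sum_le_sum fun q _ => ?_
    calc (2 : ℝ≥0∞) * ∑ t ∈ Finset.range k, X.al k (k * q + t)
        ≤ 2 * ∑ t ∈ Finset.range k, (((k - t : ℕ) : ℝ≥0∞) * X.al 1 q + t * X.al 1 (q + 1)) := by
          refine mul_le_mul_right (Finset.sum_le_sum fun t ht => ?_) _
          rw [Finset.mem_range] at ht
          have h2 := X.al_mul q (k - t) t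
          have e1 : k - t + t = k := by omega
          have e2 : (k - t) * q + t * (q + 1) = k * q + t := by
            obtain ⟨s, rfl⟩ : ∃ s, k = s + t := ⟨k - t, by omega⟩
            rw [Nat.add_sub_cancel]
            ring
          rw [e1, e2] at h2
          exact h2
      _ = (k * k + k) * X.al 1 q + G * X.al 1 (q + 1) := by
          rw [Finset.sum_add_distrib, ← Finset.sum_mul, ← Finset.sum_mul, mul_add, ← mul_assoc,
            ← mul_assoc, sum_sub]
  calc 2 * len (X.F k) + (k * k : ℝ≥0∞) * X.al 1 0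
      ≤ (k * k + k) * L + G * ∑ q ∈ Finset.range r, X.al 1 (q + 1) +
          (k * k : ℝ≥0∞) * X.al 1 0 := add_le_add_left h1 _
    _ = (k * k + k) * L + G * (∑ q ∈ Finset.range r, X.al 1 (q + 1) + X.al 1 0) +
          k * X.al 1 0 := by rw [← hGk]; ring
    _ = ((k * k + (G + k)) * L) + k * X.al 1 0 := by rw [← hL2]; ring
    _ = 2 * (k * k : ℝ≥0∞) * L + k * X.al 1 0 := by rw [hGk]; ring

end Data

end Pool.Agent.X272.LMKey
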