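import Mathlib
import Pool.Agent.X272.LMKey

/-!
# An upper bound for the Lech-Mumford constant of a ring with two branches meeting along `y ^ p`
-/

set_option autoImplicit false

namespace Pool.Agent.X272.LMUpper

open IsLocalRing Filter Topology Pool.Agent.X272.LMBase Pool.Agent.X272.LMKey
open scoped ENNReal NNReal

variable {R : Type*} [CommRing R]

theorem len_sup_pow_le (I : Ideal R) (y : R) (n : ℕ) :
    len (I ⊔ Ideal.span {y ^ n}) ≤ n * len (I ⊔ Ideal.span {y}) := by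
  induction n with
  | zero =>
    have : I ⊔ Ideal.span {y ^ 0} = ⊤ := by
      rw [eq_top_iff, pow_zero, Ideal.span_singleton_one]
      exact le_sup_right
    rw [this, len_top]
    exact zero_le
  | succ n ih =>
    rw [len_eq (I ⊔ Ideal.span {y ^ (n + 1)}) (y ^ n)]
    push_cast
    rw [add_mul, one_mul]
    refine add_le_add (le_trans (len_mono ?_) ih) (len_mono ?_)
    · exact sup_le_sup_right le_sup_left _
    · rw [sup_le_iff]
      refine ⟨le_sup_left.trans (le_col _ _), ?_⟩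
      rw [Ideal.span_le, Set.singleton_subset_iff]
      change y ^ n * y ∈ I ⊔ Ideal.span {y ^ (n + 1)}
      rw [← pow_succ]
      exact le_sup_right (a := I) (Ideal.mem_span_singleton_self _)

theorem sup_mul_sup_le (A B Z : Ideal R) : (A ⊔ Z) * (B ⊔ Z) ≤ A * B ⊔ Z := by
  rw [Ideal.mul_le]
  intro r hr s hs
  obtain ⟨a, ha, z, hz, rfl⟩ := Submodule.mem_sup.1 hr
  obtain ⟨b, hb, t, ht, rfl⟩ := Submodule.mem_sup.1 hs
  have : (a + z) * (b + t) = a * b + (z * (b + t) + a * t) := by ring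
  rw [this]
  exact Submodule.add_mem_sup (Ideal.mul_mem_mul ha hb)
    (Z.add_mem (Z.mul_mem_right _ hz) (Z.mul_mem_left _ ht))

theorem mul_div_cancel_l {a b : ℝ≥0∞} (h0 : a ≠ 0) (ht : a ≠ ∞) : a * b / a = b := by
  rw [mul_div_assoc, ENNReal.mul_div_cancel h0 ht]

/-- the filtration `I ^ k + (z)` -/
def dat (I : Ideal R) (z y x : R) (hz : x ∈ Ideal.span {z} ⊔ Ideal.span {y})
    (hprinc : ∀ I : Ideal R, Ideal.span {x, y} ≤ I → ∃ u, I = Ideal.span {u} ⊔ Ideal.span {x, y}) :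
    Data R where
  F k := I ^ k ⊔ Ideal.span {z}
  y := y
  Q := Ideal.span {x, y}
  F_zero := by rw [pow_zero, Ideal.one_eq_top, top_sup_eq]
  F_mul := by
    intro k l
    rw [pow_add]
    exact sup_mul_sup_le _ _ _
  hQ := by
    intro k
    rw [Ideal.span_le, Set.insert_subset_iff, Set.singleton_subset_iff]
    have h : Ideal.span {z} ⊔ Ideal.span {y} ≤ I ^ k ⊔ Ideal.span {z} ⊔ Ideal.span {y} :=
      sup_le_sup_right le_sup_right _
    exact ⟨h hz,
      le_sup_right (a := I ^ k ⊔ Ideal.span {z}) (Ideal.mem_span_singleton_self _)⟩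
  hy := Ideal.subset_span (by simp)
  princ := hprinc

theorem bound_branch (I : Ideal R) (z y x : R) (hz : x ∈ Ideal.span {z} ⊔ Ideal.span {y})
    (hprinc : ∀ I : Ideal R, Ideal.span {x, y} ≤ I → ∃ u, I = Ideal.span {u} ⊔ Ideal.span {x, y})
    (hy : y ∈ I.radical) (k : ℕ) :
    2 * len (I ^ k ⊔ Ideal.span {z}) +
        (k * k : ℝ≥0∞) * len (I ⊔ Ideal.span {z} ⊔ Ideal.span {y}) ≤
      2 * (k * k : ℝ≥0∞) * len (I ⊔ Ideal.span {z}) +
        k * len (I ⊔ Ideal.span {z} ⊔ Ideal.span {y}) := by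
  obtain ⟨r, hr⟩ := hy
  have h := (dat I z y x hz hprinc).key r (by
    change y ^ r ∈ I ^ 1 ⊔ Ideal.span {z}
    rw [pow_one]
    exact le_sup_left (a := I) hr) k
  have e : (dat I z y x hz hprinc).F 1 = I ⊔ Ideal.span {z} := by
    change I ^ 1 ⊔ _ = _
    rw [pow_one]
  rw [e] at h
  exact h

theorem arith (p e l l1 l2 lam c : ℝ≥0∞) (hp1 : 1 ≤ p) (hp : p ≠ ∞)
    (hl : l ≠ ∞) (hl1 : l1 ≠ ∞) (hl2 : l2 ≠ ∞) (hlam : lam ≠ ∞) (hc : c ≠ ∞)
    (h1 : e + 2 * lam ≤ 2 * (l1 + l2)) (h2 : c ≤ p * lam) (h3 : c ≤ l1) (h4 : c ≤ l2)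
    (h5 : l1 + l2 ≤ l + c) : p * e + 2 * l ≤ 4 * p * l := by
  have he : e ≠ ∞ := by
    intro he
    rw [he, top_add, top_le_iff] at h1
    exact ENNReal.mul_ne_top ENNReal.ofNat_ne_top (ENNReal.add_ne_top.2 ⟨hl1, hl2⟩) h1
  lift p to ℝ≥0 using hp
  lift e to ℝ≥0 using he
  lift l to ℝ≥0 using hl
  lift l1 to ℝ≥0 using hl1
  lift l2 to ℝ≥0 using hl2
  lift lam to ℝ≥0 using hlam
  lift c to ℝ≥0 using hc
  norm_cast at *
  rw [← NNReal.coe_le_coe] at *
  push_cast at *
  nlinarith [mul_nonneg (sub_nonneg.2 hp1) (sub_nonneg.2 h3),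
    mul_nonneg (sub_nonneg.2 hp1) (sub_nonneg.2 h4), mul_nonneg p.2 (sub_nonneg.2 h5),
    mul_nonneg p.2 (sub_nonneg.2 h1), mul_nonneg (sub_nonneg.2 hp1) (sub_nonneg.2 h5)]

theorem ratio_le [IsNoetherianRing R] [IsLocalRing R] (hdim : dimN R = 2) (x y w : R) (p : ℕ)
    (hp : 1 ≤ p) (hxw : x * w = 0) (hw : x = w + y ^ p)
    (hprinc : ∀ I : Ideal R, Ideal.span {x, y} ≤ I → ∃ u, I = Ideal.span {u} ⊔ Ideal.span {x, y})
    (hy : y ∈ maximalIdeal R) (I : Ideal R) (hI : I.radical = maximalIdeal R) :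
    mult I / (2 * len I) ≤ (2 * p - 1 : ℝ≥0∞) / p := by
  have hlt : len I ≠ ∞ := len_ne_top hI
  have hfin : ∀ J : Ideal R, I ≤ J → len J ≠ ∞ := fun J hJ =>
    ne_top_of_le_ne_top hlt (len_mono hJ)
  have hIt : I ≠ ⊤ := by
    rintro rfl
    rw [Ideal.radical_top] at hI
    exact (maximalIdeal.isMaximal R).ne_top hI.symm
  have hl0 : len I ≠ 0 := len_ne_zero hIt
  have hyr : y ∈ I.radical := by rw [hI]; exact hy
  set l := len I with hl
  set l1 := len (I ⊔ Ideal.span {x}) with hl1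
  set l2 := len (I ⊔ Ideal.span {w}) with hl2
  set lam := len (I ⊔ Ideal.span {x} ⊔ Ideal.span {y}) with hlam
  set c := len (I ⊔ Ideal.span {x} ⊔ Ideal.span {y ^ p}) with hc
  have hyp : y ^ p ∈ Ideal.span {y} :=
    Ideal.pow_mem_of_mem _ (Ideal.mem_span_singleton_self y) p hp
  have hlam2 : len (I ⊔ Ideal.span {w} ⊔ Ideal.span {y}) = lam := by
    rw [hlam]
    congr 1
    rw [sup_assoc, sup_assoc]
    congr 1
    apply le_antisymm
    · refine sup_le ?_ le_sup_right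
      rw [Ideal.span_le, Set.singleton_subset_iff]
      have : w = x - y ^ p := by rw [hw]; ring
      rw [this]
      exact Ideal.sub_mem _ (le_sup_left (a := Ideal.span {x}) (Ideal.mem_span_singleton_self _))
        (le_sup_right (a := Ideal.span {x}) hyp)
    · refine sup_le ?_ le_sup_right
      rw [Ideal.span_le, Set.singleton_subset_iff]
      have : x = w + y ^ p := hw
      rw [this]
      exact Ideal.add_mem _ (le_sup_left (a := Ideal.span {w}) (Ideal.mem_span_singleton_self _))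
        (le_sup_right (a := Ideal.span {w}) hyp)
  have hc2 : len (I ⊔ Ideal.span {w} ⊔ Ideal.span {x}) = c := by
    rw [hc]
    congr 1
    rw [sup_assoc, sup_assoc]
    congr 1
    apply le_antisymm
    · refine sup_le ?_ le_sup_left
      rw [Ideal.span_le, Set.singleton_subset_iff]
      have : w = x - y ^ p := by rw [hw]; ring
      rw [this]
      exact Ideal.sub_mem _ (le_sup_left (a := Ideal.span {x}) (Ideal.mem_span_singleton_self _))
        (le_sup_right (a := Ideal.span {x}) (Ideal.mem_span_singleton_self _))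
    · refine sup_le le_sup_right ?_
      rw [Ideal.span_le, Set.singleton_subset_iff]
      have : y ^ p = x - w := by rw [hw]; ring
      rw [this]
      exact Ideal.sub_mem _ (le_sup_right (a := Ideal.span {w}) (Ideal.mem_span_singleton_self _))
        (le_sup_left (a := Ideal.span {w}) (Ideal.mem_span_singleton_self _))
  have hb1 : ∀ k : ℕ, 2 * len (I ^ k ⊔ Ideal.span {x}) + (k * k : ℝ≥0∞) * lam ≤
      2 * (k * k : ℝ≥0∞) * l1 + k * lam := fun k =>
    bound_branch I x y x (le_sup_left (a := Ideal.span {x}) (Ideal.mem_span_singleton_self _))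
      hprinc hyr k
  have hb2 : ∀ k : ℕ, 2 * len (I ^ k ⊔ Ideal.span {w}) + (k * k : ℝ≥0∞) * lam ≤
      2 * (k * k : ℝ≥0∞) * l2 + k * lam := fun k => by
    have h := bound_branch I w y x (by
      rw [hw]
      exact Ideal.add_mem _ (le_sup_left (a := Ideal.span {w}) (Ideal.mem_span_singleton_self _))
        (le_sup_right (a := Ideal.span {w}) hyp)) hprinc hyr k
    rw [hlam2] at h
    exact h
  have hb3 : ∀ k : ℕ, len (I ^ k) ≤ len (I ^ k ⊔ Ideal.span {x}) + len (I ^ k ⊔ Ideal.span {w}) :=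
    fun k => by
      conv_lhs => rw [len_eq (I ^ k) x]
      refine add_le_add le_rfl (len_mono ?_)
      rw [sup_le_iff]
      refine ⟨le_col _ _, ?_⟩
      rw [Ideal.span_le, Set.singleton_subset_iff]
      change x * w ∈ I ^ k
      rw [hxw]
      exact Ideal.zero_mem _
  have hb4 : ∀ k : ℕ, 2 * len (I ^ k) + (k * k : ℝ≥0∞) * (2 * lam) ≤
      (k * k : ℝ≥0∞) * (2 * (l1 + l2)) + k * (2 * lam) := fun k => by
    calc 2 * len (I ^ k) + (k * k : ℝ≥0∞) * (2 * lam)
        ≤ 2 * (len (I ^ k ⊔ Ideal.span {x}) + len (I ^ k ⊔ Ideal.span {w})) +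
          (k * k : ℝ≥0∞) * (2 * lam) := by gcongr; exact hb3 k
      _ = (2 * len (I ^ k ⊔ Ideal.span {x}) + (k * k : ℝ≥0∞) * lam) +
          (2 * len (I ^ k ⊔ Ideal.span {w}) + (k * k : ℝ≥0∞) * lam) := by ring
      _ ≤ (2 * (k * k : ℝ≥0∞) * l1 + k * lam) + (2 * (k * k : ℝ≥0∞) * l2 + k * lam) :=
          add_le_add (hb1 k) (hb2 k)
      _ = (k * k : ℝ≥0∞) * (2 * (l1 + l2)) + k * (2 * lam) := by ring
  have hl1t : l1 ≠ ∞ := hfin _ le_sup_left
  have hl2t : l2 ≠ ∞ := hfin _ le_sup_left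
  have hlamt : lam ≠ ∞ := hfin _ (le_sup_left.trans le_sup_left)
  have hct : c ≠ ∞ := hfin _ (le_sup_left.trans le_sup_left)
  have hlam1 : lam ≤ l1 := len_mono le_sup_left
  have hmult : mult I + 2 * lam ≤ 2 * (l1 + l2) := by
    have hm : mult I ≤ 2 * (l1 + l2) - 2 * lam := by
      have hlim : Tendsto (fun k : ℕ => 2 * (l1 + l2) + (2 * lam) / k - 2 * lam) atTop
          (𝓝 (2 * (l1 + l2) - 2 * lam)) := by
        have h1 : Tendsto (fun a : ℕ => (2 * lam) / (a : ℝ≥0∞)) atTop (𝓝 0) := by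
          have := ENNReal.Tendsto.const_mul (a := 2 * lam) ENNReal.tendsto_inv_nat_nhds_zero
            (Or.inr (ENNReal.mul_ne_top ENNReal.ofNat_ne_top hlamt))
          rw [mul_zero] at this
          exact this
        have h2 : Tendsto (fun k : ℕ => 2 * (l1 + l2) + (2 * lam) / k) atTop
            (𝓝 (2 * (l1 + l2))) := by
          have := (tendsto_const_nhds (x := 2 * (l1 + l2))).add h1
          rw [add_zero] at this
          exact this
        exact ENNReal.Tendsto.sub h2 tendsto_const_nhds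
          (Or.inr (ENNReal.mul_ne_top ENNReal.ofNat_ne_top hlamt))
      rw [← hlim.limsup_eq]
      unfold mult
      refine limsup_le_limsup ?_
      filter_upwards [eventually_ge_atTop 1] with k hk
      have hk0 : (k : ℝ≥0∞) ≠ 0 := Nat.cast_ne_zero.2 (by omega)
      have hkt : (k : ℝ≥0∞) ≠ ∞ := ENNReal.natCast_ne_top k
      rw [hdim]
      refine ENNReal.le_sub_of_add_le_right
        (ENNReal.mul_ne_top ENNReal.ofNat_ne_top hlamt) ?_
      have h4 := hb4 k
      have hkk0 : (k * k : ℝ≥0∞) ≠ 0 := mul_ne_zero hk0 hk0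
      have hkkt : (k * k : ℝ≥0∞) ≠ ∞ := ENNReal.mul_ne_top hkt hkt
      have e1 : ((Nat.factorial 2 : ℕ) : ℝ≥0∞) * len (I ^ k) / (k : ℝ≥0∞) ^ 2 + 2 * lam =
          (2 * len (I ^ k) + (k * k : ℝ≥0∞) * (2 * lam)) / (k * k : ℝ≥0∞) := by
        rw [ENNReal.add_div, mul_div_cancel_l hkk0 hkkt, pow_two]
        norm_num
      have e2 : 2 * (l1 + l2) + 2 * lam / k =
          ((k * k : ℝ≥0∞) * (2 * (l1 + l2)) + k * (2 * lam)) / (k * k : ℝ≥0∞) := by
        rw [ENNReal.add_div, mul_div_cancel_l hkk0 hkkt,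
          ENNReal.mul_div_mul_left _ _ hk0 hkt]
      rw [e1, e2]
      exact ENNReal.div_le_div_right h4 _
    calc mult I + 2 * lam ≤ 2 * (l1 + l2) - 2 * lam + 2 * lam := by gcongr
      _ = 2 * (l1 + l2) := tsub_add_cancel_of_le (by
          refine mul_le_mul_right ?_ _
          exact hlam1.trans le_self_add)
  have hcl : c ≤ p * lam := len_sup_pow_le _ y p
  have hc1 : c ≤ l1 := len_mono le_sup_left
  have hc2' : c ≤ l2 := by
    rw [← hc2]; exact len_mono le_sup_left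
  have h5 : l1 + l2 ≤ l + c := by
    have e1 : l = l1 + len (col I x) := len_eq I x
    have e2 : l2 = c + len (col (I ⊔ Ideal.span {w}) x) := by
      rw [← hc2]; exact len_eq _ x
    have e3 : len (col (I ⊔ Ideal.span {w}) x) ≤ len (col I x) :=
      len_mono (Submodule.comap_mono le_sup_left)
    calc l1 + l2 = l1 + (c + len (col (I ⊔ Ideal.span {w}) x)) := by rw [← e2]
      _ ≤ l1 + (c + len (col I x)) := by gcongr
      _ = l + c := by rw [e1]; ring
  have hpt : (p : ℝ≥0∞) ≠ ∞ := ENNReal.natCast_ne_top p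
  have hp0 : (p : ℝ≥0∞) ≠ 0 := Nat.cast_ne_zero.2 (by omega)
  have hp1 : (1 : ℝ≥0∞) ≤ p := by exact_mod_cast hp
  have hfinal := arith p (mult I) l l1 l2 lam c hp1 hpt hlt hl1t hl2t hlamt hct hmult hcl hc1
    hc2' h5
  have h2l0 : 2 * l ≠ 0 := mul_ne_zero two_ne_zero hl0
  have h2lt : 2 * l ≠ ∞ := ENNReal.mul_ne_top ENNReal.ofNat_ne_top hlt
  rw [ENNReal.div_le_iff h2l0 h2lt, ENNReal.div_eq_inv_mul, mul_assoc,
    ← ENNReal.div_eq_inv_mul, ENNReal.le_div_iff_mul_le (Or.inl hp0) (Or.inl hpt)]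
  have h6 : (2 * (p : ℝ≥0∞) - 1) * (2 * l) = 4 * p * l - 2 * l := by
    rw [ENNReal.sub_mul (fun _ _ => h2lt), one_mul]
    congr 1
    ring
  rw [h6]
  refine ENNReal.le_sub_of_add_le_right h2lt ?_
  rw [mul_comm (mult I)]
  exact hfinal

end Pool.Agent.X272.LMUpper
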