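import Mathlib
import Pool.Agent.X272.LMUpper

/-!
# Lengths of some explicit ideals in power series rings
-/

set_option autoImplicit false

namespace Pool.Agent.X272.LMLower

open IsLocalRing Filter Topology Pool.Agent.X272.LMBase Pool.Agent.X272.LMKey
open Pool.Agent.X272.LMUpper
open scoped ENNReal NNReal

section General

variable {S A : Type*} [CommRing S] [CommRing A]

theorem len_comap (π : S →+* A) (hπ : Function.Surjective π) (J : Ideal A) :
    len (J.comap π) = len J := by
  let _ : Algebra S A := π.toAlgebra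
  unfold len
  congr 1
  have h1 : Module.length S (A ⧸ J) = Module.length A (A ⧸ J) :=
    Module.length_eq_of_surjective (S := S) (R := A) (M := A ⧸ J) hπ
  rw [← h1]
  let θ : S →ₗ[S] (A ⧸ J) := Algebra.linearMap S (A ⧸ J)
  have hθ : Function.Surjective θ := by
    intro q
    obtain ⟨a, rfl⟩ := Ideal.Quotient.mk_surjective q
    obtain ⟨s, rfl⟩ := hπ a
    exact ⟨s, rfl⟩
  have hker : LinearMap.ker θ = J.comap π := by
    ext s
    rw [LinearMap.mem_ker, Ideal.mem_comap]
    exact Ideal.Quotient.eq_zero_iff_mem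
  rw [← (θ.quotKerEquivOfSurjective hθ).length_eq, hker]

theorem len_map_mk (H I : Ideal S) : len (I.map (Ideal.Quotient.mk H)) = len (I ⊔ H) := by
  rw [← len_comap (Ideal.Quotient.mk H) Ideal.Quotient.mk_surjective,
    Ideal.comap_map_of_surjective _ Ideal.Quotient.mk_surjective]
  congr 2
  rw [← RingHom.ker_eq_comap_bot, Ideal.mk_ker]

end General

section Tid

variable {A : Type*} [CommRing A]

theorem coeff_zero_mul' (f g : PowerSeries A) : PowerSeries.coeff 0 (f * g) =
    PowerSeries.coeff 0 f * PowerSeries.coeff 0 g := by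
  rw [PowerSeries.coeff_zero_eq_constantCoeff_apply, PowerSeries.coeff_zero_eq_constantCoeff_apply,
    PowerSeries.coeff_zero_eq_constantCoeff_apply, map_mul]

theorem coeff_one_mul' (f g : PowerSeries A) : PowerSeries.coeff 1 (f * g) =
    PowerSeries.coeff 0 f * PowerSeries.coeff 1 g +
      PowerSeries.coeff 1 f * PowerSeries.coeff 0 g := by
  rw [PowerSeries.coeff_mul]
  simp [Finset.Nat.antidiagonal_succ]

/-- power series whose first two coefficients are in given ideals -/
def Tid (J1 J0 : Ideal A) (h : J1 ≤ J0) : Ideal (PowerSeries A) where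
  carrier := {f | PowerSeries.coeff 0 f ∈ J1 ∧ PowerSeries.coeff 1 f ∈ J0}
  add_mem' := by
    intro f g hf hg
    refine ⟨?_, ?_⟩
    · rw [map_add]; exact J1.add_mem hf.1 hg.1
    · rw [map_add]; exact J0.add_mem hf.2 hg.2
  zero_mem' := ⟨by rw [map_zero]; exact J1.zero_mem, by rw [map_zero]; exact J0.zero_mem⟩
  smul_mem' := by
    intro c f hf
    rw [smul_eq_mul]
    refine ⟨?_, ?_⟩
    · rw [coeff_zero_mul']; exact J1.mul_mem_left _ hf.1
    · rw [coeff_one_mul']
      exact J0.add_mem (J0.mul_mem_left _ hf.2) (J0.mul_mem_left _ (h hf.1))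

theorem mem_Tid {J1 J0 : Ideal A} {h : J1 ≤ J0} {f : PowerSeries A} :
    f ∈ Tid J1 J0 h ↔ PowerSeries.coeff 0 f ∈ J1 ∧ PowerSeries.coeff 1 f ∈ J0 := Iff.rfl

theorem len_comap_const (J : Ideal A) :
    len (J.comap (PowerSeries.constantCoeff : PowerSeries A →+* A)) = len J :=
  len_comap _ PowerSeries.constantCoeff_surj J

theorem len_Tid (J1 J0 : Ideal A) (h : J1 ≤ J0) : len (Tid J1 J0 h) = len J1 + len J0 := by
  rw [len_eq (Tid J1 J0 h) PowerSeries.X, ← len_comap_const J1, ← len_comap_const J0]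
  congr 2
  · ext f
    rw [Ideal.mem_comap, ← PowerSeries.coeff_zero_eq_constantCoeff_apply]
    constructor
    · intro hf
      obtain ⟨a, ha, b, hb, rfl⟩ := Submodule.mem_sup.1 hf
      obtain ⟨c, rfl⟩ := Ideal.mem_span_singleton'.1 hb
      rw [map_add, coeff_zero_mul', PowerSeries.coeff_zero_X, mul_zero, add_zero]
      exact ha.1
    · intro hf
      refine Submodule.mem_sup.2 ⟨PowerSeries.C (PowerSeries.constantCoeff f), ⟨?_, ?_⟩,
        PowerSeries.X * (PowerSeries.mk fun p => PowerSeries.coeff (p + 1) f), ?_, ?_⟩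
      · rw [PowerSeries.coeff_C, if_pos rfl, ← PowerSeries.coeff_zero_eq_constantCoeff_apply]
        exact hf
      · rw [PowerSeries.coeff_C, if_neg one_ne_zero]
        exact J0.zero_mem
      · exact Ideal.mul_mem_right _ _ (Ideal.mem_span_singleton_self _)
      · rw [add_comm]
        exact (PowerSeries.eq_X_mul_shift_add_const f).symm
  · ext f
    rw [mem_col, mem_Tid, Ideal.mem_comap, coeff_zero_mul', coeff_one_mul', PowerSeries.coeff_zero_X,
      PowerSeries.coeff_one_X, zero_mul, zero_mul, zero_add, one_mul,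
      ← PowerSeries.coeff_zero_eq_constantCoeff_apply]
    exact ⟨fun h => h.2, fun h => ⟨J1.zero_mem, h⟩⟩

theorem Tid_mul_le {J1 J0 : Ideal A} (h : J1 ≤ J0) {J : Ideal A} {J2 : Ideal A}
    (h2 : J1 * J ≤ J2) (h3 : J0 * J ≤ J1) (h4 : J2 ≤ J1) :
    Tid J1 J0 h * Tid J ⊤ le_top ≤ Tid J2 J1 h4 := by
  rw [Ideal.mul_le]
  intro f hf g hg
  refine ⟨?_, ?_⟩
  · rw [coeff_zero_mul']
    exact h2 (Ideal.mul_mem_mul hf.1 hg.1)
  · rw [coeff_one_mul']
    exact J1.add_mem (J1.mul_mem_right _ hf.1) (h3 (Ideal.mul_mem_mul hf.2 hg.1))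

end Tid

section U

variable {B : Type*} [CommRing B]

/-- power series whose `i`-th coefficient is in `Z ^ (s - i)` -/
def U (Z : Ideal B) (s : ℕ) : Ideal (PowerSeries B) where
  carrier := {f | ∀ i, PowerSeries.coeff i f ∈ Z ^ (s - i)}
  add_mem' := by
    intro f g hf hg i
    rw [map_add]
    exact Ideal.add_mem _ (hf i) (hg i)
  zero_mem' := fun i => by rw [map_zero]; exact Ideal.zero_mem _
  smul_mem' := by
    intro c f hf i
    rw [smul_eq_mul, PowerSeries.coeff_mul]
    refine Ideal.sum_mem _ fun p hp => ?_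
    rw [Finset.HasAntidiagonal.mem_antidiagonal] at hp
    refine Ideal.mul_mem_left _ _ (Ideal.pow_le_pow_right ?_ (hf p.2))
    omega

theorem mem_U {Z : Ideal B} {s : ℕ} {f : PowerSeries B} :
    f ∈ U Z s ↔ ∀ i, PowerSeries.coeff i f ∈ Z ^ (s - i) := Iff.rfl

theorem U_mul_le (Z : Ideal B) (s t : ℕ) : U Z s * U Z t ≤ U Z (s + t) := by
  rw [Ideal.mul_le]
  intro f hf g hg i
  rw [PowerSeries.coeff_mul]
  refine Ideal.sum_mem _ fun p hp => ?_
  rw [Finset.HasAntidiagonal.mem_antidiagonal] at hp
  have h1 := Ideal.mul_mem_mul (hf p.1) (hg p.2)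
  rw [← pow_add] at h1
  refine Ideal.pow_le_pow_right ?_ h1
  omega

theorem U_anti (Z : Ideal B) {s t : ℕ} (h : s ≤ t) : U Z t ≤ U Z s := by
  intro f hf i
  exact Ideal.pow_le_pow_right (by omega) (hf i)

theorem U_zero (Z : Ideal B) : U Z 0 = ⊤ := by
  rw [eq_top_iff]
  intro f _ i
  rw [Nat.zero_sub, pow_zero, Ideal.one_eq_top]
  trivial

theorem len_U_succ (Z : Ideal B) (s : ℕ) : len (U Z (s + 1)) = len (Z ^ (s + 1)) + len (U Z s) := by
  rw [len_eq (U Z (s + 1)) PowerSeries.X, ← len_comap_const (Z ^ (s + 1))]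
  congr 2
  · ext f
    rw [Ideal.mem_comap, ← PowerSeries.coeff_zero_eq_constantCoeff_apply]
    constructor
    · intro hf
      obtain ⟨a, ha, b, hb, rfl⟩ := Submodule.mem_sup.1 hf
      obtain ⟨c, rfl⟩ := Ideal.mem_span_singleton'.1 hb
      rw [map_add, coeff_zero_mul', PowerSeries.coeff_zero_X, mul_zero, add_zero]
      exact ha 0
    · intro hf
      refine Submodule.mem_sup.2 ⟨PowerSeries.C (PowerSeries.constantCoeff f), ?_,
        PowerSeries.X * (PowerSeries.mk fun p => PowerSeries.coeff (p + 1) f), ?_, ?_⟩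
      · intro i
        rw [PowerSeries.coeff_C]
        split_ifs with hi
        · rw [hi, ← PowerSeries.coeff_zero_eq_constantCoeff_apply]; exact hf
        · exact Ideal.zero_mem _
      · exact Ideal.mul_mem_right _ _ (Ideal.mem_span_singleton_self _)
      · rw [add_comm]
        exact (PowerSeries.eq_X_mul_shift_add_const f).symm
  · ext f
    rw [mem_col]
    constructor
    · intro h i
      have := h (i + 1)
      rw [PowerSeries.coeff_succ_X_mul, Nat.add_sub_add_right] at this
      exact this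
    · intro h i
      cases i with
      | zero => rw [PowerSeries.coeff_zero_X_mul]; exact Ideal.zero_mem _
      | succ i =>
        rw [PowerSeries.coeff_succ_X_mul, Nat.add_sub_add_right]
        exact h i

end U

section Field

variable (K : Type*) [Field K]

/-- the maximal ideal of `K[[Z]]` -/
noncomputable def Zid : Ideal (PowerSeries K) := Ideal.span {PowerSeries.X}

theorem Zid_eq : Zid K = maximalIdeal (PowerSeries K) := PowerSeries.maximalIdeal_eq_span_X.symm

theorem len_Zid : len (Zid K) = 1 := by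
  rw [Zid_eq]
  unfold len
  have : IsSimpleModule (PowerSeries K) (PowerSeries K ⧸ maximalIdeal (PowerSeries K)) := by
    rw [isSimpleModule_iff_isCoatom]
    exact (maximalIdeal.isMaximal _).out
  rw [Module.length_eq_one]
  simp

theorem len_Zid_pow (n : ℕ) : len (Zid K ^ n) = n := by
  induction n with
  | zero => rw [pow_zero, Ideal.one_eq_top, len_top]; simp
  | succ n ih =>
    rw [len_eq (Zid K ^ (n + 1)) PowerSeries.X]
    have h1 : Zid K ^ (n + 1) ⊔ Ideal.span {PowerSeries.X} = Zid K := by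
      change Zid K ^ (n + 1) ⊔ Zid K = Zid K
      rw [sup_eq_right]
      exact Ideal.pow_le_self (by omega)
    have h2 : col (Zid K ^ (n + 1)) PowerSeries.X = Zid K ^ n := by
      ext f
      rw [mem_col, Zid, Ideal.span_singleton_pow, Ideal.span_singleton_pow,
        Ideal.mem_span_singleton, Ideal.mem_span_singleton, pow_succ', mul_dvd_mul_iff_left]
      exact PowerSeries.X_ne_zero
    rw [h1, h2, ih, len_Zid]
    push_cast
    ring

theorem two_mul_len_U (s : ℕ) : 2 * len (U (Zid K) s) = s * (s + 1) := by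
  induction s with
  | zero => rw [U_zero, len_top]; simp
  | succ s ih =>
    rw [len_U_succ, mul_add, ih, len_Zid_pow]
    push_cast
    ring

end Field

end Pool.Agent.X272.LMLower
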