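import Pool.Agent.X272.StirNum

/-!
# Proof of the Stirling refinement of Lech's inequality
-/

set_option autoImplicit false

namespace Pool.Agent.X272.StirFin

open Pool.Agent.X272.LMBase Pool.Agent.X272.StirComb Pool.Agent.X272.StirWord
open Pool.Agent.X272.StirK Pool.Agent.X272.StirGen Pool.Agent.X272.StirNum
open Pool.Agent.X272.StirTrans Pool.Agent.X272.StirLech Pool.Agent.X272.StirPow
open Pool.Agent.X272.StirMain
open scoped ENNReal
open MvPolynomial

theorem mem_m0 (n : ℕ) (F : Type*) [Field F] (p : MvPolynomial (Fin n) F)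
    (hp : constantCoeff p = 0) : p ∈ m0 n F := by
  have h : ∀ q : MvPolynomial (Fin n) F, C (constantCoeff q) - q ∈ m0 n F := by
    intro q
    induction q using MvPolynomial.induction_on with
    | C a => simp
    | add p q hp hq =>
      have := Ideal.add_mem _ hp hq
      rw [map_add, map_add]
      convert this using 1
      ring
    | mul_X p j hp =>
      rw [map_mul, constantCoeff_X, mul_zero, map_zero, zero_sub]
      exact neg_mem (Ideal.mul_mem_left _ _ (Ideal.subset_span ⟨j, rfl⟩))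
  have h1 := h p
  rw [hp, map_zero, zero_sub, neg_mem_iff] at h1
  exact h1

theorem toReal_eq (l : ℕ∞) : ((l : ℝ≥0∞)).toReal = (l.toNat : ℝ) := by
  induction l using ENat.recTopCoe with
  | top => simp
  | coe a => simp

variable (k : Type) [Field k] (d : ℕ)

/-- specialisation of the extra variables -/
noncomputable def spec (a : ℕ × Fin (d + 1) → k) :
    S1 k (d + 1) →+* MvPolynomial (Fin d × Fin (d + 1)) k :=
  eval₂Hom C fun p => if h : p.1 < d then X (⟨p.1, h⟩, p.2) else C (a p)

/-- the extended point -/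
def ptx (a : ℕ × Fin (d + 1) → k) (c : Fin d → Fin (d + 1) → k) : ℕ × Fin (d + 1) → k :=
  fun p => if h : p.1 < d then c ⟨p.1, h⟩ p.2 else a p

theorem eval_spec (a : ℕ × Fin (d + 1) → k) (c : Fin d → Fin (d + 1) → k) (g : S1 k (d + 1)) :
    eval (fun p : Fin d × Fin (d + 1) => c p.1 p.2) (spec k d a g) = eval (ptx k d a c) g := by
  have : (eval (fun p : Fin d × Fin (d + 1) => c p.1 p.2)).comp (spec k d a) =
      eval (ptx k d a c) := by
    refine MvPolynomial.ringHom_ext ?_ ?_
    · intro b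
      rw [RingHom.comp_apply, spec, coe_eval₂Hom, eval₂_C, eval_C, eval_C]
    · intro p
      rw [RingHom.comp_apply, spec, coe_eval₂Hom, eval₂_X, eval_X, ptx]
      split_ifs with h
      · rw [eval_X]
      · rw [eval_C]
  exact RingHom.congr_fun this g

theorem main [Infinite k] (I : Ideal (MvPowerSeries (Fin (d+1)) k))
    (hI : I.radical = Ideal.span (Set.range
      (MvPowerSeries.X : Fin (d+1) → MvPowerSeries (Fin (d+1)) k))) :
    ∃ P : MvPolynomial (Fin d × Fin (d+1)) k, P ≠ 0 ∧
      ∀ c : Fin d → Fin (d+1) → k, MvPolynomial.eval (fun p => c p.1 p.2) P ≠ 0 →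
        ∀ e : Fin d → ℝ,
          (∀ i : Fin d, Filter.Tendsto
            (fun n : ℕ => ((Nat.factorial (d+1-i.val) : ℝ) *
              ((Module.length (MvPowerSeries (Fin (d+1)) k)
                (MvPowerSeries (Fin (d+1)) k ⧸
                  (I ^ n ⊔ Ideal.span {f : MvPowerSeries (Fin (d+1)) k |
                    ∃ j : Fin d, j.val < i.val ∧
                      f = ∑ t : Fin (d+1), c j t • (MvPowerSeries.X t :
                        MvPowerSeries (Fin (d+1)) k)}))).toNat : ℝ))
              / (n : ℝ) ^ (d+1-i.val))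
            Filter.atTop (nhds (e i))) →
          ∑ i : Fin d, ((ascPochhammer ℕ (d+1)).coeff (d+1-i.val) : ℝ) * e i
            ≤ (Nat.factorial (d+1) : ℝ) *
              ((Module.length (MvPowerSeries (Fin (d+1)) k)
                (MvPowerSeries (Fin (d+1)) k ⧸ I)).toNat : ℝ) := by
  classical
  obtain ⟨r, hr⟩ := Ideal.exists_radical_pow_le_of_fg I (by
    rw [hI]
    exact Submodule.fg_span (Set.finite_range _))
  rw [hI] at hr
  have hXr : ∀ j : Fin (d+1), (MvPowerSeries.X j : MvPowerSeries (Fin (d+1)) k) ^ r ∈ I :=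
    fun j => hr (Ideal.pow_mem_pow (Ideal.subset_span (Set.mem_range_self j)) r)
  set I₀ := I.comap (inc k (d+1)) with hI₀
  have hm0 : m0 (d+1) k ^ r ≤ I₀ := by
    rw [hI₀, ← Ideal.map_le_iff_le_comap, Ideal.map_pow]
    refine le_trans (Ideal.pow_right_mono ?_ r) hr
    unfold m0
    rw [Ideal.map_span, Ideal.span_le]
    rintro _ ⟨_, ⟨j, rfl⟩, rfl⟩
    exact Ideal.subset_span ⟨j, (inc_X k (d+1) j).symm⟩
  have hle : I₀ ≤ m0 (d+1) k := by
    intro p hp
    apply mem_m0
    have h1 : inc k (d+1) p ∈ Ideal.span (Set.range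
        (MvPowerSeries.X : Fin (d+1) → MvPowerSeries (Fin (d+1)) k)) := by
      rw [← hI]
      exact Ideal.le_radical hp
    have h2 : Ideal.span (Set.range
        (MvPowerSeries.X : Fin (d+1) → MvPowerSeries (Fin (d+1)) k)) ≤
        RingHom.ker (MvPowerSeries.constantCoeff (σ := Fin (d+1)) (R := k)) := by
      rw [Ideal.span_le]
      rintro _ ⟨j, rfl⟩
      rw [SetLike.mem_coe, RingHom.mem_ker, MvPowerSeries.constantCoeff_X]
    have h3 := h2 h1
    rw [RingHom.mem_ker] at h3
    rw [← h3]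
    change MvPolynomial.constantCoeff p =
      MvPowerSeries.constantCoeff ((p : MvPolynomial (Fin (d+1)) k) : MvPowerSeries (Fin (d+1)) k)
    rw [← MvPowerSeries.coeff_zero_eq_constantCoeff_apply, MvPolynomial.coeff_coe,
      MvPolynomial.constantCoeff_eq]
  have hX0 : ∀ j, (X j : MvPolynomial (Fin (d+1)) k) ^ r ∈ I₀ :=
    fun j => hm0 (Ideal.pow_mem_pow (Ideal.subset_span (Set.mem_range_self j)) r)
  have hLfin : kl k I₀ ≠ ⊤ := kl_ne_top I₀ r hX0
  obtain ⟨hfin, N, hN, hnum⟩ := num d (ta k (d+1) I₀) (kl k I₀) hLfin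
    (A1 k (d+1) I₀ r hm0) (A3 k (d+1) I₀ hle (by omega))
  have hX0N : ∀ j, (X j : MvPolynomial (Fin (d+1)) k) ^ (r * N) ∈ I₀ ^ N := by
    intro j
    rw [pow_mul]
    exact Ideal.pow_mem_pow (hX0 j) N
  have hm0N : m0 (d+1) k ^ (r * N) ≤ I₀ ^ N := by
    rw [pow_mul]
    exact Ideal.pow_right_mono hm0 N
  choose g hg hgc using fun i : ℕ => lemB k (d+1) (I₀ ^ N) (r * N) hX0N i
  set G : S1 k (d+1) := (∏ i : Fin d, g i.val) * gdet k (d+1) with hG
  have hG0 : G ≠ 0 := mul_ne_zero (Finset.prod_ne_zero_iff.2 fun i _ => hg i.val)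
    (gdet_ne k (d+1))
  obtain ⟨a, ha⟩ : ∃ a, eval a G ≠ 0 := by
    by_contra h
    push Not at h
    exact hG0 (MvPolynomial.funext fun x => by rw [h x, map_zero])
  refine ⟨spec k d a G, ?_, ?_⟩
  · intro h0
    apply ha
    have h1 := eval_spec k d a (fun i j => a (i.val, j)) G
    rw [h0, map_zero] at h1
    have h2 : ptx k d a (fun i j => a (i.val, j)) = a := by
      funext p
      unfold ptx
      split_ifs <;> rfl
    rw [h2] at h1
    exact h1.symm
  intro c hc e he
  rw [eval_spec, hG, map_mul, map_prod] at hc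
  set c' := ptx k d a c with hc'
  have hc1 : ∀ i : Fin d, eval c' (g i.val) ≠ 0 := fun i =>
    Finset.prod_ne_zero_iff.1 (left_ne_zero_of_mul hc) i (Finset.mem_univ i)
  have hc2 : eval c' (gdet k (d+1)) ≠ 0 := right_ne_zero_of_mul hc
  -- the colengths
  set Cq : ℕ → ℝ≥0∞ := fun i => kl k (I₀ ^ N ⊔ Ideal.span (lf k (d+1) c' '' {t | t < i})) with hCq
  have hCfin : ∀ i, Cq i ≠ ⊤ := fun i =>
    kl_ne_top _ (r * N) fun j => Ideal.mem_sup_left (hX0N j)
  have hN0 : (0 : ℝ) < N := by exact_mod_cast hN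
  have key : ∀ i : Fin d, e i ≤ ((d+1-i.val).factorial : ℝ) * (Cq i.val).toReal /
      (N : ℝ) ^ (d+1-i.val) := by
    intro i
    refine lemE (d+1-i.val) N hN (Cq i.val).toReal (fun m => (Module.length
      (MvPowerSeries (Fin (d+1)) k) (MvPowerSeries (Fin (d+1)) k ⧸
                  (I ^ m ⊔ Ideal.span {f : MvPowerSeries (Fin (d+1)) k |
                    ∃ j : Fin d, j.val < i.val ∧
                      f = ∑ t : Fin (d+1), c j t • (MvPowerSeries.X t :
                        MvPowerSeries (Fin (d+1)) k)}))).toNat) (e i) (he i) ?_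
    intro m hm
    have h1 := length_le k (d+1) (I ^ (N * m) ⊔ Ideal.span {f : MvPowerSeries (Fin (d+1)) k |
                    ∃ j : Fin d, j.val < i.val ∧
                      f = ∑ t : Fin (d+1), c j t • (MvPowerSeries.X t :
                        MvPowerSeries (Fin (d+1)) k)})
      ((I₀ ^ N) ^ m ⊔ Ideal.span (lf k (d+1) c' '' {t | t < i.val})) (by
        refine sup_le ?_ ?_
        · rw [← pow_mul]
          refine (Ideal.le_comap_pow _ _).trans (Ideal.comap_mono le_sup_left)
        · rw [Ideal.span_le]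
          rintro _ ⟨t, ht, rfl⟩
          have ht' : t < i.val := ht
          have htd : t < d := ht'.trans i.2
          rw [SetLike.mem_coe, Ideal.mem_comap]
          refine Ideal.mem_sup_right (Ideal.subset_span ⟨⟨t, htd⟩, ht', ?_⟩)
          unfold lf
          rw [map_sum]
          refine Finset.sum_congr rfl fun j _ => ?_
          rw [map_mul, inc_C, inc_X, MvPowerSeries.smul_eq_C_mul, hc', ptx, dif_pos htd])
      (r * (N * m)) (by
        intro j
        refine Ideal.mem_sup_left ?_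
        have h5 := Ideal.pow_mem_pow (hXr j) (N * m)
        rwa [← pow_mul] at h5)
    have h2 := lemD k (d+1) (I₀ ^ N) (r * N) hm0N c' hc2 i.val (by omega) m hm
    have h3 := h1.trans h2
    rw [← toReal_eq]
    have h4 := ENNReal.toReal_mono (ENNReal.mul_ne_top (ENNReal.pow_ne_top
      (ENNReal.natCast_ne_top m)) (hCfin i.val)) h3
    rw [ENNReal.toReal_mul, ENNReal.toReal_pow, ENNReal.toReal_natCast] at h4
    exact h4
  have key2 : ∀ i : Fin d, ((ascPochhammer ℕ (d+1)).coeff (d+1-i.val) : ℝ) * e i ≤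
      (((N : ℝ) + ((d + 1 - i.val : ℕ) : ℝ)) / N) ^ (d + 1 - i.val) *
      ((((ascPochhammer ℕ (d + 1)).coeff (d + 1 - i.val) : ℕ) : ℝ≥0∞) *
        ta k (d+1) I₀ (d + 1 - i.val)).toReal := by
    intro i
    set D := d + 1 - i.val with hD
    set sD := (ascPochhammer ℕ (d+1)).coeff D with hsD
    have h1 := A2 k (d+1) I₀ r hm0 N hN D (by omega)
    have h2 : d + 1 - D = i.val := by omega
    rw [h2] at h1
    have h3 := hgc i.val c' (hc1 i)
    have h4 : (sD : ℝ≥0∞) * ((D.factorial : ℝ≥0∞) * Cq i.val) ≤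
        ((N : ℝ≥0∞) + D) ^ D * ((sD : ℝ≥0∞) * ta k (d+1) I₀ D) := by
      calc (sD : ℝ≥0∞) * ((D.factorial : ℝ≥0∞) * Cq i.val)
          ≤ (sD : ℝ≥0∞) * (((N : ℝ≥0∞) + D) ^ D * ta k (d+1) I₀ D) := by
            refine mul_le_mul_right ?_ _
            exact (mul_le_mul_right h3 _).trans h1
        _ = ((N : ℝ≥0∞) + D) ^ D * ((sD : ℝ≥0∞) * ta k (d+1) I₀ D) := by ring
    have h5 : (sD : ℝ) * ((D.factorial : ℝ) * (Cq i.val).toReal) ≤
        ((N : ℝ) + D) ^ D * ((sD : ℝ≥0∞) * ta k (d+1) I₀ D).toReal := by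
      have h6 := ENNReal.toReal_mono (ENNReal.mul_ne_top (ENNReal.pow_ne_top
        (ENNReal.add_ne_top.2 ⟨ENNReal.natCast_ne_top N, ENNReal.natCast_ne_top D⟩))
          (hfin D)) h4
      rw [ENNReal.toReal_mul, ENNReal.toReal_mul, ENNReal.toReal_mul, ENNReal.toReal_pow,
        ENNReal.toReal_add (ENNReal.natCast_ne_top N) (ENNReal.natCast_ne_top D),
        ENNReal.toReal_natCast, ENNReal.toReal_natCast, ENNReal.toReal_natCast,
        ENNReal.toReal_natCast] at h6
      exact h6
    have h7 : (sD : ℝ) * e i ≤ (sD : ℝ) * ((D.factorial : ℝ) * (Cq i.val).toReal /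
        (N : ℝ) ^ D) := mul_le_mul_of_nonneg_left (key i) (by positivity)
    refine h7.trans ?_
    rw [div_pow, ← mul_div_assoc, div_mul_eq_mul_div]
    exact div_le_div_of_nonneg_right h5 (by positivity)
  refine (Finset.sum_le_sum fun i _ => key2 i).trans ?_
  refine hnum.trans ?_
  refine mul_le_mul_of_nonneg_left ?_ (by positivity)
  rw [← toReal_eq]
  have h1 := kl_comap_le k (d+1) I r hXr
  have h2 := length_le k (d+1) I I₀ le_rfl r hXr
  refine ENNReal.toReal_mono ?_ h1
  intro h3
  rw [h3, top_le_iff] at h2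
  exact hLfin h2

end Pool.Agent.X272.StirFin
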