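import Mathlib

/-!
# A two-dimensional regular local ring whose Pythagoras number is not that of its fraction field

Let `A = ℤ[i][X]`, let `P = (1 + i, X)` and let `R` be the local ring of `A` at `P`, a regular local
ring of dimension two with fraction field `K = ℚ(i)(X)`. As `-1` is a square in `K`, every element
of `K` is a sum of two squares. In `R` the element `2 X = (X + 1) ^ 2 + (i X) ^ 2 + i ^ 2` is a sum of
three squares, but not of two squares.
-/

set_option autoImplicit false

open Polynomial

namespace Pool.Agent.X272.Pyth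

/-- The reduction modulo `1 + i`. -/
def red : GaussianInt →+* ZMod 2 := Zsqrtd.lift ⟨1, by decide⟩

theorem red_mk (z : GaussianInt) : red z = (z.re : ZMod 2) + (z.im : ZMod 2) := by
  simp [red, Zsqrtd.lift]

/-- The prime `1 + i`. -/
def pi : GaussianInt := ⟨1, 1⟩

/-- `i`. -/
def im : GaussianInt := ⟨0, 1⟩

theorem im_sq : im * im = -1 := by
  ext <;> simp [im]

theorem pi_sq : pi * pi = 2 * im := by
  ext <;> simp [im, pi]

theorem red_pi : red pi = 0 := by
  rw [red_mk]; decide

theorem red_im : red im = 1 := by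
  rw [red_mk]; decide

theorem pi_ne : pi ≠ 0 := by
  intro h
  have := congrArg Zsqrtd.re h
  simp [pi] at this

theorem pi_dvd {z : GaussianInt} (h : red z = 0) : pi ∣ z := by
  rw [red_mk] at h
  have h1 : (((z.re + z.im : ℤ)) : ZMod 2) = 0 := by push_cast; exact h
  rw [ZMod.intCast_zmod_eq_zero_iff_dvd] at h1
  obtain ⟨k, hk⟩ := h1
  refine ⟨⟨k, k - z.re⟩, ?_⟩
  ext
  · simp [pi]
  · simp [pi]
    push_cast at hk
    linarith

/-- The polynomial ring. -/
abbrev A := Polynomial GaussianInt

theorem C_pi_dvd {p : A} (h : p.map red = 0) : C pi ∣ p := by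
  rw [C_dvd_iff_dvd_coeff]
  intro i
  apply pi_dvd
  rw [← coeff_map, h, coeff_zero]

/-- The key computation: `2 X s ^ 2` is not a sum of two squares in `ℤ[i][X]`. -/
theorem no_two {s a b : A} (h : 2 * X * s ^ 2 = a ^ 2 + b ^ 2) : s.map red = 0 := by
  have h2 : (2 : ZMod 2) = 0 := by decide
  have hC2 : (2 : (ZMod 2)[X]) = 0 := by
    rw [← C_ofNat, h2, C_0]
  have char2 : ∀ q : (ZMod 2)[X], q + q = 0 := fun q => by rw [← two_mul, hC2, zero_mul]
  -- first step
  have h1 : (a - b).map red = 0 := by
    have h3 : (a.map red + b.map red) ^ 2 = 0 := by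
      have h4 := congrArg (Polynomial.map red) h
      simp only [Polynomial.map_mul, Polynomial.map_add, Polynomial.map_pow, Polynomial.map_ofNat,
        hC2, zero_mul] at h4
      calc (a.map red + b.map red) ^ 2
          = (a.map red) ^ 2 + (b.map red) ^ 2 + 2 * (a.map red * b.map red) := by ring
        _ = 0 := by rw [← h4, hC2]; ring
    have h5 : a.map red + b.map red = 0 := by simpa using h3
    rw [Polynomial.map_sub, sub_eq_add_neg, ← h5]
    congr 1
    have := char2 (b.map red)
    exact (neg_eq_of_add_eq_zero_left this)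
  obtain ⟨c, hc⟩ := C_pi_dvd h1
  have ha : a = b + C pi * c := by rw [← hc]; ring
  have hP : (C pi : A) * C pi = 2 * C im := by
    rw [← C_mul, pi_sq, C_mul]
    congr 1
  -- second step
  have h6 : 2 * (X * s ^ 2) = 2 * (b ^ 2 + C pi * b * c + C im * c ^ 2) := by
    rw [← mul_assoc, h, ha]
    linear_combination c ^ 2 * hP
  have h7 : X * s ^ 2 = b ^ 2 + C pi * b * c + C im * c ^ 2 :=
    mul_left_cancel₀ two_ne_zero h6
  have h8 : X * (s.map red) ^ 2 = (b.map red + c.map red) ^ 2 := by
    have h9 := congrArg (Polynomial.map red) h7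
    simp only [Polynomial.map_mul, Polynomial.map_add, Polynomial.map_pow, Polynomial.map_X,
      Polynomial.map_C, red_pi, red_im, C_0, C_1, zero_mul, one_mul, add_zero] at h9
    rw [h9]
    linear_combination (-(b.map red) * (c.map red)) * hC2
  by_contra hs
  have h10 : ((b.map red + c.map red) ^ 2).natDegree = 2 * (b.map red + c.map red).natDegree :=
    natDegree_pow _ _
  rw [← h8, natDegree_X_mul (pow_ne_zero 2 hs), natDegree_pow] at h10
  omega

/-- The map whose kernel is the maximal ideal `(1 + i, X)`. -/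
noncomputable def psi : A →+* ZMod 2 := eval₂RingHom red 0

/-- The maximal ideal. -/
noncomputable def P : Ideal A := RingHom.ker psi

instance : P.IsPrime := RingHom.ker_isPrime psi

theorem P_eq : P = Ideal.span {C pi, X} := by
  apply le_antisymm
  · intro p hp
    have hp' : psi p = 0 := hp
    have h0 : red (p.coeff 0) = 0 := by
      simpa [psi, eval₂_at_zero] using hp'
    obtain ⟨c, hc⟩ := pi_dvd h0
    rw [Ideal.mem_span_pair]
    refine ⟨C c, p.divX, ?_⟩
    have := divX_mul_X_add p
    rw [hc] at this
    conv_rhs => rw [← this]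
    rw [C_mul]; ring
  · rw [Ideal.span_le]
    rintro x (rfl | rfl)
    · show psi _ = 0
      simp [psi, red_pi]
    · show psi _ = 0
      simp [psi]

theorem ht_P : P.height = 2 := by
  apply le_antisymm
  · have h := Ideal.height_le_card_of_mem_minimalPrimes_span (R := A) (p := P)
      (s := {C pi, X}) (Set.toFinite _) (by
        rw [← P_eq, Ideal.minimalPrimes_eq_subsingleton_self]; rfl)
    refine h.trans ?_
    have : (({C pi, X} : Set A)).ncard ≤ 2 :=
      (Set.ncard_insert_le _ _).trans (by rw [Set.ncard_singleton])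
    exact_mod_cast this
  · have hX : (Ideal.span {X} : Ideal A).IsPrime := by
      rw [Ideal.span_singleton_prime X_ne_zero]
      exact prime_X
    have hb : (⊥ : Ideal A).IsPrime := Ideal.isPrime_bot
    have h1 : (⊥ : Ideal A) < Ideal.span {X} := by
      rw [bot_lt_iff_ne_bot, Ne, Ideal.span_singleton_eq_bot]
      exact X_ne_zero
    have h2 : (Ideal.span {X} : Ideal A) < P := by
      rw [P_eq]
      refine lt_of_le_of_ne (Ideal.span_mono (by simp)) ?_
      intro h
      have h3 : (C pi : A) ∈ (Ideal.span {X} : Ideal A) := by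
        rw [h]; exact Ideal.subset_span (by simp)
      rw [Ideal.mem_span_singleton, X_dvd_iff, coeff_C_zero] at h3
      exact pi_ne h3
    have h3 := Ideal.height_add_one_le_of_lt_of_isPrime h1
    have h4 := Ideal.height_add_one_le_of_lt_of_isPrime h2
    rw [Ideal.height_bot] at h3
    calc (2 : ℕ∞) = 0 + 1 + 1 := by norm_num
      _ ≤ (Ideal.span {X} : Ideal A).height + 1 := by gcongr
      _ ≤ _ := h4

/-- The local ring. -/
abbrev R := Localization.AtPrime P

theorem dim_R : ringKrullDim R = 2 := by
  rw [IsLocalization.AtPrime.ringKrullDim_eq_height P R, ht_P]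
  rfl

theorem max_R : ∃ a b : R, IsLocalRing.maximalIdeal R = Ideal.span {a, b} := by
  refine ⟨algebraMap A R (C pi), algebraMap A R X, ?_⟩
  rw [← Localization.AtPrime.map_eq_maximalIdeal]
  have h : Ideal.map (algebraMap A R) P = Ideal.map (algebraMap A R) (Ideal.span {C pi, X}) :=
    congrArg _ P_eq
  rw [h, Ideal.map_span, Set.image_pair]

theorem sumSq : IsSumSq (algebraMap A R (2 * X)) := by
  have h : (2 * X : A) = (X + 1) * (X + 1) + ((C im * X) * (C im * X) + (C im * C im + 0)) := by
    have hI : (C im : A) * C im = -1 := by rw [← C_mul, im_sq]; simp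
    linear_combination (-(X ^ 2) - 1) * hI
  rw [h]
  simp only [map_add, map_mul, map_zero]
  exact .sq_add _ (.sq_add _ (.sq_add _ .zero))

theorem not_two : ¬ ∃ f : Fin 2 → R, algebraMap A R (2 * X) = ∑ i, f i ^ 2 := by
  rintro ⟨f, hf⟩
  rw [Fin.sum_univ_two] at hf
  obtain ⟨a, s, hs⟩ := IsLocalization.exists_mk'_eq P.primeCompl (f 0)
  obtain ⟨b, t, ht⟩ := IsLocalization.exists_mk'_eq P.primeCompl (f 1)
  have hs' : f 0 * algebraMap A R s = algebraMap A R a := by
    rw [← hs]; exact IsLocalization.mk'_spec _ _ _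
  have ht' : f 1 * algebraMap A R t = algebraMap A R b := by
    rw [← ht]; exact IsLocalization.mk'_spec _ _ _
  have h1 : algebraMap A R (2 * X * ((s : A) * (t : A)) ^ 2) = algebraMap A R
      ((a * (t : A)) ^ 2 + (b * (s : A)) ^ 2) := by
    simp only [map_mul, map_add, map_pow] at *
    rw [hf, ← hs', ← ht']
    ring
  have hinj : Function.Injective (algebraMap A R) :=
    IsLocalization.injective R P.primeCompl_le_nonZeroDivisors
  have h2 := no_two (hinj h1)
  have h3 : (s : A) * (t : A) ∉ P := (s * t).2
  apply h3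
  show psi _ = 0
  have h4 : psi ((s : A) * (t : A)) = (((s : A) * (t : A)).map red).eval 0 := by
    simp [psi, eval_map]
  rw [h4, h2, eval_zero]

/-- Every element of a field in which `-1` is a square and `2` is not zero is a sum of two
squares. -/
theorem two_sq {K : Type} [Field K] (j : K) (hj : j * j = -1) (h2 : (2 : K) ≠ 0) (x : K) :
    ∃ f : Fin 2 → K, x = ∑ i, f i ^ 2 := by
  refine ⟨![(x + 1) / 2, j * (x - 1) / 2], ?_⟩
  rw [Fin.sum_univ_two]
  simp only [Matrix.cons_val_zero, Matrix.cons_val_one]
  field_simp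
  linear_combination (-(x - 1) ^ 2) * hj

theorem contra (R : Type) [CommRing R] [IsDomain R] (j : R) (hj : j * j = -1)
    (h2 : (2 : R) ≠ 0) (x : R) (hx : IsSumSq x) (hn : ¬ ∃ f : Fin 2 → R, x = ∑ i, f i ^ 2)
    (h : ∀ (K : Type) [Field K] [Algebra R K] [IsFractionRing R K],
      ∀ n : ℕ,
        ((∀ x : R, IsSumSq x → ∃ f : Fin n → R, x = ∑ i, f i ^ 2) ↔
          (∀ x : K, IsSumSq x → ∃ f : Fin n → K, x = ∑ i, f i ^ 2))) : False := by
  refine hn (((h (FractionRing R)) 2).mpr (fun y _ => ?_) _ hx)
  have hinj : Function.Injective (algebraMap R (FractionRing R)) :=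
    IsFractionRing.injective R (FractionRing R)
  refine two_sq (algebraMap R (FractionRing R) j) ?_ ?_ y
  · rw [← map_mul, hj, map_neg, map_one]
  · intro h3
    have h4 : algebraMap R (FractionRing R) 2 = 0 := by
      rw [map_ofNat, h3]
    rw [map_eq_zero_iff _ hinj] at h4
    exact h2 h4

theorem main : ¬ (∀ (R : Type) [CommRing R] [IsDomain R] [IsLocalRing R] [IsNoetherianRing R],
      ringKrullDim R = 2 →
      (∃ a b : R, IsLocalRing.maximalIdeal R = Ideal.span {a, b}) →
      ∀ (K : Type) [Field K] [Algebra R K] [IsFractionRing R K],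
      ∀ n : ℕ,
        ((∀ x : R, IsSumSq x → ∃ f : Fin n → R, x = ∑ i, f i ^ 2) ↔
          (∀ x : K, IsSumSq x → ∃ f : Fin n → K, x = ∑ i, f i ^ 2))) := by
  intro h
  have hD : IsDomain R := IsLocalization.isDomain_localization P.primeCompl_le_nonZeroDivisors
  have hN : IsNoetherianRing R := IsLocalization.isNoetherianRing P.primeCompl R inferInstance
  have hinj' : Function.Injective (algebraMap A R) :=
    IsLocalization.injective R P.primeCompl_le_nonZeroDivisors
  have hI : (C im : A) * C im = -1 := by rw [← C_mul, im_sq]; simp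
  refine contra R (algebraMap A R (C im)) ?_ ?_ _ sumSq not_two (h R dim_R max_R)
  · rw [← map_mul, hI, map_neg, map_one]
  · intro h3
    have h4 : algebraMap A R 2 = 0 := by rw [map_ofNat, h3]
    rw [map_eq_zero_iff _ hinj'] at h4
    exact two_ne_zero h4

end Pool.Agent.X272.Pyth
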