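import Mathlib

/-!
# Sums over multisets of natural numbers

Combinatorial part of the Stirling number refinement of Lech's inequality.
-/

set_option autoImplicit false

namespace Pool.Agent.X272.StirComb

open scoped ENNReal Nat
open Polynomial

/-- the sum of `F` over all multisets with `a` elements -/
noncomputable def T (a : ℕ) (F : Multiset ℕ → ℝ≥0∞) : ℝ≥0∞ :=
  ∑' M : Multiset ℕ, if M.card = a then F M else 0

/-- `(D F) M = ∑ F ({v} + M)` -/
noncomputable def D (F : Multiset ℕ → ℝ≥0∞) : Multiset ℕ → ℝ≥0∞ := fun M => ∑' v : ℕ, F (v ::ₘ M)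

theorem T_zero (F : Multiset ℕ → ℝ≥0∞) : T 0 F = F 0 := by
  unfold T
  rw [tsum_eq_single 0]
  · simp
  · intro M hM
    rw [if_neg]
    intro h
    exact hM (Multiset.card_eq_zero.1 h)

theorem T_le {a : ℕ} {F G : Multiset ℕ → ℝ≥0∞} (h : ∀ M, M.card = a → F M ≤ G M) :
    T a F ≤ T a G := by
  unfold T
  refine ENNReal.tsum_le_tsum fun M => ?_
  split_ifs with hM
  · exact h M hM
  · exact le_rfl

theorem T_congr {a : ℕ} {F G : Multiset ℕ → ℝ≥0∞} (h : ∀ M, M.card = a → F M = G M) :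
    T a F = T a G :=
  le_antisymm (T_le fun M hM => (h M hM).le) (T_le fun M hM => (h M hM).ge)

theorem T_add (a : ℕ) (F G : Multiset ℕ → ℝ≥0∞) : T a (fun M => F M + G M) = T a F + T a G := by
  unfold T
  rw [← ENNReal.tsum_add]
  refine tsum_congr fun M => ?_
  split_ifs <;> simp

theorem T_const_mul (a : ℕ) (c : ℝ≥0∞) (F : Multiset ℕ → ℝ≥0∞) :
    T a (fun M => c * F M) = c * T a F := by
  unfold T
  rw [← ENNReal.tsum_mul_left]
  refine tsum_congr fun M => ?_
  split_ifs <;> simp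

theorem T_tsum (a : ℕ) (f : ℕ → Multiset ℕ → ℝ≥0∞) :
    ∑' v, T a (f v) = T a (fun M => ∑' v, f v M) := by
  unfold T
  rw [ENNReal.tsum_comm]
  refine tsum_congr fun M => ?_
  split_ifs <;> simp

theorem tsum_count (M : Multiset ℕ) : ∑' v : ℕ, ((M.count v : ℕ) : ℝ≥0∞) = M.card := by
  rw [tsum_eq_sum (s := M.toFinset)]
  · rw [← Multiset.toFinset_sum_count_eq M]
    push_cast
    rfl
  · intro v hv
    rw [Multiset.mem_toFinset] at hv
    rw [Multiset.count_eq_zero_of_notMem hv]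
    simp

theorem T_succ (a : ℕ) (F : Multiset ℕ → ℝ≥0∞) :
    ((a + 1 : ℕ) : ℝ≥0∞) * T (a + 1) F =
      T a (fun M => ∑' v : ℕ, ((M.count v + 1 : ℕ) : ℝ≥0∞) * F (v ::ₘ M)) := by
  rw [← T_tsum]
  have h1 : ∀ v : ℕ, T a (fun M => ((M.count v + 1 : ℕ) : ℝ≥0∞) * F (v ::ₘ M)) =
      ∑' M : Multiset ℕ, if M.card = a + 1 then ((M.count v : ℕ) : ℝ≥0∞) * F M else 0 := by
    intro v
    have hc : Function.Injective (fun M : Multiset ℕ => v ::ₘ M) :=
      fun _ _ h => (Multiset.cons_inj_right v).1 h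
    rw [← hc.tsum_eq
      (f := fun M : Multiset ℕ => if M.card = a + 1 then ((M.count v : ℕ) : ℝ≥0∞) * F M else 0)]
    · unfold T
      refine tsum_congr fun M => ?_
      simp [Multiset.card_cons]
    · intro M hM
      rw [Function.mem_support] at hM
      have hv : v ∈ M := by
        by_contra hv
        apply hM
        rw [Multiset.count_eq_zero_of_notMem hv]
        simp
      exact ⟨M.erase v, Multiset.cons_erase hv⟩
  simp only [h1]
  rw [ENNReal.tsum_comm, T, ← ENNReal.tsum_mul_left]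
  refine tsum_congr fun M => ?_
  split_ifs with hM
  · rw [ENNReal.tsum_mul_right, tsum_count, hM]
  · simp

theorem T_succ_ge (a : ℕ) (F : Multiset ℕ → ℝ≥0∞)
    (hF : ∀ M v, M.card = a → v ∈ M → F M ≤ F (v ::ₘ M)) :
    T a (D F) + a * T a F ≤ ((a + 1 : ℕ) : ℝ≥0∞) * T (a + 1) F := by
  rw [T_succ, ← T_const_mul, ← T_add]
  refine T_le fun M hM => ?_
  have h1 : ∑' v : ℕ, ((M.count v + 1 : ℕ) : ℝ≥0∞) * F (v ::ₘ M) =
      D F M + ∑' v : ℕ, ((M.count v : ℕ) : ℝ≥0∞) * F (v ::ₘ M) := by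
    unfold D
    rw [← ENNReal.tsum_add]
    refine tsum_congr fun v => ?_
    push_cast
    ring
  rw [h1, ← hM, ← tsum_count, ← ENNReal.tsum_mul_right]
  refine add_le_add le_rfl (ENNReal.tsum_le_tsum fun v => ?_)
  by_cases hv : v ∈ M
  · exact mul_le_mul_right (hF M v hM hv) _
  · rw [Multiset.count_eq_zero_of_notMem hv]
    simp

/-- evaluation of a polynomial at a sequence -/
noncomputable def ev (P : ℕ[X]) (g : ℕ → ℝ≥0∞) : ℝ≥0∞ := ∑' j, ((P.coeff j : ℕ) : ℝ≥0∞) * g j

theorem ev_one (g : ℕ → ℝ≥0∞) : ev 1 g = g 0 := by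
  unfold ev
  rw [tsum_eq_single 0]
  · simp
  · intro j hj
    rw [Polynomial.coeff_one, if_neg hj]
    simp

theorem ev_mul (P : ℕ[X]) (n : ℕ) (g : ℕ → ℝ≥0∞) :
    ev (P * (X + (n : ℕ[X]))) g = ev P (fun j => g (j + 1)) + n * ev P g := by
  have h0 : (P * (X + (n : ℕ[X]))).coeff 0 = n * P.coeff 0 := by
    rw [Polynomial.mul_coeff_zero]
    simp [mul_comm]
  have h1 : ∀ j, (P * (X + (n : ℕ[X]))).coeff (j + 1) = P.coeff j + n * P.coeff (j + 1) := by
    intro j
    rw [mul_add, Polynomial.coeff_add, Polynomial.coeff_mul_X, Polynomial.coeff_mul_natCast]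
    simp [mul_comm]
  unfold ev
  rw [tsum_eq_zero_add' ENNReal.summable, h0]
  simp only [h1]
  have h2 : ∑' j, ((P.coeff j : ℕ) : ℝ≥0∞) * g j =
      ((P.coeff 0 : ℕ) : ℝ≥0∞) * g 0 + ∑' j, ((P.coeff (j + 1) : ℕ) : ℝ≥0∞) * g (j + 1) :=
    tsum_eq_zero_add' ENNReal.summable
  rw [h2, mul_add, ← ENNReal.tsum_mul_left]
  push_cast
  have h3 : ∑' j, (((P.coeff j : ℕ) : ℝ≥0∞) + n * ((P.coeff (j + 1) : ℕ) : ℝ≥0∞)) * g (j + 1) =
      ∑' j, ((P.coeff j : ℕ) : ℝ≥0∞) * g (j + 1) +
        ∑' j, (n : ℝ≥0∞) * (((P.coeff (j + 1) : ℕ) : ℝ≥0∞) * g (j + 1)) := by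
    rw [← ENNReal.tsum_add]
    refine tsum_congr fun j => ?_
    ring
  rw [h3]
  ring

theorem dom_iterate (n : ℕ) (F : Multiset ℕ → ℝ≥0∞)
    (hF : ∀ M v, M.card < n → v ∈ M → F M ≤ F (v ::ₘ M)) (b : ℕ) :
    ∀ M v, M.card + b < n → v ∈ M → (D^[b] F) M ≤ (D^[b] F) (v ::ₘ M) := by
  induction b with
  | zero => intro M v hM hv; exact hF M v hM hv
  | succ b ih =>
    intro M v hM hv
    rw [Function.iterate_succ_apply']
    unfold D
    refine ENNReal.tsum_le_tsum fun u => ?_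
    rw [Multiset.cons_swap]
    refine ih (u ::ₘ M) v ?_ (Multiset.mem_cons_of_mem hv)
    rw [Multiset.card_cons]
    omega

/-- The combinatorial inequality behind the Stirling number refinement. -/
theorem lower (n : ℕ) (F : Multiset ℕ → ℝ≥0∞)
    (hF : ∀ M v, M.card < n → v ∈ M → F M ≤ F (v ::ₘ M)) (a : ℕ) :
    ∀ b, a + b ≤ n →
      ev (ascPochhammer ℕ a) (fun j => (D^[b + j] F) 0) ≤ (a ! : ℝ≥0∞) * T a (D^[b] F) := by
  induction a with
  | zero =>
    intro b _
    rw [ascPochhammer_zero, ev_one, T_zero]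
    simp
  | succ a ih =>
    intro b hb
    rw [ascPochhammer_succ_right, ev_mul]
    have h1 := ih (b + 1) (by omega)
    have h2 := ih b (by omega)
    have h3 := T_succ_ge a (D^[b] F) (fun M v hM hv =>
      dom_iterate n F hF b M v (by omega) hv)
    have h4 : (fun j => (D^[b + (j + 1)] F) 0) = fun j => (D^[b + 1 + j] F) 0 := by
      funext j
      rw [show b + (j + 1) = b + 1 + j by ring]
    rw [h4]
    calc ev (ascPochhammer ℕ a) (fun j => (D^[b + 1 + j] F) 0) +
          a * ev (ascPochhammer ℕ a) (fun j => (D^[b + j] F) 0)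
        ≤ (a ! : ℝ≥0∞) * T a (D^[b + 1] F) + a * ((a ! : ℝ≥0∞) * T a (D^[b] F)) := by
          gcongr
      _ = (a ! : ℝ≥0∞) * (T a (D (D^[b] F)) + a * T a (D^[b] F)) := by
          rw [Function.iterate_succ_apply']
          ring
      _ ≤ (a ! : ℝ≥0∞) * (((a + 1 : ℕ) : ℝ≥0∞) * T (a + 1) (D^[b] F)) := by gcongr
      _ = ((a + 1) ! : ℝ≥0∞) * T (a + 1) (D^[b] F) := by
          rw [Nat.factorial_succ]
          push_cast
          ring

theorem tsum_div (N : ℕ) (hN : 1 ≤ N) (f : ℕ → ℝ≥0∞) : ∑' v : ℕ, f (v / N) = N * ∑' q, f q := by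
  have : NeZero N := ⟨by omega⟩
  rw [← (Nat.divModEquiv N).symm.tsum_eq (fun v => f (v / N)), ENNReal.tsum_prod',
    ← ENNReal.tsum_mul_left]
  refine tsum_congr fun q => ?_
  rw [tsum_fintype]
  have : ∀ r : Fin N, f ((Nat.divModEquiv N).symm (q, r) / N) = f q := by
    intro r
    congr 1
    have h := (Nat.divModEquiv N).apply_symm_apply (q, r)
    have h2 : ((Nat.divModEquiv N) ((Nat.divModEquiv N).symm (q, r))).1 = q := by rw [h]
    exact h2
  rw [Finset.sum_congr rfl (fun r _ => this r)]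
  simp

/-- The count of multisets by their images under division by `N`. -/
theorem upper (N : ℕ) (hN : 1 ≤ N) (a : ℕ) : ∀ F : Multiset ℕ → ℝ≥0∞,
    (a ! : ℝ≥0∞) * T a (fun M => F (M.map (· / N))) ≤ ((N : ℝ≥0∞) + a) ^ a * (D^[a] F) 0 := by
  suffices H : ∀ F : Multiset ℕ → ℝ≥0∞, (a ! : ℝ≥0∞) * T a (fun M => F (M.map (· / N))) ≤
      (∏ i ∈ Finset.range a, ((N : ℝ≥0∞) + i)) * (D^[a] F) 0 by
    intro F
    refine (H F).trans (mul_le_mul_left ?_ _)
    calc ∏ i ∈ Finset.range a, ((N : ℝ≥0∞) + i) ≤ ∏ i ∈ Finset.range a, ((N : ℝ≥0∞) + a) := by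
          refine Finset.prod_le_prod' fun i hi => ?_
          rw [Finset.mem_range] at hi
          gcongr
      _ = ((N : ℝ≥0∞) + a) ^ a := by simp
  induction a with
  | zero =>
    intro F
    rw [T_zero]
    simp
  | succ a ih =>
    intro F
    have h1 : T a (fun M => ∑' v : ℕ, ((M.count v + 1 : ℕ) : ℝ≥0∞) *
        F ((v ::ₘ M).map (· / N))) ≤ T a (fun M => ((N : ℝ≥0∞) + a) * (D F) (M.map (· / N))) := by
      refine T_le fun M hM => ?_
      have e1 : ∑' v : ℕ, ((M.count v + 1 : ℕ) : ℝ≥0∞) * F ((v ::ₘ M).map (· / N)) =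
          ∑' v : ℕ, F ((v / N) ::ₘ M.map (· / N)) +
            ∑' v : ℕ, ((M.count v : ℕ) : ℝ≥0∞) * F ((v / N) ::ₘ M.map (· / N)) := by
        rw [← ENNReal.tsum_add]
        refine tsum_congr fun v => ?_
        rw [Multiset.map_cons]
        push_cast
        ring
      rw [e1, tsum_div N hN (fun q => F (q ::ₘ M.map (· / N))), add_mul]
      refine add_le_add le_rfl ?_
      have e2 : ∀ v : ℕ, ((M.count v : ℕ) : ℝ≥0∞) * F ((v / N) ::ₘ M.map (· / N)) ≤
          ((M.count v : ℕ) : ℝ≥0∞) * D F (M.map (· / N)) := by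
        intro v
        refine mul_le_mul_right ?_ _
        unfold D
        exact ENNReal.le_tsum (v / N)
      refine (ENNReal.tsum_le_tsum e2).trans ?_
      rw [ENNReal.tsum_mul_right, tsum_count, hM]
    calc ((a + 1) ! : ℝ≥0∞) * T (a + 1) (fun M => F (M.map (· / N)))
        = (a ! : ℝ≥0∞) * (((a + 1 : ℕ) : ℝ≥0∞) * T (a + 1) (fun M => F (M.map (· / N)))) := by
          rw [Nat.factorial_succ]
          push_cast
          ring
      _ ≤ (a ! : ℝ≥0∞) * T a (fun M => ((N : ℝ≥0∞) + a) * (D F) (M.map (· / N))) := by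
          rw [T_succ]
          gcongr
      _ = ((N : ℝ≥0∞) + a) * ((a ! : ℝ≥0∞) * T a (fun M => (D F) (M.map (· / N)))) := by
          rw [T_const_mul]
          ring
      _ ≤ ((N : ℝ≥0∞) + a) * ((∏ i ∈ Finset.range a, ((N : ℝ≥0∞) + i)) * (D^[a] (D F)) 0) := by
          exact mul_le_mul_right (ih (D F)) _
      _ = (∏ i ∈ Finset.range (a + 1), ((N : ℝ≥0∞) + i)) * (D^[a + 1] F) 0 := by
          rw [Finset.prod_range_succ, Function.iterate_succ_apply]
          ring

theorem sup_mem {M : Multiset ℕ} (h : M ≠ 0) : M.sup ∈ M := by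
  induction M using Multiset.induction_on with
  | empty => exact absurd rfl h
  | cons a s ih =>
    rw [Multiset.sup_cons]
    by_cases hs : s = 0
    · subst hs
      simp
    · rcases le_total a s.sup with h1 | h1
      · rw [sup_eq_right.2 h1]
        exact Multiset.mem_cons_of_mem (ih hs)
      · rw [sup_eq_left.2 h1]
        exact Multiset.mem_cons_self _ _

/-- Summation over multisets by removing the largest element. -/
theorem T_max (a : ℕ) (F : Multiset ℕ → ℝ≥0∞) :
    T (a + 1) F = ∑' i : ℕ, T a (fun M => F ((M.sup + i) ::ₘ M)) := by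
  unfold T
  rw [← ENNReal.tsum_prod]
  have hinj : Function.Injective
      (fun x : {x : ℕ × Multiset ℕ // x.2.card = a} => (x.1.2.sup + x.1.1) ::ₘ x.1.2) := by
    rintro ⟨⟨i, M⟩, hM⟩ ⟨⟨j, M'⟩, hM'⟩ h
    simp only at h hM hM'
    have h1 : ((M.sup + i) ::ₘ M).sup = M.sup + i := by
      rw [Multiset.sup_cons, sup_eq_left]
      omega
    have h2 : ((M'.sup + j) ::ₘ M').sup = M'.sup + j := by
      rw [Multiset.sup_cons, sup_eq_left]
      omega
    have h3 : M.sup + i = M'.sup + j := by rw [← h1, ← h2, h]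
    rw [h3] at h
    have h4 : M = M' := (Multiset.cons_inj_right _).1 h
    subst h4
    have : i = j := by omega
    subst this
    rfl
  have e1 : ∑' M : Multiset ℕ, (if M.card = a + 1 then F M else 0) =
      ∑' x : {x : ℕ × Multiset ℕ // x.2.card = a}, F ((x.1.2.sup + x.1.1) ::ₘ x.1.2) := by
    rw [← hinj.tsum_eq (f := fun M : Multiset ℕ => if M.card = a + 1 then F M else 0)]
    · refine tsum_congr fun x => ?_
      rw [if_pos]
      rw [Multiset.card_cons, x.2]
    · intro M hM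
      rw [Function.mem_support] at hM
      have hc : M.card = a + 1 := by
        by_contra h
        exact hM (if_neg h)
      have hne : M ≠ 0 := by
        rintro rfl
        simp at hc
      have hs := sup_mem hne
      have h1 : (M.erase M.sup).sup ≤ M.sup := Multiset.sup_mono (Multiset.erase_subset _ _)
      refine ⟨⟨(M.sup - (M.erase M.sup).sup, M.erase M.sup), ?_⟩, ?_⟩
      · simp only
        rw [Multiset.card_erase_of_mem hs, hc]
        rfl
      · simp only
        rw [Nat.add_sub_cancel' h1, Multiset.cons_erase hs]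
  rw [e1]
  have hinj2 : Function.Injective
      (fun x : {x : ℕ × Multiset ℕ // x.2.card = a} => x.1) := Subtype.val_injective
  rw [← hinj2.tsum_eq (f := fun x : ℕ × Multiset ℕ =>
    if x.2.card = a then F ((x.2.sup + x.1) ::ₘ x.2) else 0)]
  · refine tsum_congr fun x => ?_
    rw [if_pos x.2]
  · intro x hx
    rw [Function.mem_support] at hx
    refine ⟨⟨x, ?_⟩, rfl⟩
    by_contra h
    exact hx (if_neg h)

end Pool.Agent.X272.StirComb
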