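import Pool.Agent.X272.StirK

/-!
# Generic linear forms

The extension of an ideal of `k[x]` to `K[x]`, where `K` is the field of rational functions in the
coefficients of countably many generic linear forms, has good words.
-/

set_option autoImplicit false

namespace Pool.Agent.X272.StirGen

open Pool.Agent.X272.LMKey Pool.Agent.X272.StirComb Pool.Agent.X272.StirWord
open scoped ENNReal Nat
open MvPolynomial

theorem length_semi {R S M N : Type*} [Ring R] [Ring S] [AddCommGroup M] [Module R M]
    [AddCommGroup N] [Module S N] (σ : R ≃+* S) (f : M ≃+ N)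
    (h : ∀ (r : R) (m : M), f (r • m) = σ r • f m) : Module.length R M = Module.length S N := by
  have : RingHomSurjective (σ : R →+* S) := ⟨σ.surjective⟩
  let g : M →ₛₗ[(σ : R →+* S)] N :=
    { toFun := f
      map_add' := f.map_add
      map_smul' := h }
  have hg : Function.Bijective g := f.bijective
  let e : Submodule R M ≃o Submodule S N := Submodule.orderIsoMapComapOfBijective g hg
  have h1 := Order.krullDim_eq_of_orderIso e
  rw [← Module.coe_length, ← Module.coe_length] at h1
  exact_mod_cast h1

theorem mem_map_equiv {A B : Type*} [CommRing A] [CommRing B] (e : A ≃+* B) (J : Ideal A) (x : A) :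
    e x ∈ J.map e ↔ x ∈ J := by
  constructor
  · intro h
    obtain ⟨y, hy, hxy⟩ := (Ideal.mem_map_of_equiv e _).1 h
    rwa [← e.injective hxy]
  · intro h
    exact Ideal.mem_map_of_mem _ h

theorem map_step {A B : Type*} [CommRing A] [CommRing B] (e : A ≃+* B) (Y : ℕ → A) (Z : ℕ → B)
    (J : Ideal A) (b : Bool) (s t : ℕ) (h : e (Y s) = Z t) :
    (step Y J (b, s)).map e = step Z (J.map e) (b, t) := by
  unfold step
  cases b with
  | false =>
    simp only [Bool.false_eq_true, if_false]
    rw [Ideal.map_sup, Ideal.map_span, Set.image_singleton, h]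
  | true =>
    simp only [if_true]
    ext x
    obtain ⟨x, rfl⟩ := e.surjective x
    rw [mem_map_equiv, mem_col, mem_col, ← h, ← map_mul, mem_map_equiv]

theorem map_app {A B : Type*} [CommRing A] [CommRing B] (e : A ≃+* B) (Y : ℕ → A) (Z : ℕ → B)
    (σ : ℕ → ℕ) (h : ∀ t, e (Y t) = Z (σ t)) (w : List (Bool × ℕ)) (J : Ideal A) :
    (app Y w J).map e = app Z (w.map (Prod.map id σ)) (J.map e) := by
  induction w generalizing J with
  | nil => rfl
  | cons x w ih =>
    rw [app_cons, List.map_cons, app_cons, ih]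
    congr 1
    obtain ⟨b, t⟩ := x
    exact map_step e Y Z J b t (σ t) (h t)

theorem exists_perm (l l' : List ℕ) (hl : l.Nodup) (hl' : l'.Nodup) (h : l.length = l'.length) :
    ∃ σ : Equiv.Perm ℕ, l.map σ = l' := by
  obtain ⟨σ, hσ⟩ := Equiv.Perm.exists_extending_pair (fun i : Fin l.length => l.get i)
    (fun i : Fin l.length => l'.get (Fin.cast h i)) (List.nodup_iff_injective_get.1 hl)
    (fun i j hij => Fin.cast_injective h (List.nodup_iff_injective_get.1 hl' hij))
  refine ⟨σ, ?_⟩
  refine List.ext_get (by rw [List.length_map, h]) fun i h1 h2 => ?_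
  rw [List.get_eq_getElem, List.getElem_map]
  exact hσ ⟨i, by rwa [h]⟩

variable (k : Type) [Field k] (n : ℕ)

/-- polynomials in the coefficients of the generic forms -/
abbrev S1 := MvPolynomial (ℕ × Fin n) k

/-- the field of rational functions -/
abbrev K1 := FractionRing (S1 k n)

/-- the `t`-th generic linear form over `S1` -/
noncomputable def YS (t : ℕ) : MvPolynomial (Fin n) (S1 k n) :=
  ∑ j : Fin n, C (X (t, j)) * X j

/-- the `t`-th generic linear form -/
noncomputable def YK (t : ℕ) : MvPolynomial (Fin n) (K1 k n) :=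
  ∑ j : Fin n, C (algebraMap (S1 k n) (K1 k n) (X (t, j))) * X j

/-- permutations act on `S1` -/
noncomputable def permS (σ : Equiv.Perm ℕ) : S1 k n ≃+* S1 k n :=
  (renameEquiv k (Equiv.prodCongr σ (Equiv.refl (Fin n)))).toRingEquiv

/-- permutations act on `K1` -/
noncomputable def permK (σ : Equiv.Perm ℕ) : K1 k n ≃+* K1 k n :=
  IsFractionRing.ringEquivOfRingEquiv (permS k n σ)

/-- permutations act on `K1[x]` -/
noncomputable def permA (σ : Equiv.Perm ℕ) :
    MvPolynomial (Fin n) (K1 k n) ≃+* MvPolynomial (Fin n) (K1 k n) :=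
  mapEquiv (Fin n) (permK k n σ)

theorem permS_X (σ : Equiv.Perm ℕ) (t : ℕ) (j : Fin n) :
    permS k n σ (X (t, j)) = X (σ t, j) := by
  change rename _ (X (t, j)) = _
  rw [rename_X]
  rfl

theorem permS_C (σ : Equiv.Perm ℕ) (a : k) : permS k n σ (C a) = C a := by
  change rename _ (C a) = _
  rw [rename_C]

theorem permK_map (σ : Equiv.Perm ℕ) (s : S1 k n) :
    permK k n σ (algebraMap (S1 k n) (K1 k n) s) = algebraMap (S1 k n) (K1 k n) (permS k n σ s) :=
  IsFractionRing.ringEquivOfRingEquiv_algebraMap _ _

theorem permA_C (σ : Equiv.Perm ℕ) (a : K1 k n) : permA k n σ (C a) = C (permK k n σ a) := by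
  change map _ (C a) = _
  rw [map_C]
  rfl

theorem permA_X (σ : Equiv.Perm ℕ) (j : Fin n) : permA k n σ (X j) = X j := by
  change map _ (X j) = _
  rw [map_X]

theorem permA_Y (σ : Equiv.Perm ℕ) (t : ℕ) : permA k n σ (YK k n t) = YK k n (σ t) := by
  unfold YK
  rw [map_sum]
  refine Finset.sum_congr rfl fun j _ => ?_
  rw [map_mul, permA_C, permA_X, permK_map, permS_X]

/-- the extension of an ideal of `k[x]` to `K1[x]` -/
noncomputable def extK (I : Ideal (MvPolynomial (Fin n) k)) :
    Ideal (MvPolynomial (Fin n) (K1 k n)) :=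
  I.map (map (algebraMap k (K1 k n)))

theorem permA_map (σ : Equiv.Perm ℕ) (f : MvPolynomial (Fin n) k) :
    permA k n σ (map (algebraMap k (K1 k n)) f) = map (algebraMap k (K1 k n)) f := by
  have h : ((permA k n σ).toRingHom.comp (map (algebraMap k (K1 k n)))) =
      map (algebraMap k (K1 k n)) := by
    refine MvPolynomial.ringHom_ext ?_ ?_
    · intro a
      rw [RingHom.comp_apply, map_C]
      change permA k n σ (C _) = _
      rw [permA_C, IsScalarTower.algebraMap_apply k (S1 k n) (K1 k n), permK_map]
      congr 2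
      exact permS_C k n σ a
    · intro j
      rw [RingHom.comp_apply, map_X]
      exact permA_X k n σ j
  exact RingHom.congr_fun h f

theorem permA_ext (σ : Equiv.Perm ℕ) (I : Ideal (MvPolynomial (Fin n) k)) :
    (extK k n I).map (permA k n σ) = extK k n I := by
  unfold extK
  change Ideal.map ((permA k n σ).toRingHom) _ = _
  rw [Ideal.map_map]
  exact congrArg (fun f => Ideal.map f I) (RingHom.ext fun f => permA_map k n σ f)

theorem kl_perm (σ : Equiv.Perm ℕ) (J : Ideal (MvPolynomial (Fin n) (K1 k n))) :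
    kl (K1 k n) (J.map (permA k n σ)) = kl (K1 k n) J := by
  unfold kl
  congr 1
  symm
  have h : Ideal.map (permA k n σ) J = Ideal.map (permA k n σ : _ →+* _) J := rfl
  let e := Ideal.quotientEquiv J (J.map (permA k n σ)) (permA k n σ) h
  have he : ∀ m, e (Ideal.Quotient.mk J m) =
    Ideal.Quotient.mk (J.map (permA k n σ)) (permA k n σ m) := fun m => rfl
  refine length_semi (permK k n σ) e.toAddEquiv ?_
  intro r m
  obtain ⟨m, rfl⟩ := Ideal.Quotient.mk_surjective m
  change e (Ideal.Quotient.mk J (r • m)) = permK k n σ r • e (Ideal.Quotient.mk J m)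
  rw [he, he, MvPolynomial.smul_eq_C_mul, map_mul, permA_C, ← MvPolynomial.smul_eq_C_mul]
  rfl

theorem good_ext (I : Ideal (MvPolynomial (Fin n) k)) :
    Good (YK k n) (K1 k n) (extK k n I) := by
  intro w w' hw h h'
  obtain ⟨σ, hσ⟩ := exists_perm _ _ h h' (by
    rw [List.length_map, List.length_map]
    have := congrArg List.length hw
    rwa [List.length_map, List.length_map] at this)
  have h1 := map_app (permA k n σ) (YK k n) (YK k n) σ (permA_Y k n σ) w (extK k n I)
  have h2 : w.map (Prod.map id σ) = w' := by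
    have e1 : (w.map (Prod.map id σ)).map Prod.fst = w'.map Prod.fst := by
      rw [← hw, List.map_map]
      rfl
    have e2 : (w.map (Prod.map id σ)).map Prod.snd = w'.map Prod.snd := by
      rw [← hσ, List.map_map, List.map_map]
      rfl
    have e3 : ∀ l : List (Bool × ℕ), l = (l.map Prod.fst).zip (l.map Prod.snd) := by
      intro l
      rw [List.zip_map', List.map_id']
    rw [e3 (w.map (Prod.map id σ)), e1, e2, ← e3]
  rw [permA_ext, h2] at h1
  rw [← h1, kl_perm]

theorem extK_pow (I : Ideal (MvPolynomial (Fin n) k)) (m : ℕ) :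
    extK k n I ^ m = extK k n (I ^ m) := by
  unfold extK
  rw [Ideal.map_pow]

/-- `n` linear forms with nonzero determinant generate the maximal ideal of the origin -/
theorem X_mem_span {F : Type*} [Field F] (c : Matrix (Fin n) (Fin n) F) (hc : c.det ≠ 0)
    (I : Ideal (MvPolynomial (Fin n) F))
    (h : ∀ i, ∑ j : Fin n, C (c i j) * X j ∈ I) (j : Fin n) :
    (X j : MvPolynomial (Fin n) F) ∈ I := by
  have h1 : ∑ i : Fin n, C (c⁻¹ j i) * ∑ j : Fin n, C (c i j) * X j =
      (X j : MvPolynomial (Fin n) F) := by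
    simp only [Finset.mul_sum]
    rw [Finset.sum_comm]
    have e : ∀ y : Fin n, ∑ x : Fin n, C (c⁻¹ j x) * (C (c x y) * X y) =
        C ((c⁻¹ * c) j y) * (X y : MvPolynomial (Fin n) F) := by
      intro y
      rw [Matrix.mul_apply, map_sum, Finset.sum_mul]
      refine Finset.sum_congr rfl fun x _ => ?_
      rw [map_mul, mul_assoc]
    rw [Finset.sum_congr rfl fun y _ => e y, Matrix.nonsing_inv_mul _ (Ne.isUnit hc)]
    rw [Finset.sum_eq_single j]
    · rw [Matrix.one_apply_eq, map_one, one_mul]
    · intro b _ hb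
      rw [Matrix.one_apply_ne' hb, map_zero, zero_mul]
    · intro hj
      exact absurd (Finset.mem_univ j) hj
  rw [← h1]
  exact Ideal.sum_mem _ fun i _ => Ideal.mul_mem_left _ _ (h i)

theorem kl_le_one {F : Type*} [Field F] (I : Ideal (MvPolynomial (Fin n) F))
    (h : ∀ j : Fin n, (X j : MvPolynomial (Fin n) F) ∈ I) : kl F I ≤ 1 := by
  have h1 : Ideal.span (Set.range (X : Fin n → MvPolynomial (Fin n) F)) ≤ I := by
    rw [Ideal.span_le]
    rintro _ ⟨j, rfl⟩
    exact h j
  refine (kl_mono F h1).trans ?_
  unfold kl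
  rw [← ENat.toENNReal_one, ENat.toENNReal_le]
  have h2 : Module.length F F = 1 := by
    rw [Module.length_eq_finrank, Module.finrank_self]
    rfl
  rw [← h2]
  let f : F →ₗ[F] (MvPolynomial (Fin n) F ⧸
    Ideal.span (Set.range (X : Fin n → MvPolynomial (Fin n) F))) :=
    (Algebra.linearMap F _)
  refine Module.length_le_of_surjective f ?_
  intro q
  obtain ⟨q, rfl⟩ := Ideal.Quotient.mk_surjective q
  refine ⟨constantCoeff q, ?_⟩
  change Ideal.Quotient.mk _ (C (constantCoeff q)) = _
  rw [Ideal.Quotient.eq]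
  induction q using MvPolynomial.induction_on with
  | C a => simp
  | add p q hp hq =>
    have := Ideal.add_mem _ hp hq
    rw [map_add, map_add]
    convert this using 1
    ring
  | mul_X p j hp =>
    rw [map_mul, constantCoeff_X, mul_zero, map_zero, zero_sub]
    exact neg_mem (Ideal.mul_mem_left _ _ (Ideal.subset_span ⟨j, rfl⟩))

theorem kl_YK (S : Finset ℕ) (hS : S.card = n) :
    kl (K1 k n) (Ideal.span (YK k n '' S)) ≤ 1 := by
  apply kl_le_one
  intro j
  let f : Fin n ≃ S := (S.equivFinOfCardEq hS).symm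
  let M : Matrix (Fin n) (Fin n) (K1 k n) := fun i j =>
    algebraMap (S1 k n) (K1 k n) (X ((f i : ℕ), j))
  have hM : M.det ≠ 0 := by
    have e1 : M = ((algebraMap (S1 k n) (K1 k n)).comp
        (rename (R := k) (Prod.map (fun i : Fin n => (f i : ℕ)) (id : Fin n → Fin n))).toRingHom).mapMatrix
        (Matrix.mvPolynomialX (Fin n) (Fin n) k) := by
      ext i j
      simp only [RingHom.mapMatrix_apply, Matrix.map_apply, Matrix.mvPolynomialX_apply]
      rw [RingHom.comp_apply]
      change _ = algebraMap (S1 k n) (K1 k n) (rename _ (X (i, j)))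
      rw [rename_X]
      rfl
    rw [e1, ← RingHom.map_det, RingHom.comp_apply]
    intro h0
    have h1 := (IsFractionRing.injective (S1 k n) (K1 k n)) (h0.trans (map_zero _).symm)
    have h2 : Function.Injective (Prod.map (fun i : Fin n => (f i : ℕ)) (id : Fin n → Fin n)) :=
      Function.Injective.prodMap (fun a b hab => f.injective (Subtype.ext hab))
        Function.injective_id
    have h3 := rename_injective (R := k) _ h2 (h1.trans (map_zero _).symm)
    exact Matrix.det_mvPolynomialX_ne_zero (Fin n) k h3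
  refine X_mem_span n M hM _ ?_ j
  intro i
  exact Ideal.subset_span ⟨(f i : ℕ), (f i).2, rfl⟩

end Pool.Agent.X272.StirGen
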