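import Pool.Agent.X272.StirWord

/-!
# The Stirling inequality for ideals with good words
-/

set_option autoImplicit false

namespace Pool.Agent.X272.StirK

open Pool.Agent.X272.LMKey Pool.Agent.X272.StirComb Pool.Agent.X272.StirWord
open scoped ENNReal Nat
open Polynomial

/-- decreasing list of the elements of a multiset -/
def srt (M : Multiset ℕ) : List ℕ := M.sort (· ≥ ·)

theorem srt_coe (l : List ℕ) (hl : l.Pairwise (· ≥ ·)) : srt (l : Multiset ℕ) = l := by
  have h1 : (srt (l : Multiset ℕ)).Pairwise (· ≥ ·) := Multiset.pairwise_sort _ _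
  have h2 : ((srt (l : Multiset ℕ) : List ℕ) : Multiset ℕ) = l := Multiset.sort_eq _ _
  exact (Multiset.coe_eq_coe.1 h2).eq_of_pairwise' h1 hl

theorem coe_srt (M : Multiset ℕ) : (srt M : Multiset ℕ) = M := Multiset.sort_eq _ _

theorem pairwise_srt (M : Multiset ℕ) : (srt M).Pairwise (· ≥ ·) := Multiset.pairwise_sort _ _

theorem length_srt (M : Multiset ℕ) : (srt M).length = M.card := Multiset.length_sort _

theorem srt_sup_cons (M : Multiset ℕ) (i : ℕ) :
    srt ((M.sup + i) ::ₘ M) = (M.sup + i) :: srt M := by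
  refine Multiset.sort_cons _ _ _ fun b hb => ?_
  have := Multiset.le_sup hb
  simp only [ge_iff_le]
  omega

theorem headD_srt (M : Multiset ℕ) : (srt M).headD 0 = M.sup := by
  have h1 := coe_srt M
  have h2 := pairwise_srt M
  cases h : srt M with
  | nil =>
    rw [h] at h1
    rw [← h1]
    rfl
  | cons a l =>
    rw [h] at h1 h2
    rw [← h1, List.headD_cons, ← Multiset.cons_coe, Multiset.sup_cons]
    symm
    rw [sup_eq_left]
    refine Multiset.sup_le.2 fun b hb => ?_
    exact (List.pairwise_cons.1 h2).1 b hb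

theorem srt_map (M : Multiset ℕ) (f : ℕ → ℕ) (hf : Monotone f) :
    srt (M.map f) = (srt M).map f := by
  conv_lhs => rw [← coe_srt M, Multiset.map_coe]
  refine srt_coe _ ?_
  rw [List.pairwise_map]
  exact (pairwise_srt M).imp fun h => hf h

theorem srt_cons (M : Multiset ℕ) (v : ℕ) :
    srt (v ::ₘ M) = (srt M).orderedInsert (· ≥ ·) v := by
  have h1 : (((srt M).orderedInsert (· ≥ ·) v : List ℕ) : Multiset ℕ) = v ::ₘ M := by
    rw [Multiset.coe_eq_coe.2 (List.perm_orderedInsert _ _ _), ← Multiset.cons_coe, coe_srt]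
  rw [← h1]
  exact srt_coe _ ((pairwise_srt M).orderedInsert _ _)

theorem forall2_insert (l : List ℕ) : ∀ h v : ℕ, v ≤ h → (h :: l).Pairwise (· ≥ ·) →
    List.Forall₂ (· ≤ ·) (l.orderedInsert (· ≥ ·) v) (h :: l) := by
  induction l with
  | nil =>
    intro h v hv _
    rw [List.orderedInsert_nil]
    exact List.Forall₂.cons hv List.Forall₂.nil
  | cons b s ih =>
    intro h v hv hp
    rw [List.pairwise_cons] at hp
    by_cases hb : v ≥ b
    · rw [List.orderedInsert_cons_of_le _ _ hb]
      exact List.Forall₂.cons hv (List.forall₂_refl _)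
    · rw [List.orderedInsert_cons, if_neg hb]
      refine List.Forall₂.cons (hp.1 b (by simp)) ?_
      exact ih b v (by omega) hp.2

section Words

variable {A : Type*} [CommRing A] {Y : ℕ → A} {𝕜 : Type*} [CommRing 𝕜] [Algebra 𝕜 A]

theorem zipIdx_replicate_true (i a : ℕ) :
    (List.replicate i true).zipIdx a = (List.range' a i).map (fun t => (true, t)) := by
  induction i generalizing a with
  | zero => rfl
  | succ i ih => rw [List.replicate_succ, List.zipIdx_cons, ih, List.range'_succ, List.map_cons]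

theorem prod_mem_pow {m : Ideal A} (hY : ∀ t, Y t ∈ m) (S : List ℕ) :
    (S.map Y).prod ∈ m ^ S.length := by
  induction S with
  | nil => simp
  | cons t S ih =>
    rw [List.map_cons, List.prod_cons, List.length_cons, pow_succ']
    exact Ideal.mul_mem_mul (hY t) ih

theorem L_replicate {m : Ideal A} (hY : ∀ t, Y t ∈ m) {J : Ideal A} {r : ℕ} (hJ : m ^ r ≤ J)
    (w : List Bool) : L Y 𝕜 J (w ++ List.replicate r true) = 0 := by
  unfold L
  rw [List.zipIdx_append, app_append, zipIdx_replicate_true]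
  have : app Y ((List.range' (0 + w.length) r).map (fun t => (true, t))) (app Y w.zipIdx J) = ⊤ := by
    rw [Ideal.eq_top_iff_one, mem_app_colon, mul_one]
    refine le_app Y _ J (hJ ?_)
    have := prod_mem_pow hY (List.range' (0 + w.length) r)
    rwa [List.length_range'] at this
  rw [this, kl_top]

theorem L_partial (J : Ideal A) (w : List Bool) (s : ℕ) :
    L Y 𝕜 J w = ∑ i ∈ Finset.range s, L Y 𝕜 J (w ++ (List.replicate i true ++ [false])) +
      L Y 𝕜 J (w ++ List.replicate s true) := by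
  induction s with
  | zero => simp
  | succ s ih =>
    rw [Finset.sum_range_succ, ih, L_split J (w ++ List.replicate s true), add_assoc]
    congr 2
    · rw [List.append_assoc]
    · rw [List.append_assoc, List.replicate_succ']

theorem L_tsum {m : Ideal A} (hY : ∀ t, Y t ∈ m) {J : Ideal A} {r : ℕ} (hJ : m ^ r ≤ J)
    (w : List Bool) :
    L Y 𝕜 J w = ∑' i : ℕ, L Y 𝕜 J (w ++ (List.replicate i true ++ [false])) := by
  rw [L_partial J w r, L_replicate hY hJ, add_zero, tsum_eq_sum]
  intro i hi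
  rw [Finset.mem_range, not_lt] at hi
  obtain ⟨d, rfl⟩ := Nat.exists_eq_add_of_le hi
  apply le_antisymm _ bot_le
  rw [List.replicate_add, ← List.append_assoc, ← List.append_assoc]
  refine (L_le_append _ _).trans ?_
  refine (L_le_append _ _).trans ?_
  rw [L_replicate hY hJ]
  exact le_rfl

theorem T_word {m : Ideal A} (hY : ∀ t, Y t ∈ m) {J : Ideal A} {r : ℕ} (hJ : m ^ r ≤ J)
    (j : ℕ) : ∀ w : List Bool, T j (fun M => L Y 𝕜 J (w ++ wd (srt M))) = L Y 𝕜 J w := by
  induction j with
  | zero =>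
    intro w
    rw [T_zero, srt, Multiset.sort_zero]
    simp [wd, exps, blk]
  | succ j ih =>
    intro w
    rw [T_max, L_tsum hY hJ w]
    refine tsum_congr fun i => ?_
    rw [← ih (w ++ (List.replicate i true ++ [false]))]
    refine T_congr fun M _ => ?_
    rw [srt_sup_cons, wd_cons, headD_srt, Nat.add_sub_cancel_left]
    congr 1
    simp

/-- the function on multisets attached to an ideal -/
noncomputable def Fn (Y : ℕ → A) (𝕜 : Type*) [CommRing 𝕜] [Algebra 𝕜 A] (n : ℕ) (J : Ideal A)
    (M : Multiset ℕ) : ℝ≥0∞ :=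
  L Y 𝕜 J (List.replicate (n - M.card) false ++ wd (srt M))

theorem Fn_dom (n : ℕ) {J : Ideal A} (h : Good Y 𝕜 J) (M : Multiset ℕ) (v : ℕ)
    (hM : M.card < n) (hv : v ∈ M) : Fn Y 𝕜 n J M ≤ Fn Y 𝕜 n J (v ::ₘ M) := by
  unfold Fn
  have e1 : List.replicate (n - M.card) false ++ wd (srt M) =
      List.replicate (n - (v ::ₘ M).card) false ++ wd ((srt M).headD 0 :: srt M) := by
    rw [wd_cons, Nat.sub_self, Multiset.card_cons,
      show n - M.card = (n - (M.card + 1)) + 1 by omega, List.replicate_succ']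
    simp
  have hp : ((srt M).headD 0 :: srt M).Pairwise (· ≥ ·) := by
    rw [List.pairwise_cons]
    refine ⟨fun b hb => ?_, pairwise_srt M⟩
    rw [headD_srt]
    apply Multiset.le_sup
    rwa [← coe_srt M]
  rw [e1]
  refine Mon h _ (srt (v ::ₘ M)) _ rfl (pairwise_srt _) hp ?_ _
  rw [srt_cons]
  refine forall2_insert _ _ _ ?_ hp
  rw [headD_srt]
  exact Multiset.le_sup hv

theorem hermite (N : ℕ) (hN : 1 ≤ N) (z : ℕ) : ∑ i ∈ Finset.range N, (z + i) / N = z := by
  induction z with
  | zero =>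
    refine Finset.sum_eq_zero fun i hi => ?_
    rw [Finset.mem_range] at hi
    rw [Nat.zero_add]
    exact Nat.div_eq_of_lt hi
  | succ z ih =>
    have h1 : ∑ i ∈ Finset.range (N + 1), (z + i) / N =
        ∑ i ∈ Finset.range N, (z + (i + 1)) / N + (z + 0) / N := Finset.sum_range_succ' _ _
    rw [Finset.sum_range_succ, ih] at h1
    have h2 : (z + N) / N = z / N + 1 := by
      rw [Nat.add_div_right _ (by omega)]
    have h3 : ∑ i ∈ Finset.range N, (z + 1 + i) / N = ∑ i ∈ Finset.range N, (z + (i + 1)) / N := by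
      refine Finset.sum_congr rfl fun i _ => ?_
      congr 1
      ring
    have h4 : (z + 0) / N = z / N := rfl
    rw [h3]
    omega

theorem blk_eq (m : ℕ) (l : List ℕ) :
    List.replicate m false ++ wd l = blk (List.replicate m 0 ++ exps l) := by
  rw [blk_append, blk_replicate_zero, wd]

theorem exps_zero (l : List ℕ) : exps (l.map fun _ => 0) = List.replicate l.length 0 := by
  induction l with
  | nil => rfl
  | cons z l ih => rw [List.map_cons, exps, ih, List.length_cons, List.replicate_succ, Nat.zero_sub]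

theorem floor_aux {J : Ideal A} (hG : ∀ m, Good Y 𝕜 (J ^ m)) (N : ℕ) (p : ℕ) (l : List ℕ)
    (hl : l.Pairwise (· ≥ ·))
    (h0 : L Y 𝕜 J (List.replicate p false ++ wd (l.map (· / N))) = 0) (m : ℕ) :
    L Y 𝕜 (J ^ m) (List.replicate p false ++
      wd (l.map (fun z => ∑ i ∈ Finset.range m, (z + i) / N))) = 0 := by
  have hG1 : Good Y 𝕜 J := by
    have := hG 1
    rwa [pow_one] at this
  have hmono : ∀ i : ℕ, Monotone (fun z : ℕ => (z + i) / N) := by
    intro i a b hab
    exact Nat.div_le_div_right (by omega)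
  have hmono2 : ∀ m : ℕ, Monotone (fun z : ℕ => ∑ i ∈ Finset.range m, (z + i) / N) := by
    intro m a b hab
    exact Finset.sum_le_sum fun i _ => hmono i hab
  induction m with
  | zero =>
    unfold L
    rw [pow_zero, Ideal.one_eq_top, app_top, kl_top]
  | succ m ih =>
    have h1 : L Y 𝕜 J (List.replicate p false ++ wd (l.map (fun z => (z + m) / N))) = 0 := by
      apply le_antisymm _ bot_le
      refine le_trans ?_ (le_of_eq h0)
      refine Mon hG1 _ (l.map (· / N)) _ rfl ?_ ?_ ?_ _
      · rw [List.pairwise_map]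
        exact hl.imp fun h => Nat.div_le_div_right h
      · rw [List.pairwise_map]
        exact hl.imp fun h => hmono m h
      · rw [List.forall₂_map_left_iff, List.forall₂_map_right_iff]
        exact List.forall₂_same.2 fun z _ => Nat.div_le_div_right (by omega)
    rw [blk_eq] at ih h1
    have h2 := P2 (hG m) hG1 (by rw [← pow_succ]; exact hG (m + 1))
      (List.replicate p 0 ++ exps (l.map (fun z => ∑ i ∈ Finset.range m, (z + i) / N)))
      (List.replicate p 0 ++ exps (l.map (fun z => (z + m) / N)))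
      (by simp [length_exps]) ih h1
    rw [← pow_succ, List.zipWith_append (by simp), exps_add _ _ (hmono2 m) (hmono m) l hl] at h2
    rw [blk_eq]
    simp only [Finset.sum_range_succ]
    simpa using h2

theorem floor {J : Ideal A} (hG : ∀ m, Good Y 𝕜 (J ^ m)) (N : ℕ) (hN : 1 ≤ N) (p : ℕ)
    (M : Multiset ℕ)
    (h0 : L Y 𝕜 J (List.replicate p false ++ wd (srt (M.map (· / N)))) = 0) :
    L Y 𝕜 (J ^ N) (List.replicate p false ++ wd (srt M)) = 0 := by
  rw [srt_map M (· / N) (fun a b h => Nat.div_le_div_right h)] at h0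
  have := floor_aux hG N p (srt M) (pairwise_srt M) h0 N
  have e : (srt M).map (fun z => ∑ i ∈ Finset.range N, (z + i) / N) = srt M := by
    conv_rhs => rw [← List.map_id (srt M)]
    refine List.map_congr_left fun z _ => ?_
    rw [hermite N hN]
    rfl
  rwa [e] at this

theorem mem_app_false (w : List (Bool × ℕ)) (J : Ideal A) (t : ℕ) (h : (false, t) ∈ w) :
    Y t ∈ app Y w J := by
  induction w generalizing J with
  | nil => simp at h
  | cons x w ih =>
    rw [app_cons]
    rw [List.mem_cons] at h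
    rcases h with h | h
    · subst h
      refine le_app Y _ _ ?_
      simp only [step, Bool.false_eq_true, if_false]
      exact Ideal.mem_sup_right (Ideal.mem_span_singleton_self _)
    · exact ih _ h

theorem L_le_one {n : ℕ} (hB : ∀ S : Finset ℕ, S.card = n → kl 𝕜 (Ideal.span (Y '' S)) ≤ 1)
    (J : Ideal A) (w : List Bool) (hw : w.count false = n) : L Y 𝕜 J w ≤ 1 := by
  classical
  set l := ((w.zipIdx).filter (fun x => x.1 = false)).map Prod.snd with hl
  have hnd : l.Nodup := by
    refine List.Sublist.nodup ?_ (nodup_zipIdx w 0)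
    exact List.Sublist.map _ List.filter_sublist
  have hlen : l.length = n := by
    rw [hl, List.length_map, ← List.countP_eq_length_filter, ← hw, List.count]
    conv_rhs => rw [← List.zipIdx_map_fst 0 w, List.countP_map]
    congr 1
  have h1 := hB l.toFinset (by rw [List.toFinset_card_of_nodup hnd, hlen])
  refine le_trans (kl_mono 𝕜 ?_) h1
  rw [Ideal.span_le]
  rintro _ ⟨t, ht, rfl⟩
  rw [Finset.mem_coe, List.mem_toFinset, hl, List.mem_map] at ht
  obtain ⟨⟨b, t'⟩, ht, rfl⟩ := ht
  rw [List.mem_filter] at ht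
  refine mem_app_false _ _ _ ?_
  have : b = false := by simpa using ht.2
  rw [← this]
  exact ht.1

theorem count_false (n : ℕ) (M : Multiset ℕ) (h : M.card ≤ n) :
    (List.replicate (n - M.card) false ++ wd (srt M)).count false = n := by
  rw [List.count_append, List.count_replicate_self, wd, count_false_blk, length_exps, length_srt]
  omega

theorem Fn_floor {n : ℕ} (hB : ∀ S : Finset ℕ, S.card = n → kl 𝕜 (Ideal.span (Y '' S)) ≤ 1)
    {J : Ideal A} (hG : ∀ m, Good Y 𝕜 (J ^ m)) (N : ℕ) (hN : 1 ≤ N) (M : Multiset ℕ)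
    (hM : M.card ≤ n) : Fn Y 𝕜 n (J ^ N) M ≤ Fn Y 𝕜 n J (M.map (· / N)) := by
  unfold Fn
  by_cases h0 : L Y 𝕜 J (List.replicate (n - M.card) false ++ wd (srt (M.map (· / N)))) = 0
  · rw [floor hG N hN _ M h0]
    exact bot_le
  · rw [Multiset.card_map]
    refine (L_le_one hB _ _ (count_false n M hM)).trans ?_
    exact one_le_kl h0

/-- the invariants -/
noncomputable def tau (Y : ℕ → A) (𝕜 : Type*) [CommRing 𝕜] [Algebra 𝕜 A] (n : ℕ) (J : Ideal A)
    (j : ℕ) : ℝ≥0∞ := (D^[j] (Fn Y 𝕜 n J)) 0

theorem tau_lower {m : Ideal A} (hY : ∀ t, Y t ∈ m) {n : ℕ} {J : Ideal A} (hG : Good Y 𝕜 J)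
    {r : ℕ} (hJ : m ^ r ≤ J) :
    ev (ascPochhammer ℕ n) (tau Y 𝕜 n J) ≤ (n ! : ℝ≥0∞) * kl 𝕜 J := by
  have h1 := lower n (Fn Y 𝕜 n J) (fun M v hM hv => Fn_dom n hG M v hM hv) n 0 (by omega)
  simp only [Nat.zero_add] at h1
  refine h1.trans (le_of_eq ?_)
  congr 1
  rw [Function.iterate_zero, id]
  have h2 := T_word (𝕜 := 𝕜) hY hJ n []
  rw [show L Y 𝕜 J [] = kl 𝕜 J from rfl] at h2
  rw [← h2]
  refine T_congr fun M hM => ?_
  rw [Fn, hM, Nat.sub_self]
  rfl

theorem tau_upper {m : Ideal A} (hY : ∀ t, Y t ∈ m) {n : ℕ}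
    (hB : ∀ S : Finset ℕ, S.card = n → kl 𝕜 (Ideal.span (Y '' S)) ≤ 1)
    {J : Ideal A} (hG : ∀ m, Good Y 𝕜 (J ^ m)) {r : ℕ} (hJ : m ^ r ≤ J) (N : ℕ) (hN : 1 ≤ N)
    (j : ℕ) (hj : j ≤ n) :
    (j ! : ℝ≥0∞) * L Y 𝕜 (J ^ N) (List.replicate (n - j) false) ≤
      ((N : ℝ≥0∞) + j) ^ j * tau Y 𝕜 n J j := by
  have hJN : m ^ (r * N) ≤ J ^ N := by
    rw [pow_mul]
    exact Ideal.pow_right_mono hJ N
  rw [← T_word hY hJN j (List.replicate (n - j) false)]
  refine le_trans ?_ (upper N hN j (Fn Y 𝕜 n J))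
  refine mul_le_mul_right ?_ _
  refine T_le fun M hM => ?_
  have := Fn_floor hB hG N hN M (hM.le.trans hj)
  rwa [Fn, hM] at this

theorem tau_one {m : Ideal A} (hm : m ≠ ⊤) (hY : ∀ t, Y t ∈ m) {n : ℕ}
    {J : Ideal A} (hJm : J ≤ m) (hn : 1 ≤ n) : 1 ≤ tau Y 𝕜 n J 1 := by
  unfold tau
  rw [Function.iterate_one, D]
  refine le_trans ?_ (ENNReal.le_tsum 0)
  unfold Fn
  apply one_le_kl
  intro h0
  have h1 := eq_top_of_kl h0
  apply hm
  rw [← top_le_iff, ← h1]
  have e : List.replicate (n - (0 ::ₘ (0 : Multiset ℕ)).card) false ++ wd (srt (0 ::ₘ 0)) =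
      List.replicate n false := by
    rw [srt_cons, srt, Multiset.sort_zero, List.orderedInsert_nil, Multiset.card_cons,
      Multiset.card_zero, wd_cons]
    simp only [List.headD_nil, Nat.sub_self, List.replicate_zero, List.nil_append]
    rw [show wd [] = [] from rfl, ← List.replicate_succ']
    congr 1
    omega
  rw [e]
  have key : ∀ (p a : ℕ) (I : Ideal A), I ≤ m → app Y ((List.replicate p false).zipIdx a) I ≤ m := by
    intro p
    induction p with
    | zero => intro a I hI; exact hI
    | succ p ih =>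
      intro a I hI
      rw [List.replicate_succ, List.zipIdx_cons, app_cons]
      refine ih _ _ ?_
      simp only [step, Bool.false_eq_true, if_false]
      refine sup_le hI ?_
      rw [Ideal.span_singleton_le_iff_mem]
      exact hY _
  exact key n 0 J hJm

end Words

end Pool.Agent.X272.StirK
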