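import Pool.Agent.X272.StirTrans

/-!
# A Lech type inequality, and comparison of colengths
-/

set_option autoImplicit false

namespace Pool.Agent.X272.StirLech

open Pool.Agent.X272.LMKey Pool.Agent.X272.LMUpper Pool.Agent.X272.StirComb
open Pool.Agent.X272.StirWord Pool.Agent.X272.StirGen Pool.Agent.X272.StirTrans
open scoped ENNReal

section LL

variable {A : Type*} [CommRing A] (𝕜 : Type*) [CommRing 𝕜] [Algebra 𝕜 A]

/-- the colon ideal by a power of `t` -/
def colq (t : A) (q : ℕ) (J : Ideal A) : Ideal A := col J (t ^ q)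

theorem mem_colq {t : A} {q : ℕ} {J : Ideal A} {x : A} : x ∈ colq t q J ↔ t ^ q * x ∈ J :=
  mem_col

theorem colq_zero (t : A) (J : Ideal A) : colq t 0 J = J := by
  ext x
  rw [mem_colq, pow_zero, one_mul]

theorem colq_succ (t : A) (q : ℕ) (J : Ideal A) : col (colq t q J) t = colq t (q + 1) J := by
  ext x
  rw [mem_col, mem_colq, mem_colq, pow_succ, mul_assoc]

theorem slice_partial (t : A) (J : Ideal A) (s : ℕ) :
    kl 𝕜 J = ∑ q ∈ Finset.range s, kl 𝕜 (colq t q J ⊔ Ideal.span {t}) + kl 𝕜 (colq t s J) := by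
  induction s with
  | zero => simp [colq_zero]
  | succ s ih => rw [Finset.sum_range_succ, ih, kl_eq 𝕜 (colq t s J) t, colq_succ, add_assoc]

theorem colq_top {t : A} {J : Ideal A} {r q : ℕ} (h : t ^ r ∈ J) (hq : r ≤ q) :
    colq t q J = ⊤ := by
  rw [Ideal.eq_top_iff_one, mem_colq, mul_one]
  obtain ⟨d, rfl⟩ := Nat.exists_eq_add_of_le hq
  rw [pow_add]
  exact Ideal.mul_mem_right _ _ h

theorem slice {t : A} {J : Ideal A} {r : ℕ} (h : t ^ r ∈ J) :
    kl 𝕜 J = ∑' q : ℕ, kl 𝕜 (colq t q J ⊔ Ideal.span {t}) := by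
  rw [slice_partial 𝕜 t J r, colq_top h le_rfl, kl_top, add_zero, tsum_eq_sum]
  intro q hq
  rw [Finset.mem_range, not_lt] at hq
  rw [colq_top h hq, top_sup_eq, kl_top]

theorem sup_pow_le (I T : Ideal A) (m : ℕ) : (I ⊔ T) ^ m ≤ I ^ m ⊔ T := by
  induction m with
  | zero => simp
  | succ m ih =>
    rw [pow_succ, pow_succ]
    refine (Ideal.mul_mono_left ih).trans ?_
    exact sup_mul_sup_le _ _ _

theorem colq_pow_le (t : A) (v : ℕ) (J : Ideal A) (m : ℕ) :
    (colq t v J) ^ m ≤ colq t (v * m) (J ^ m) := by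
  induction m with
  | zero =>
    rw [pow_zero, mul_zero, colq_zero, pow_zero]
  | succ m ih =>
    rw [pow_succ]
    refine (Ideal.mul_mono_left ih).trans ?_
    rw [Ideal.mul_le]
    intro x hx y hy
    rw [mem_colq] at hx hy ⊢
    have := Ideal.mul_mem_mul hx hy
    rw [← pow_succ] at this
    have e : t ^ (v * (m + 1)) * (x * y) = t ^ (v * m) * x * (t ^ v * y) := by ring
    rw [e]
    exact this

theorem LL (ts : List A) (m : ℕ) (hm : 1 ≤ m) : ∀ (q J : Ideal A) (r : ℕ), q ≤ J →
    (∀ t ∈ ts, t ^ r ∈ J) → kl 𝕜 (q ⊔ Ideal.span {x | x ∈ ts}) ≤ 1 →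
    kl 𝕜 (J ^ m ⊔ q) ≤ (m : ℝ≥0∞) ^ ts.length * kl 𝕜 J := by
  induction ts with
  | nil =>
    intro q J r hq _ h1
    rw [List.length_nil, pow_zero, one_mul]
    by_cases h0 : kl 𝕜 J = 0
    · have := eq_top_of_kl h0
      rw [this, Ideal.top_pow, top_sup_eq]
    · refine le_trans ?_ (one_le_kl h0)
      refine le_trans (kl_mono 𝕜 ?_) h1
      have : Ideal.span {x : A | x ∈ ([] : List A)} = ⊥ := by simp
      rw [this, sup_bot_eq]
      exact le_sup_right
  | cons t ts ih =>
    intro q J r hq hr h1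
    have ht : t ^ r ∈ J := hr t (by simp)
    have htm : t ^ (r * m) ∈ J ^ m ⊔ q := by
      rw [pow_mul]
      exact Ideal.mem_sup_left (Ideal.pow_mem_pow ht m)
    rw [slice 𝕜 htm, slice 𝕜 ht, List.length_cons, pow_succ, mul_assoc,
      ← tsum_div m hm (fun v => kl 𝕜 (colq t v J ⊔ Ideal.span {t})), ← ENNReal.tsum_mul_left]
    refine ENNReal.tsum_le_tsum fun a => ?_
    have hle : J ≤ colq t (a / m) J ⊔ Ideal.span {t} := by
      refine le_trans ?_ le_sup_left
      intro x hx
      rw [mem_colq]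
      exact Ideal.mul_mem_left _ _ hx
    refine le_trans (kl_mono 𝕜 ?_) (ih (q ⊔ Ideal.span {t}) (colq t (a / m) J ⊔ Ideal.span {t}) r
      (sup_le (hq.trans hle) le_sup_right) (fun x hx => hle (hr x (List.mem_cons_of_mem _ hx))) ?_)
    · refine sup_le ?_ (sup_le ?_ le_sup_right)
      · refine (sup_pow_le _ _ _).trans (sup_le_sup_right ?_ _)
        refine (colq_pow_le _ _ _ _).trans ?_
        intro x hx
        rw [mem_colq] at hx ⊢
        have hma : a / m * m ≤ a := Nat.div_mul_le_self a m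
        obtain ⟨d, hd⟩ := Nat.exists_eq_add_of_le hma
        have e : t ^ a * x = t ^ d * (t ^ (a / m * m) * x) := by
          conv_lhs => rw [hd]
          ring
        rw [e]
        exact Ideal.mul_mem_left _ _ (Ideal.mem_sup_left hx)
      · refine le_trans ?_ le_sup_left
        intro x hx
        rw [mem_colq]
        exact Ideal.mul_mem_left _ _ (Ideal.mem_sup_right hx)
    · refine le_trans (kl_mono 𝕜 ?_) h1
      rw [sup_assoc]
      refine sup_le_sup_left ?_ _
      rw [Ideal.span_le]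
      intro x hx
      have hx' : x ∈ t :: ts := hx
      rw [List.mem_cons] at hx'
      rcases hx' with rfl | hx'
      · exact Ideal.mem_sup_left (Ideal.mem_span_singleton_self _)
      · exact Ideal.mem_sup_right (Ideal.subset_span hx')

end LL

open MvPolynomial

theorem kl_ne_top {F : Type*} [Field F] {n : ℕ} (b : Ideal (MvPolynomial (Fin n) F)) (s : ℕ)
    (h : ∀ j, (X j : MvPolynomial (Fin n) F) ^ s ∈ b) : kl F b ≠ ⊤ := by
  classical
  obtain ⟨E, hE⟩ := exists_E b s h
  let ρ : MvPolynomial (Fin n) F →ₗ[F] (MvPolynomial (Fin n) F ⧸ b) :=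
    (Ideal.Quotient.mkₐ F b).toLinearMap
  have hρ : ∀ f, ρ f = Ideal.Quotient.mk b f := fun f => rfl
  have hρs : Function.Surjective ρ := Ideal.Quotient.mk_surjective
  have htop : Submodule.span F (Set.range fun μ : E => ρ (monomial (μ : Fin n →₀ ℕ) (1 : F))) =
      ⊤ := by
    rw [eq_top_iff]
    have h1 : Submodule.map ρ (Submodule.span F (Set.range fun μ => monomial μ (1 : F))) = ⊤ := by
      rw [span_monomials, Submodule.map_top, LinearMap.range_eq_top]
      exact hρs
    rw [← h1, Submodule.map_span, Submodule.span_le]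
    rintro _ ⟨_, ⟨μ, rfl⟩, rfl⟩
    by_cases hμ : μ ∈ E
    · exact Submodule.subset_span ⟨⟨μ, hμ⟩, rfl⟩
    · have h2 : ρ (monomial μ (1 : F)) = 0 := by
        rw [hρ, Ideal.Quotient.eq_zero_iff_mem]
        exact hE μ hμ
      rw [SetLike.mem_coe, h2]
      exact Submodule.zero_mem _
  have hle := finrank_le _ htop
  unfold kl
  rw [Ne, ENat.toENNReal_eq_top]
  intro h0
  rw [h0] at hle
  exact absurd hle (by simp)

theorem kl_extK_le (k : Type) [Field k] (n : ℕ) (I : Ideal (MvPolynomial (Fin n) k)) :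
    kl (K1 k n) (extK k n I) ≤ kl k I := by
  classical
  by_cases hfin : kl k I = ⊤
  · rw [hfin]
    exact le_top
  have hfin' : Module.length k (MvPolynomial (Fin n) k ⧸ I) ≠ ⊤ := by
    intro h
    apply hfin
    rw [kl, h]
    rfl
  have hMf : Module.Finite k (MvPolynomial (Fin n) k ⧸ I) := by
    rw [Module.length_ne_top_iff, isFiniteLength_iff_isNoetherian_isArtinian] at hfin'
    have := hfin'.1
    infer_instance
  let bs := Module.finBasis k (MvPolynomial (Fin n) k ⧸ I)
  have hrep : ∀ i, ∃ p : MvPolynomial (Fin n) k, Ideal.Quotient.mk I p = bs i := fun i =>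
    Ideal.Quotient.mk_surjective (bs i)
  choose p hp using hrep
  let ρ : MvPolynomial (Fin n) (K1 k n) →ₗ[K1 k n]
      (MvPolynomial (Fin n) (K1 k n) ⧸ extK k n I) :=
    (Ideal.Quotient.mkₐ (K1 k n) (extK k n I)).toLinearMap
  have hρ : ∀ f, ρ f = Ideal.Quotient.mk (extK k n I) f := fun f => rfl
  have hρs : Function.Surjective ρ := Ideal.Quotient.mk_surjective
  have htop : Submodule.span (K1 k n) (Set.range fun i => ρ (map (algebraMap k (K1 k n)) (p i))) =
      ⊤ := by
    rw [eq_top_iff]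
    have h1 : Submodule.map ρ (Submodule.span (K1 k n) (Set.range fun μ : Fin n →₀ ℕ =>
        monomial μ (1 : K1 k n))) = ⊤ := by
      rw [span_monomials, Submodule.map_top, LinearMap.range_eq_top]
      exact hρs
    rw [← h1, Submodule.map_span, Submodule.span_le]
    rintro _ ⟨_, ⟨μ, rfl⟩, rfl⟩
    have h2 := bs.sum_repr (Ideal.Quotient.mk I (monomial μ (1 : k)))
    set a := fun i => bs.repr (Ideal.Quotient.mk I (monomial μ (1 : k))) i with ha
    have h3 : monomial μ (1 : k) - ∑ i, C (a i) * p i ∈ I := by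
      rw [← Ideal.Quotient.eq_zero_iff_mem, map_sub, ← h2, map_sum, sub_eq_zero]
      refine Finset.sum_congr rfl fun i _ => ?_
      rw [← MvPolynomial.smul_eq_C_mul]
      change _ = (a i) • Ideal.Quotient.mk I (p i)
      rw [hp]
    have h4 := Ideal.mem_map_of_mem (map (algebraMap k (K1 k n))) h3
    have h5 : ρ (monomial μ 1) = ∑ i, algebraMap k (K1 k n) (a i) •
        ρ (map (algebraMap k (K1 k n)) (p i)) := by
      have h6 : ρ (map (algebraMap k (K1 k n)) (monomial μ (1 : k) - ∑ i, C (a i) * p i)) = 0 := by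
        rw [hρ, Ideal.Quotient.eq_zero_iff_mem]
        exact h4
      rw [map_sub, map_sub, sub_eq_zero, map_monomial, map_one] at h6
      rw [h6, map_sum, map_sum]
      refine Finset.sum_congr rfl fun i _ => ?_
      rw [map_mul, map_C, ← MvPolynomial.smul_eq_C_mul, map_smul]
    rw [SetLike.mem_coe, h5]
    exact Submodule.sum_mem _ fun i _ => Submodule.smul_mem _ _ (Submodule.subset_span ⟨i, rfl⟩)
  have hle := finrank_le _ htop
  rw [Fintype.card_fin] at hle
  unfold kl
  rw [ENat.toENNReal_le, Module.length_eq_finrank k]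
  exact hle

end Pool.Agent.X272.StirLech
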