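import Pool.Agent.X272.StirPow

/-!
# Assembly
-/

set_option autoImplicit false

namespace Pool.Agent.X272.StirMain

open Pool.Agent.X272.LMBase Pool.Agent.X272.StirComb Pool.Agent.X272.StirWord
open Pool.Agent.X272.StirK Pool.Agent.X272.StirGen
open Pool.Agent.X272.StirTrans Pool.Agent.X272.StirLech Pool.Agent.X272.StirPow
open scoped ENNReal
open MvPolynomial

theorem app_false {A : Type*} [CommRing A] (Y : ℕ → A) (i : ℕ) : ∀ (a : ℕ) (J : Ideal A),
    app Y ((List.replicate i false).zipIdx a) J =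
      J ⊔ Ideal.span (Y '' {t | a ≤ t ∧ t < a + i}) := by
  induction i with
  | zero =>
    intro a J
    have : {t : ℕ | a ≤ t ∧ t < a + 0} = ∅ := by
      ext t
      simp
    rw [this, Set.image_empty, Ideal.span_empty, sup_bot_eq]
    rfl
  | succ i ih =>
    intro a J
    rw [List.replicate_succ, List.zipIdx_cons, app_cons, ih]
    simp only [step, Bool.false_eq_true, if_false]
    rw [sup_assoc, ← Ideal.span_union]
    congr 2
    rw [← Set.image_singleton, ← Set.image_union]
    congr 1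
    ext t
    simp only [Set.mem_union, Set.mem_singleton_iff, Set.mem_ofPred_eq]
    omega

section K

variable (k : Type) [Field k] (n : ℕ)

/-- the ideal of the origin -/
noncomputable def m0 (F : Type*) [Field F] : Ideal (MvPolynomial (Fin n) F) :=
  Ideal.span (Set.range X)

theorem m0_ne_top (F : Type*) [Field F] : m0 n F ≠ ⊤ := by
  intro h
  have h1 : m0 n F ≤ RingHom.ker (constantCoeff : MvPolynomial (Fin n) F →+* F) := by
    unfold m0
    rw [Ideal.span_le]
    rintro _ ⟨j, rfl⟩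
    rw [SetLike.mem_coe, RingHom.mem_ker, constantCoeff_X]
  have h2 : (1 : MvPolynomial (Fin n) F) ∈ RingHom.ker
      (constantCoeff : MvPolynomial (Fin n) F →+* F) := h1 (by rw [h]; trivial)
  rw [RingHom.mem_ker, map_one] at h2
  exact one_ne_zero h2

theorem extK_m0 : extK k n (m0 n k) = m0 n (K1 k n) := by
  unfold extK m0
  rw [Ideal.map_span]
  congr 1
  rw [← Set.range_comp]
  congr 1
  funext j
  simp

theorem YK_mem (t : ℕ) : YK k n t ∈ m0 n (K1 k n) := by
  unfold YK m0
  exact Ideal.sum_mem _ fun j _ => Ideal.mul_mem_left _ _ (Ideal.subset_span ⟨j, rfl⟩)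

theorem extK_mono {I J : Ideal (MvPolynomial (Fin n) k)} (h : I ≤ J) : extK k n I ≤ extK k n J :=
  Ideal.map_mono h

variable (I : Ideal (MvPolynomial (Fin n) k))

/-- the invariants of `I` -/
noncomputable def ta (j : ℕ) : ℝ≥0∞ := tau (YK k n) (K1 k n) n (extK k n I) j

theorem A1 (r : ℕ) (hr : m0 n k ^ r ≤ I) :
    ev (ascPochhammer ℕ n) (ta k n I) ≤ (n.factorial : ℝ≥0∞) * kl k I := by
  have h1 : m0 n (K1 k n) ^ r ≤ extK k n I := by
    rw [← extK_m0, extK_pow]
    exact extK_mono k n hr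
  refine (tau_lower (YK_mem k n) (good_ext k n I) h1).trans ?_
  exact mul_le_mul_right (kl_extK_le k n I) _

theorem A2 (r : ℕ) (hr : m0 n k ^ r ≤ I) (N : ℕ) (hN : 1 ≤ N) (j : ℕ) (hj : j ≤ n) :
    (j.factorial : ℝ≥0∞) * kl (K1 k n) (extK k n (I ^ N) ⊔
      Ideal.span (YK k n '' {t | t < n - j})) ≤ ((N : ℝ≥0∞) + j) ^ j * ta k n I j := by
  have h1 : m0 n (K1 k n) ^ r ≤ extK k n I := by
    rw [← extK_m0, extK_pow]
    exact extK_mono k n hr
  have h2 := tau_upper (𝕜 := K1 k n) (YK_mem k n) (n := n) (kl_YK k n) (J := extK k n I)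
    (fun m => by rw [extK_pow]; exact good_ext k n _) h1 N hN j hj
  refine le_trans (le_of_eq ?_) h2
  congr 1
  unfold L
  rw [app_false, extK_pow]
  simp

theorem A3 (hI : I ≤ m0 n k) (hn : 1 ≤ n) : 1 ≤ ta k n I 1 := by
  refine tau_one (m0_ne_top n (K1 k n)) (YK_mem k n) ?_ hn
  rw [← extK_m0]
  exact extK_mono k n hI

/-- the ideal over `S1` -/
noncomputable def bS (i : ℕ) : Ideal (MvPolynomial (Fin n) (S1 k n)) :=
  I.map (map (C : k →+* S1 k n)) ⊔ Ideal.span (YS k n '' {t | t < i})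

theorem bS_map (i : ℕ) : (bS k n I i).map (map (algebraMap (S1 k n) (K1 k n))) =
    extK k n I ⊔ Ideal.span (YK k n '' {t | t < i}) := by
  unfold bS extK
  rw [Ideal.map_sup, Ideal.map_map, Ideal.map_span, Set.image_image]
  congr 1
  · refine congrArg (fun f => Ideal.map f I) ?_
    refine MvPolynomial.ringHom_ext ?_ ?_
    · intro a
      rw [RingHom.comp_apply, map_C, map_C, map_C]
      rfl
    · intro j
      rw [RingHom.comp_apply, map_X, map_X, map_X]
  · congr 1
    refine Set.image_congr fun t _ => ?_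
    unfold YS YK
    rw [map_sum]
    refine Finset.sum_congr rfl fun j _ => ?_
    rw [map_mul, map_C, map_X]

/-- special linear forms -/
noncomputable def lf (c : ℕ × Fin n → k) (t : ℕ) : MvPolynomial (Fin n) k :=
  ∑ j : Fin n, C (c (t, j)) * X j

theorem bS_eval (c : ℕ × Fin n → k) (i : ℕ) :
    (bS k n I i).map (map (eval c)) ≤ I ⊔ Ideal.span (lf k n c '' {t | t < i}) := by
  unfold bS
  rw [Ideal.map_sup, Ideal.map_map, Ideal.map_span, Set.image_image]
  refine sup_le_sup (le_of_eq ?_) (le_of_eq ?_)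
  · have : (map (eval c)).comp (map (C : k →+* S1 k n)) =
        RingHom.id (MvPolynomial (Fin n) k) := by
      refine MvPolynomial.ringHom_ext ?_ ?_
      · intro a
        rw [RingHom.comp_apply, map_C, map_C, eval_C]
        rfl
      · intro j
        rw [RingHom.comp_apply, map_X, map_X]
        rfl
    rw [this, Ideal.map_id]
  · congr 1
    refine Set.image_congr fun t _ => ?_
    unfold YS lf
    rw [map_sum]
    refine Finset.sum_congr rfl fun j _ => ?_
    rw [map_mul, map_C, map_X, eval_X]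

theorem lemB (s : ℕ) (hs : ∀ j, (X j : MvPolynomial (Fin n) k) ^ s ∈ I) (i : ℕ) :
    ∃ g : S1 k n, g ≠ 0 ∧ ∀ c : ℕ × Fin n → k, eval c g ≠ 0 →
      kl k (I ⊔ Ideal.span (lf k n c '' {t | t < i})) ≤
        kl (K1 k n) (extK k n I ⊔ Ideal.span (YK k n '' {t | t < i})) := by
  obtain ⟨g, hg, h⟩ := semicont (K1 k n) (bS k n I i) s (by
    intro j
    refine Ideal.mem_sup_left ?_
    have := Ideal.mem_map_of_mem (map (C : k →+* S1 k n)) (hs j)
    rwa [map_pow, map_X] at this)
  refine ⟨g, hg, fun c hc => ?_⟩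
  rw [← bS_map]
  exact h k (eval c) hc _ (bS_eval k n I c i)

/-- the generic determinant -/
noncomputable def gdet : S1 k n := Matrix.det (Matrix.of fun i j : Fin n => (X ((i : ℕ), j) : S1 k n))

theorem gdet_ne : gdet k n ≠ 0 := by
  have e1 : gdet k n = rename (R := k) (Prod.map (fun i : Fin n => (i : ℕ)) (id : Fin n → Fin n))
      (Matrix.det (Matrix.mvPolynomialX (Fin n) (Fin n) k)) := by
    unfold gdet
    rw [AlgHom.map_det]
    congr 1
    ext i j
    simp
  rw [e1]
  intro h1
  have h2 : Function.Injective (Prod.map (fun i : Fin n => (i : ℕ)) (id : Fin n → Fin n)) :=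
    Function.Injective.prodMap Fin.val_injective Function.injective_id
  have h3 := rename_injective (R := k) _ h2 (h1.trans (map_zero _).symm)
  exact Matrix.det_mvPolynomialX_ne_zero (Fin n) k h3

theorem gdet_eval (c : ℕ × Fin n → k) (hc : eval c (gdet k n) ≠ 0)
    (J : Ideal (MvPolynomial (Fin n) k)) (h : ∀ t < n, lf k n c t ∈ J) (j : Fin n) :
    (X j : MvPolynomial (Fin n) k) ∈ J := by
  refine X_mem_span n (Matrix.of fun i j : Fin n => c ((i : ℕ), j)) ?_ J ?_ j
  · unfold gdet at hc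
    rw [RingHom.map_det] at hc
    convert hc using 2
    ext i j
    simp
  · intro i
    exact h i i.2

theorem lemD (r : ℕ) (hr : m0 n k ^ r ≤ I) (c : ℕ × Fin n → k) (hc : eval c (gdet k n) ≠ 0)
    (i : ℕ) (hi : i ≤ n) (m : ℕ) (hm : 1 ≤ m) :
    kl k (I ^ m ⊔ Ideal.span (lf k n c '' {t | t < i})) ≤
      (m : ℝ≥0∞) ^ (n - i) * kl k (I ⊔ Ideal.span (lf k n c '' {t | t < i})) := by
  set q := Ideal.span (lf k n c '' {t | t < i}) with hq
  have hlf : ∀ t, lf k n c t ∈ m0 n k := by
    intro t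
    unfold lf m0
    exact Ideal.sum_mem _ fun j _ => Ideal.mul_mem_left _ _ (Ideal.subset_span ⟨j, rfl⟩)
  have h1 := LL k ((List.range' i (n - i)).map (lf k n c)) m hm q (I ⊔ q) r le_sup_right
    (by
      intro x hx
      rw [List.mem_map] at hx
      obtain ⟨t, _, rfl⟩ := hx
      exact Ideal.mem_sup_left (hr (Ideal.pow_mem_pow (hlf t) r)))
    (by
      refine kl_le_one n _ fun j => ?_
      refine gdet_eval k n c hc _ (fun t ht => ?_) j
      by_cases hti : t < i
      · exact Ideal.mem_sup_left (Ideal.subset_span ⟨t, hti, rfl⟩)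
      · refine Ideal.mem_sup_right (Ideal.subset_span ?_)
        rw [Set.mem_ofPred_eq, List.mem_map]
        refine ⟨t, ?_, rfl⟩
        rw [List.mem_range'_1]
        omega)
  rw [List.length_map, List.length_range'] at h1
  refine le_trans (kl_mono k ?_) h1
  refine sup_le ?_ le_sup_right
  exact sup_pow_le _ _ _

end K

/-- the limit of a subsequence -/
theorem lemE (D N : ℕ) (hN : 1 ≤ N) (C : ℝ) (u : ℕ → ℕ) (e : ℝ)
    (he : Filter.Tendsto (fun m : ℕ => ((D.factorial : ℝ) * (u m : ℝ)) / (m : ℝ) ^ D)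
      Filter.atTop (nhds e))
    (hu : ∀ m, 1 ≤ m → (u (N * m) : ℝ) ≤ (m : ℝ) ^ D * C) :
    e ≤ D.factorial * C / (N : ℝ) ^ D := by
  have h1 : Filter.Tendsto (fun m : ℕ => N * m) Filter.atTop Filter.atTop :=
    Filter.tendsto_id.const_mul_atTop' (by omega)
  refine le_of_tendsto (he.comp h1) ?_
  filter_upwards [Filter.eventually_ge_atTop 1] with m hm
  simp only [Function.comp_apply]
  have hN0 : (0 : ℝ) < N := by exact_mod_cast hN
  have hm0 : (0 : ℝ) < m := by exact_mod_cast hm
  push_cast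
  rw [mul_pow, div_le_div_iff₀ (by positivity) (by positivity)]
  have h2 := hu m hm
  have h3 : (D.factorial : ℝ) * (u (N * m) : ℝ) ≤ D.factorial * ((m : ℝ) ^ D * C) :=
    mul_le_mul_of_nonneg_left h2 (by positivity)
  calc (D.factorial : ℝ) * (u (N * m) : ℝ) * (N : ℝ) ^ D
      ≤ D.factorial * ((m : ℝ) ^ D * C) * (N : ℝ) ^ D :=
        mul_le_mul_of_nonneg_right h3 (by positivity)
    _ = D.factorial * C * ((N : ℝ) ^ D * (m : ℝ) ^ D) := by ring

end Pool.Agent.X272.StirMain
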