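import Pool.Agent.X272.StirMain

/-!
# The numerical part
-/

set_option autoImplicit false

namespace Pool.Agent.X272.StirNum

open Pool.Agent.X272.StirComb
open scoped ENNReal
open Polynomial

theorem coeff_one (d : ℕ) : 1 ≤ (ascPochhammer ℕ (d + 1)).coeff 1 := by
  induction d with
  | zero => simp [ascPochhammer_one]
  | succ d ih =>
    rw [ascPochhammer_succ_right, mul_add, Polynomial.coeff_add, Polynomial.coeff_mul_natCast]
    refine le_trans ?_ (Nat.le_add_left _ _)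
    exact Nat.one_le_iff_ne_zero.2 (Nat.mul_ne_zero (by omega) (by simp))

theorem sum_le (d : ℕ) (f : ℕ → ℝ≥0∞) :
    ∑ i : Fin d, f (d + 1 - i.val) + f 1 ≤ ∑' j, f j := by
  have h1 : ∑ i : Fin d, f (d + 1 - i.val) = ∑ i ∈ Finset.range d, f (d + 1 - i) :=
    Fin.sum_univ_eq_sum_range (fun i => f (d + 1 - i)) d
  have h2 : ∑ i ∈ Finset.range d, f (d + 1 - i) + f 1 =
      ∑ i ∈ Finset.range (d + 1), f (d + 1 - i) := by
    rw [Finset.sum_range_succ]
    congr 2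
    omega
  have h3 : ∑ i ∈ Finset.range (d + 1), f (d + 1 - i) =
      ∑ j ∈ Finset.range (d + 1), f (j + 1) := by
    rw [← Finset.sum_range_reflect (fun j => f (j + 1)) (d + 1)]
    refine Finset.sum_congr rfl fun i hi => ?_
    rw [Finset.mem_range] at hi
    congr 1
    omega
  rw [h1, h2, h3]
  refine le_trans ?_ (ENNReal.sum_le_tsum (Finset.range (d + 2)))
  rw [Finset.sum_range_succ' _ (d + 1)]
  exact le_self_add

theorem num (d : ℕ) (t : ℕ → ℝ≥0∞) (L : ℝ≥0∞) (hL : L ≠ ⊤)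
    (h1 : ev (ascPochhammer ℕ (d + 1)) t ≤ ((d + 1).factorial : ℝ≥0∞) * L) (h2 : 1 ≤ t 1) :
    (∀ j, (((ascPochhammer ℕ (d + 1)).coeff j : ℕ) : ℝ≥0∞) * t j ≠ ⊤) ∧
    ∃ N : ℕ, 1 ≤ N ∧ ∑ i : Fin d, (((N : ℝ) + ((d + 1 - i.val : ℕ) : ℝ)) / N) ^ (d + 1 - i.val) *
      ((((ascPochhammer ℕ (d + 1)).coeff (d + 1 - i.val) : ℕ) : ℝ≥0∞) *
        t (d + 1 - i.val)).toReal ≤ ((d + 1).factorial : ℝ) * L.toReal := by
  set f : ℕ → ℝ≥0∞ := fun j => (((ascPochhammer ℕ (d + 1)).coeff j : ℕ) : ℝ≥0∞) * t j with hf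
  have hev : ev (ascPochhammer ℕ (d + 1)) t = ∑' j, f j := rfl
  have hfin : ∀ j, f j ≠ ⊤ := by
    intro j hj
    have h3 : f j ≤ ((d + 1).factorial : ℝ≥0∞) * L := (ENNReal.le_tsum j).trans (hev ▸ h1)
    rw [hj, top_le_iff] at h3
    exact ENNReal.mul_ne_top (ENNReal.natCast_ne_top _) hL h3
  refine ⟨hfin, ?_⟩
  have h4 : ∑ i : Fin d, f (d + 1 - i.val) + 1 ≤ ((d + 1).factorial : ℝ≥0∞) * L := by
    refine le_trans ?_ h1
    rw [hev]
    refine le_trans ?_ (sum_le d f)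
    gcongr
    rw [hf]
    calc (1 : ℝ≥0∞) = ((1 : ℕ) : ℝ≥0∞) * 1 := by simp
      _ ≤ (((ascPochhammer ℕ (d + 1)).coeff 1 : ℕ) : ℝ≥0∞) * t 1 := by
        gcongr
        exact coeff_one d
  have h5 : ∑ i : Fin d, (f (d + 1 - i.val)).toReal + 1 ≤
      ((d + 1).factorial : ℝ) * L.toReal := by
    have h6 := ENNReal.toReal_mono (ENNReal.mul_ne_top (ENNReal.natCast_ne_top _) hL) h4
    rw [ENNReal.toReal_add (ENNReal.sum_ne_top.2 fun i _ => hfin _) ENNReal.one_ne_top,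
      ENNReal.toReal_sum (fun i _ => hfin _), ENNReal.toReal_mul, ENNReal.toReal_natCast,
      ENNReal.toReal_one] at h6
    exact h6
  have h7 : Filter.Tendsto (fun N : ℕ => ∑ i : Fin d,
      (((N : ℝ) + ((d + 1 - i.val : ℕ) : ℝ)) / N) ^ (d + 1 - i.val) *
        (f (d + 1 - i.val)).toReal) Filter.atTop
      (nhds (∑ i : Fin d, (f (d + 1 - i.val)).toReal)) := by
    refine tendsto_finsetSum _ fun i _ => ?_
    have h8 : Filter.Tendsto (fun N : ℕ => ((N : ℝ) + ((d + 1 - i.val : ℕ) : ℝ)) / N)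
        Filter.atTop (nhds 1) := by
      have h9 := (tendsto_const_div_atTop_nhds_zero_nat ((d + 1 - i.val : ℕ) : ℝ)).const_add 1
      rw [add_zero] at h9
      refine h9.congr' ?_
      filter_upwards [Filter.eventually_ge_atTop 1] with N hN
      have : (N : ℝ) ≠ 0 := by
        have : (0 : ℝ) < N := by exact_mod_cast hN
        exact this.ne'
      field_simp
    have h10 := (h8.pow (d + 1 - i.val)).mul_const (f (d + 1 - i.val)).toReal
    rwa [one_pow, one_mul] at h10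
  have h11 : ∑ i : Fin d, (f (d + 1 - i.val)).toReal < ((d + 1).factorial : ℝ) * L.toReal := by
    linarith
  have h12 := (h7.eventually_lt_const h11).and (Filter.eventually_ge_atTop 1)
  obtain ⟨N, hN1, hN2⟩ := h12.exists
  exact ⟨N, hN2, hN1.le⟩

end Pool.Agent.X272.StirNum
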