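import Pool.Agent.X272.LMBase
import Pool.Agent.X272.StirLech

/-!
# Power series versus polynomials
-/

set_option autoImplicit false

namespace Pool.Agent.X272.StirPow

open Pool.Agent.X272.LMBase Pool.Agent.X272.StirWord Pool.Agent.X272.StirGen
open Pool.Agent.X272.StirTrans Pool.Agent.X272.StirLech
open scoped ENNReal

variable (k : Type) [Field k] (n : ℕ)

/-- polynomials as power series -/
noncomputable def inc : MvPolynomial (Fin n) k →+* MvPowerSeries (Fin n) k :=
  MvPolynomial.coeToMvPowerSeries.ringHom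

theorem inc_X (j : Fin n) : inc k n (MvPolynomial.X j) = MvPowerSeries.X j :=
  MvPolynomial.coe_X j

theorem inc_C (a : k) : inc k n (MvPolynomial.C a) = MvPowerSeries.C a :=
  MvPolynomial.coe_C a

theorem exists_poly (I : Ideal (MvPowerSeries (Fin n) k)) (s : ℕ)
    (h : ∀ j : Fin n, (MvPowerSeries.X j : MvPowerSeries (Fin n) k) ^ s ∈ I)
    (f : MvPowerSeries (Fin n) k) : ∃ p : MvPolynomial (Fin n) k, f - inc k n p ∈ I := by
  classical
  have key : ∀ J : Finset (Fin n), ∀ g : MvPowerSeries (Fin n) k,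
      (∀ μ, MvPowerSeries.coeff μ g =
        if ∀ j ∈ J, μ j ≤ s then MvPowerSeries.coeff μ f else 0) → f - g ∈ I := by
    intro J
    induction J using Finset.induction_on with
    | empty =>
      intro g hg
      have : g = f := by
        ext μ
        rw [hg]
        simp
      rw [this, sub_self]
      exact I.zero_mem
    | insert j J hj ih =>
      intro g hg
      let g' : MvPowerSeries (Fin n) k := fun μ =>
        if ∀ j ∈ J, μ j ≤ s then MvPowerSeries.coeff μ f else 0
      have hg' : ∀ μ, MvPowerSeries.coeff μ g' =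
          if ∀ j ∈ J, μ j ≤ s then MvPowerSeries.coeff μ f else 0 := fun μ => rfl
      have h1 := ih g' hg'
      have h2 : (MvPowerSeries.X j : MvPowerSeries (Fin n) k) ^ s ∣ g' - g := by
        rw [MvPowerSeries.X_pow_dvd_iff]
        intro μ hμ
        rw [map_sub, hg', hg, sub_eq_zero]
        congr 1
        rw [eq_iff_iff, Finset.forall_mem_insert]
        constructor
        · intro h3
          exact ⟨hμ.le, h3⟩
        · exact fun h3 => h3.2
      have h3 : g' - g ∈ I := by
        obtain ⟨q, hq⟩ := h2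
        rw [hq]
        exact Ideal.mul_mem_right _ _ (h j)
      have := I.add_mem h1 h3
      rwa [sub_add_sub_cancel] at this
  let c : Fin n →₀ ℕ := Finsupp.equivFunOnFinite.symm fun _ => s
  refine ⟨MvPowerSeries.truncFinset k (Finset.Iic c) f, key Finset.univ _ fun μ => ?_⟩
  change MvPowerSeries.coeff μ ((MvPowerSeries.truncFinset k (Finset.Iic c) f :
    MvPolynomial (Fin n) k) : MvPowerSeries (Fin n) k) = _
  rw [MvPolynomial.coeff_coe, MvPowerSeries.coeff_truncFinset]
  congr 1
  rw [eq_iff_iff, Finset.mem_Iic, Finsupp.le_def]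
  simp only [Finset.mem_univ, true_imp_iff]
  rfl

theorem length_restrict (M : Type*) [AddCommGroup M] [Module (MvPowerSeries (Fin n) k) M]
    [Module k M] [IsScalarTower k (MvPowerSeries (Fin n) k) M] :
    Module.length (MvPowerSeries (Fin n) k) M ≤ Module.length k M := by
  rw [← WithBot.coe_le_coe, Module.coe_length, Module.coe_length]
  exact Order.krullDim_le_of_orderEmbedding
    (Submodule.restrictScalarsEmbedding k (MvPowerSeries (Fin n) k) M)

/-- the `k`-linear map induced by `inc` -/
noncomputable def incQ (I : Ideal (MvPowerSeries (Fin n) k)) (b : Ideal (MvPolynomial (Fin n) k))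
    (h : b ≤ I.comap (inc k n)) :
    (MvPolynomial (Fin n) k ⧸ b) →ₗ[k] (MvPowerSeries (Fin n) k ⧸ I) :=
  { (Ideal.quotientMap I (inc k n) h) with
    map_smul' := by
      intro a q
      obtain ⟨q, rfl⟩ := Ideal.Quotient.mk_surjective q
      change Ideal.Quotient.mk I (inc k n (a • q)) = Ideal.Quotient.mk I (a • inc k n q)
      rw [MvPolynomial.smul_eq_C_mul, map_mul, inc_C, MvPowerSeries.smul_eq_C_mul] }

theorem incQ_mk (I : Ideal (MvPowerSeries (Fin n) k)) (b : Ideal (MvPolynomial (Fin n) k))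
    (h : b ≤ I.comap (inc k n)) (p : MvPolynomial (Fin n) k) :
    incQ k n I b h (Ideal.Quotient.mk b p) = Ideal.Quotient.mk I (inc k n p) := rfl

theorem incQ_surj (I : Ideal (MvPowerSeries (Fin n) k)) (b : Ideal (MvPolynomial (Fin n) k))
    (h : b ≤ I.comap (inc k n)) (s : ℕ)
    (hs : ∀ j : Fin n, (MvPowerSeries.X j : MvPowerSeries (Fin n) k) ^ s ∈ I) :
    Function.Surjective (incQ k n I b h) := by
  intro q
  obtain ⟨f, rfl⟩ := Ideal.Quotient.mk_surjective q
  obtain ⟨p, hp⟩ := exists_poly k n I s hs f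
  refine ⟨Ideal.Quotient.mk b p, ?_⟩
  rw [incQ_mk]
  symm
  rw [Ideal.Quotient.eq]
  exact hp

theorem length_le (I : Ideal (MvPowerSeries (Fin n) k)) (b : Ideal (MvPolynomial (Fin n) k))
    (h : b ≤ I.comap (inc k n)) (s : ℕ)
    (hs : ∀ j : Fin n, (MvPowerSeries.X j : MvPowerSeries (Fin n) k) ^ s ∈ I) :
    ((Module.length (MvPowerSeries (Fin n) k) (MvPowerSeries (Fin n) k ⧸ I) : ℕ∞) : ℝ≥0∞) ≤
      kl k b := by
  unfold kl
  rw [ENat.toENNReal_le]
  exact (length_restrict k n _).trans
    (Module.length_le_of_surjective _ (incQ_surj k n I b h s hs))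

theorem kl_comap_le (I : Ideal (MvPowerSeries (Fin n) k)) (s : ℕ)
    (hs : ∀ j : Fin n, (MvPowerSeries.X j : MvPowerSeries (Fin n) k) ^ s ∈ I) :
    kl k (I.comap (inc k n)) ≤
    ((Module.length (MvPowerSeries (Fin n) k) (MvPowerSeries (Fin n) k ⧸ I) : ℕ∞) : ℝ≥0∞) := by
  have hb : ∀ j, (MvPolynomial.X j : MvPolynomial (Fin n) k) ^ s ∈ I.comap (inc k n) := by
    intro j
    rw [Ideal.mem_comap, map_pow, inc_X]
    exact hs j
  have h1 := length_le k n I (I.comap (inc k n)) le_rfl s hs
  have h2 := kl_ne_top (I.comap (inc k n)) s hb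
  have h3 : Module.length (MvPowerSeries (Fin n) k) (MvPowerSeries (Fin n) k ⧸ I) ≠ ⊤ := by
    intro h0
    rw [h0] at h1
    exact h2 (top_le_iff.1 h1)
  rw [Module.length_ne_top_iff] at h3
  have h4 : Module.length k (MvPowerSeries (Fin n) k ⧸ I) =
      Module.length (MvPowerSeries (Fin n) k) (MvPowerSeries (Fin n) k ⧸ I) := by
    refine length_eq_of_res ?_ _ h3
    intro b
    refine ⟨MvPowerSeries.constantCoeff b, ?_⟩
    rw [IsLocalRing.mem_maximalIdeal, mem_nonunits_iff, MvPowerSeries.isUnit_iff_constantCoeff,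
      map_sub]
    have : MvPowerSeries.constantCoeff (algebraMap k (MvPowerSeries (Fin n) k)
        (MvPowerSeries.constantCoeff b)) = MvPowerSeries.constantCoeff b := by
      rw [MvPowerSeries.algebraMap_apply]
      simp
    rw [this, sub_self]
    exact not_isUnit_zero
  rw [← h4]
  unfold kl
  rw [ENat.toENNReal_le]
  refine Module.length_le_of_injective (incQ k n I (I.comap (inc k n)) le_rfl) ?_
  rw [injective_iff_map_eq_zero]
  intro q hq
  obtain ⟨q, rfl⟩ := Ideal.Quotient.mk_surjective q
  rw [incQ_mk, Ideal.Quotient.eq_zero_iff_mem] at hq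
  rw [Ideal.Quotient.eq_zero_iff_mem]
  exact hq

end Pool.Agent.X272.StirPow
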