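import Pool.Agent.X272.StirGen

/-!
# Semicontinuity of colengths
-/

set_option autoImplicit false

namespace Pool.Agent.X272.StirTrans

open Pool.Agent.X272.LMKey Pool.Agent.X272.StirComb Pool.Agent.X272.StirWord
open Pool.Agent.X272.StirGen
open scoped ENNReal
open MvPolynomial

section Clear

variable {S : Type*} [CommRing S] [IsDomain S] {n : ℕ} (K : Type*) [Field K] [Algebra S K]
  [IsFractionRing S K]

/-- polynomials over `K` which become elements of `T` after clearing denominators -/
def WS (T : Submodule S (MvPolynomial (Fin n) S)) : Submodule K (MvPolynomial (Fin n) K) where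
  carrier := {f | ∃ g : S, g ≠ 0 ∧ ∃ u ∈ T, C (algebraMap S K g) * f = map (algebraMap S K) u}
  zero_mem' := ⟨1, one_ne_zero, 0, T.zero_mem, by simp⟩
  add_mem' := by
    rintro f1 f2 ⟨g1, h1, u1, hu1, e1⟩ ⟨g2, h2, u2, hu2, e2⟩
    refine ⟨g1 * g2, mul_ne_zero h1 h2, g2 • u1 + g1 • u2,
      T.add_mem (T.smul_mem _ hu1) (T.smul_mem _ hu2), ?_⟩
    rw [map_add, MvPolynomial.smul_eq_C_mul, MvPolynomial.smul_eq_C_mul, map_mul (map _),
      map_mul (map _), map_C, map_C, ← e1, ← e2, map_mul, map_mul]
    ring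
  smul_mem' := by
    rintro a f ⟨g, h, u, hu, e⟩
    obtain ⟨p, q, hq, rfl⟩ := IsFractionRing.div_surjective (A := S) a
    have hq0 : q ≠ 0 := nonZeroDivisors.ne_zero hq
    have hq1 : algebraMap S K q ≠ 0 := by
      rw [Ne, IsFractionRing.to_map_eq_zero_iff]
      exact hq0
    refine ⟨q * g, mul_ne_zero hq0 h, p • u, T.smul_mem _ hu, ?_⟩
    rw [MvPolynomial.smul_eq_C_mul, MvPolynomial.smul_eq_C_mul, map_mul (map _), map_C, ← e,
      map_mul]
    have : (C (algebraMap S K q) : MvPolynomial (Fin n) K) *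
        C (algebraMap S K p / algebraMap S K q) = C (algebraMap S K p) := by
      rw [← map_mul, mul_div_cancel₀ _ hq1]
    rw [map_mul, ← this]
    ring

theorem mem_WS {T : Submodule S (MvPolynomial (Fin n) S)} {f : MvPolynomial (Fin n) K} :
    f ∈ WS K T ↔ ∃ g : S, g ≠ 0 ∧ ∃ u ∈ T, C (algebraMap S K g) * f = map (algebraMap S K) u :=
  Iff.rfl

theorem map_mem_WS {T : Submodule S (MvPolynomial (Fin n) S)} {u : MvPolynomial (Fin n) S}
    (hu : u ∈ T) : map (algebraMap S K) u ∈ WS K T :=
  ⟨1, one_ne_zero, u, hu, by simp⟩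

attribute [local instance] MvPolynomial.algebraMvPolynomial in
theorem ideal_le_WS {T : Submodule S (MvPolynomial (Fin n) S)} {b : Ideal (MvPolynomial (Fin n) S)}
    (h : ∀ u ∈ b, u ∈ T) {f : MvPolynomial (Fin n) K} (hf : f ∈ b.map (map (algebraMap S K))) :
    f ∈ WS K T := by
  have hf' : f ∈ b.map (algebraMap (MvPolynomial (Fin n) S) (MvPolynomial (Fin n) K)) := hf
  rw [IsLocalization.mem_map_algebraMap_iff ((nonZeroDivisors S).map (C (σ := Fin n)))
    (MvPolynomial (Fin n) K)] at hf'
  obtain ⟨⟨⟨u, hu⟩, ⟨v, hv⟩⟩, e⟩ := hf'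
  obtain ⟨g, hg, rfl⟩ := hv
  refine ⟨g, nonZeroDivisors.ne_zero hg, u, h u hu, ?_⟩
  have e' : f * map (algebraMap S K) (C g) = map (algebraMap S K) u := e
  rw [map_C] at e'
  rw [← e', mul_comm]

omit [IsDomain S] in
theorem map_injective' : Function.Injective
    (map (algebraMap S K) : MvPolynomial (Fin n) S → MvPolynomial (Fin n) K) :=
  MvPolynomial.map_injective _ (IsFractionRing.injective S K)

end Clear

theorem finrank_le {F V : Type*} [Field F] [AddCommGroup V] [Module F V] {ι : Type*} [Fintype ι]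
    (v : ι → V) (h : Submodule.span F (Set.range v) = ⊤) :
    Module.length F V ≤ Fintype.card ι := by
  have hfin : Module.Finite F V := by
    rw [Module.finite_def, ← h]
    exact Submodule.fg_span (Set.finite_range v)
  rw [Module.length_eq_finrank]
  have h1 := finrank_range_le_card (R := F) v
  rw [Set.finrank, h, finrank_top] at h1
  exact_mod_cast h1

theorem finrank_eq {F V : Type*} [Field F] [AddCommGroup V] [Module F V] (b : Set V) [Fintype b]
    (hb : LinearIndependent F ((↑) : b → V)) (h : Submodule.span F b = ⊤) :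
    Module.length F V = Fintype.card b := by
  have h' : ⊤ ≤ Submodule.span F (Set.range ((↑) : b → V)) := by
    rw [Subtype.range_coe, h]
  have hfin : Module.Finite F V := Module.Finite.of_basis (Module.Basis.mk hb h')
  rw [Module.length_eq_finrank, Module.finrank_eq_card_basis (Module.Basis.mk hb h')]

theorem exists_E {S : Type*} [CommRing S] {n : ℕ} (b : Ideal (MvPolynomial (Fin n) S)) (s : ℕ)
    (h : ∀ j, (X j : MvPolynomial (Fin n) S) ^ s ∈ b) :
    ∃ E : Finset (Fin n →₀ ℕ), ∀ μ, μ ∉ E → monomial μ (1 : S) ∈ b := by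
  let c : Fin n →₀ ℕ := Finsupp.equivFunOnFinite.symm fun _ => s
  refine ⟨Finset.Iic c, fun μ hμ => ?_⟩
  rw [Finset.mem_Iic, Finsupp.le_def] at hμ
  push Not at hμ
  obtain ⟨j, hj⟩ := hμ
  have hj' : s < μ j := hj
  have e : μ = Finsupp.single j s + (μ - Finsupp.single j s) := by
    ext i
    rw [Finsupp.add_apply, Finsupp.tsub_apply]
    by_cases hi : i = j
    · subst hi
      rw [Finsupp.single_eq_same]
      omega
    · rw [Finsupp.single_eq_of_ne hi]
      omega
  have e2 : monomial μ (1 : S) = X j ^ s * monomial (μ - Finsupp.single j s) 1 := by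
    rw [X_pow_eq_monomial, monomial_mul, ← e, one_mul]
  rw [e2]
  exact Ideal.mul_mem_right _ _ (h j)

theorem span_monomials {F : Type*} [Field F] {n : ℕ} :
    Submodule.span F (Set.range fun μ : Fin n →₀ ℕ => (monomial μ (1 : F))) = ⊤ := by
  rw [eq_top_iff]
  intro f _
  rw [f.as_sum]
  refine Submodule.sum_mem _ fun μ _ => ?_
  have : monomial μ (coeff μ f) = (coeff μ f) • monomial μ (1 : F) := by
    rw [smul_monomial, smul_eq_mul, mul_one]
  rw [this]
  exact Submodule.smul_mem _ _ (Submodule.subset_span ⟨μ, rfl⟩)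

/-- Semicontinuity of the colength. -/
theorem semicont {S : Type*} [CommRing S] [IsDomain S] {n : ℕ} (K : Type*) [Field K] [Algebra S K]
    [IsFractionRing S K] (b : Ideal (MvPolynomial (Fin n) S)) (s : ℕ)
    (h : ∀ j, (X j : MvPolynomial (Fin n) S) ^ s ∈ b) :
    ∃ g : S, g ≠ 0 ∧ ∀ (F : Type) [Field F] (φ : S →+* F), φ g ≠ 0 →
      ∀ c : Ideal (MvPolynomial (Fin n) F), b.map (map φ) ≤ c →
        kl F c ≤ kl K (b.map (map (algebraMap S K))) := by
  classical
  obtain ⟨E, hE⟩ := exists_E b s h
  set bK := b.map (map (algebraMap S K)) with hbK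
  let π : MvPolynomial (Fin n) K →ₗ[K] (MvPolynomial (Fin n) K ⧸ bK) :=
    (Ideal.Quotient.mkₐ K bK).toLinearMap
  have hπ : ∀ f, π f = Ideal.Quotient.mk bK f := fun f => rfl
  have hπs : Function.Surjective π := Ideal.Quotient.mk_surjective
  let v : (Fin n →₀ ℕ) → (MvPolynomial (Fin n) K ⧸ bK) := fun μ => π (monomial μ 1)
  -- the images of the monomials in `E` span
  have hspan : Submodule.span K (v '' E) = ⊤ := by
    rw [eq_top_iff]
    have h1 : Submodule.map π (Submodule.span K (Set.range fun μ => monomial μ (1 : K))) = ⊤ := by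
      rw [span_monomials, Submodule.map_top, LinearMap.range_eq_top]
      exact hπs
    rw [← h1, Submodule.map_span, Submodule.span_le]
    rintro _ ⟨_, ⟨μ, rfl⟩, rfl⟩
    by_cases hμ : μ ∈ E
    · exact Submodule.subset_span ⟨μ, hμ, rfl⟩
    · have h2 : π (monomial μ 1) = 0 := by
        rw [hπ, Ideal.Quotient.eq_zero_iff_mem]
        have := Ideal.mem_map_of_mem (map (algebraMap S K)) (hE μ hμ)
        rwa [map_monomial, map_one] at this
      rw [SetLike.mem_coe, h2]
      exact Submodule.zero_mem _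
  obtain ⟨B, hBs, hB, hBi⟩ := exists_linearIndependent K (v '' E)
  have hBf : B.Finite := (E.finite_toSet.image v).subset hBs
  have : Fintype B := hBf.fintype
  have hlen := finrank_eq B hBi (hB.trans hspan)
  have hlam : ∀ β : B, ∃ μ : Fin n →₀ ℕ, v μ = β := by
    intro β
    obtain ⟨μ, _, h⟩ := hBs β.2
    exact ⟨μ, h⟩
  choose lam hlam using hlam
  -- the `S`-module spanned by the chosen monomials and `b`
  let T : Submodule S (MvPolynomial (Fin n) S) :=
    Submodule.span S (Set.range fun β : B => monomial (lam β) (1 : S)) ⊔ b.restrictScalars S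
  have hT : ∀ μ : Fin n →₀ ℕ, (monomial μ (1 : K)) ∈ WS K T := by
    intro μ
    have h1 : π (monomial μ 1) ∈ Submodule.map π
        (Submodule.span K (Set.range fun β : B => monomial (lam β) (1 : K))) := by
      rw [Submodule.map_span]
      have h2 : (π '' Set.range fun β : B => monomial (lam β) (1 : K)) = B := by
        ext q
        constructor
        · rintro ⟨_, ⟨β, rfl⟩, rfl⟩
          change v (lam β) ∈ B
          rw [hlam]
          exact β.2
        · intro hq
          exact ⟨_, ⟨⟨q, hq⟩, rfl⟩, hlam ⟨q, hq⟩⟩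
      rw [h2, hB, hspan]
      exact Submodule.mem_top
    obtain ⟨f, hf, hfe⟩ := h1
    have h3 : monomial μ (1 : K) - f ∈ bK := by
      rw [← Ideal.Quotient.eq_zero_iff_mem, map_sub, ← hπ, ← hπ, hfe, sub_self]
    have h4 : f ∈ WS K T := by
      have : Submodule.span K (Set.range fun β : B => monomial (lam β) (1 : K)) ≤ WS K T := by
        rw [Submodule.span_le]
        rintro _ ⟨β, rfl⟩
        have := map_mem_WS K (T := T) (u := monomial (lam β) (1 : S))
          (Submodule.mem_sup_left (Submodule.subset_span ⟨β, rfl⟩))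
        rwa [map_monomial, map_one] at this
      exact this hf
    have h5 : monomial μ (1 : K) - f ∈ WS K T :=
      ideal_le_WS K (fun u hu => Submodule.mem_sup_right hu) h3
    have := (WS K T).add_mem h5 h4
    rwa [sub_add_cancel] at this
  have hT2 : ∀ μ : Fin n →₀ ℕ, ∃ g : S, g ≠ 0 ∧ g • monomial μ (1 : S) ∈ T := by
    intro μ
    obtain ⟨g, hg, u, hu, e⟩ := hT μ
    refine ⟨g, hg, ?_⟩
    have : g • monomial μ (1 : S) = u := by
      apply map_injective' K
      rw [← e, MvPolynomial.smul_eq_C_mul, map_mul, map_C, map_monomial, map_one]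
    rw [this]
    exact hu
  choose g hg hgT using hT2
  refine ⟨∏ μ ∈ E, g μ, Finset.prod_ne_zero_iff.2 fun μ _ => hg μ, ?_⟩
  intro F _ φ hφ c hc
  rw [map_prod, Finset.prod_ne_zero_iff] at hφ
  let ρ : MvPolynomial (Fin n) F →ₗ[F] (MvPolynomial (Fin n) F ⧸ c) :=
    (Ideal.Quotient.mkₐ F c).toLinearMap
  have hρ : ∀ f, ρ f = Ideal.Quotient.mk c f := fun f => rfl
  have hρs : Function.Surjective ρ := Ideal.Quotient.mk_surjective
  have hcT : ∀ u ∈ T, ρ (map φ u) ∈ Submodule.span F
      (Set.range fun β : B => ρ (monomial (lam β) (1 : F))) := by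
    intro u hu
    obtain ⟨p, hp, q, hq, rfl⟩ := Submodule.mem_sup.1 hu
    clear hu
    rw [map_add, map_add]
    refine Submodule.add_mem _ ?_ ?_
    · induction hp using Submodule.span_induction with
      | mem x hx =>
        obtain ⟨β, rfl⟩ := hx
        simp only [map_monomial, map_one]
        exact Submodule.subset_span ⟨β, rfl⟩
      | zero => simp
      | add x y _ _ hx hy =>
        rw [map_add, map_add]
        exact Submodule.add_mem _ hx hy
      | smul a x _ hx =>
        rw [MvPolynomial.smul_eq_C_mul, map_mul, map_C, ← MvPolynomial.smul_eq_C_mul, map_smul]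
        exact Submodule.smul_mem _ _ hx
    · have : ρ (map φ q) = 0 := by
        rw [hρ, Ideal.Quotient.eq_zero_iff_mem]
        exact hc (Ideal.mem_map_of_mem _ hq)
      rw [this]
      exact Submodule.zero_mem _
  have hmono : ∀ μ : Fin n →₀ ℕ, ρ (monomial μ (1 : F)) ∈ Submodule.span F
      (Set.range fun β : B => ρ (monomial (lam β) (1 : F))) := by
    intro μ
    by_cases hμ : μ ∈ E
    · have h1 := hcT _ (hgT μ)
      rw [MvPolynomial.smul_eq_C_mul, map_mul, map_C, ← MvPolynomial.smul_eq_C_mul, map_smul,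
        map_monomial, map_one] at h1
      exact (Submodule.smul_mem_iff _ (hφ μ hμ)).1 h1
    · have h1 : ρ (monomial μ (1 : F)) = 0 := by
        rw [hρ, Ideal.Quotient.eq_zero_iff_mem]
        have := hc (Ideal.mem_map_of_mem (map φ) (hE μ hμ))
        rwa [map_monomial, map_one] at this
      rw [h1]
      exact Submodule.zero_mem _
  have htop : Submodule.span F (Set.range fun β : B => ρ (monomial (lam β) (1 : F))) = ⊤ := by
    rw [eq_top_iff]
    have h1 : Submodule.map ρ (Submodule.span F (Set.range fun μ => monomial μ (1 : F))) = ⊤ := by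
      rw [span_monomials, Submodule.map_top, LinearMap.range_eq_top]
      exact hρs
    rw [← h1, Submodule.map_span, Submodule.span_le]
    rintro _ ⟨_, ⟨μ, rfl⟩, rfl⟩
    exact hmono μ
  have hle := finrank_le _ htop
  rw [← hlen] at hle
  unfold kl
  rw [ENat.toENNReal_le]
  exact hle

end Pool.Agent.X272.StirTrans
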