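import Mathlib
import Pool.Agent.X272.LMLower
import Pool.Agent.X272.StirComb

/-!
# Words of colon and quotient operations

For a sequence of elements `Y t` of a ring and an ideal `J`, a word in the two letters colon and
quotient, with pairwise distinct indices attached to the letters, produces an ideal. If the
colength of this ideal depends on the word only, these numbers behave like the generic initial
ideal of `J` in characteristic zero.
-/

set_option autoImplicit false

namespace Pool.Agent.X272.StirWord

open Pool.Agent.X272.LMKey Pool.Agent.X272.LMUpper Pool.Agent.X272.StirComb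
open scoped ENNReal Nat

section Length

variable (𝕜 : Type*) [CommRing 𝕜] {A : Type*} [CommRing A] [Algebra 𝕜 A]

/-- the length of `A / J` over `𝕜` -/
noncomputable def kl (J : Ideal A) : ℝ≥0∞ := ((Module.length 𝕜 (A ⧸ J) : ℕ∞) : ℝ≥0∞)

theorem kl_mono {I J : Ideal A} (h : I ≤ J) : kl 𝕜 J ≤ kl 𝕜 I := by
  unfold kl
  rw [ENat.toENNReal_le]
  exact Module.length_le_of_surjective ((Submodule.factor h).restrictScalars 𝕜)
    (Submodule.factor_surjective h)

theorem kl_top : kl 𝕜 (⊤ : Ideal A) = 0 := by
  rw [kl, Module.length_eq_zero]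
  simp

variable {𝕜}

theorem eq_top_of_kl {J : Ideal A} (h : kl 𝕜 J = 0) : J = ⊤ := by
  rw [kl, ENat.toENNReal_eq_zero, Module.length_eq_zero_iff] at h
  exact Ideal.Quotient.subsingleton_iff.1 h

theorem one_le_kl {J : Ideal A} (h : kl 𝕜 J ≠ 0) : 1 ≤ kl 𝕜 J := by
  unfold kl at h ⊢
  rw [Ne, ENat.toENNReal_eq_zero] at h
  rw [← ENat.toENNReal_one, ENat.toENNReal_le]
  exact Order.one_le_iff_ne_zero.2 h

variable (𝕜)

theorem kl_eq (I : Ideal A) (y : A) :
    kl 𝕜 I = kl 𝕜 (I ⊔ Ideal.span {y}) + kl 𝕜 (col I y) := by
  unfold kl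
  rw [← ENat.toENNReal_add]
  congr 1
  let f : (A ⧸ col I y) →ₗ[A] (A ⧸ I) := Submodule.mapQ (col I y) I (LinearMap.lsmul A A y) le_rfl
  let g : (A ⧸ I) →ₗ[A] (A ⧸ (I ⊔ Ideal.span {y})) := Submodule.factor le_sup_left
  have hf : Function.Injective f := by
    rw [injective_iff_map_eq_zero]
    intro q hq
    obtain ⟨r, rfl⟩ := Submodule.mkQ_surjective (col I y) q
    have h2 : (Submodule.Quotient.mk (y * r) : A ⧸ I) = 0 := hq
    rw [Submodule.Quotient.mk_eq_zero] at h2
    exact (Submodule.Quotient.mk_eq_zero _).2 h2
  have hg : Function.Surjective g := Submodule.factor_surjective _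
  have hfg : Function.Exact f g := by
    intro q
    obtain ⟨r, rfl⟩ := Submodule.mkQ_surjective I q
    have h1 : g (I.mkQ r) = 0 ↔ r ∈ I ⊔ Ideal.span {y} := by
      change Submodule.Quotient.mk r = 0 ↔ _
      exact Submodule.Quotient.mk_eq_zero _
    rw [h1, Submodule.mem_sup]
    constructor
    · rintro ⟨a, ha, b, hb, rfl⟩
      obtain ⟨c, rfl⟩ := Ideal.mem_span_singleton'.1 hb
      refine ⟨Submodule.Quotient.mk c, ?_⟩
      change (Submodule.Quotient.mk (y * c) : A ⧸ I) = Submodule.Quotient.mk (a + c * y)
      rw [Submodule.Quotient.eq]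
      have : y * c - (a + c * y) = -a := by ring
      rw [this]
      exact I.neg_mem ha
    · rintro ⟨q, hq⟩
      obtain ⟨c, rfl⟩ := Submodule.mkQ_surjective _ q
      have h2 : (Submodule.Quotient.mk (y * c) : A ⧸ I) = Submodule.Quotient.mk r := hq
      rw [Submodule.Quotient.eq] at h2
      refine ⟨r - y * c, ?_, c * y, Ideal.mem_span_singleton'.2 ⟨c, rfl⟩, by ring⟩
      have : r - y * c = -(y * c - r) := by ring
      rw [this]
      exact I.neg_mem h2
  have h3 := Module.length_eq_add_of_exact (f.restrictScalars 𝕜) (g.restrictScalars 𝕜) hf hg hfg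
  rw [h3, add_comm]

end Length

section Words

variable {A : Type*} [CommRing A] (Y : ℕ → A)

/-- one step: the colon by `Y t` for `(true, t)`, the sum with `(Y t)` for `(false, t)` -/
def step (J : Ideal A) (x : Bool × ℕ) : Ideal A :=
  if x.1 then col J (Y x.2) else J ⊔ Ideal.span {Y x.2}

/-- the ideal obtained from `J` by a word -/
def app (w : List (Bool × ℕ)) (J : Ideal A) : Ideal A := w.foldl (step Y) J

theorem app_append (w v : List (Bool × ℕ)) (J : Ideal A) :
    app Y (w ++ v) J = app Y v (app Y w J) := List.foldl_append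

theorem app_cons (x : Bool × ℕ) (v : List (Bool × ℕ)) (J : Ideal A) :
    app Y (x :: v) J = app Y v (step Y J x) := rfl

theorem app_nil (J : Ideal A) : app Y [] J = J := rfl

theorem step_mono {J J' : Ideal A} (h : J ≤ J') (x : Bool × ℕ) : step Y J x ≤ step Y J' x := by
  unfold step
  split_ifs
  · exact Submodule.comap_mono h
  · exact sup_le_sup_right h _

theorem le_step (J : Ideal A) (x : Bool × ℕ) : J ≤ step Y J x := by
  unfold step
  split_ifs
  · exact le_col _ _
  · exact le_sup_left

theorem app_mono {J J' : Ideal A} (h : J ≤ J') (w : List (Bool × ℕ)) :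
    app Y w J ≤ app Y w J' := by
  induction w generalizing J J' with
  | nil => exact h
  | cons x w ih => exact ih (step_mono Y h x)

theorem le_app (w : List (Bool × ℕ)) (J : Ideal A) : J ≤ app Y w J := by
  induction w generalizing J with
  | nil => exact le_rfl
  | cons x w ih => exact (le_step Y J x).trans (ih _)

theorem app_top (w : List (Bool × ℕ)) : app Y w (⊤ : Ideal A) = ⊤ :=
  top_le_iff.1 (le_app Y w ⊤)

theorem mem_app_colon (S : List ℕ) (J : Ideal A) (r : A) :
    r ∈ app Y (S.map (fun t => (true, t))) J ↔ (S.map Y).prod * r ∈ J := by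
  induction S generalizing J with
  | nil => simp [app_nil]
  | cons t S ih =>
    rw [List.map_cons, app_cons, ih, List.map_cons, List.prod_cons]
    change Y t * ((S.map Y).prod * r) ∈ J ↔ _
    rw [mul_assoc]

/-- blocks of the form `c ^ x q` -/
def blk : List ℕ → List Bool
  | [] => []
  | x :: xs => List.replicate x true ++ false :: blk xs

theorem blk_append (a b : List ℕ) : blk (a ++ b) = blk a ++ blk b := by
  induction a with
  | nil => rfl
  | cons x a ih => simp [blk, ih]

theorem blk_replicate_zero (m : ℕ) : blk (List.replicate m 0) = List.replicate m false := by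
  induction m with
  | zero => rfl
  | succ m ih => rw [List.replicate_succ, List.replicate_succ, blk, ih]; rfl

theorem count_false_blk (a : List ℕ) : (blk a).count false = a.length := by
  induction a with
  | nil => rfl
  | cons x a ih => simp [blk, ih, List.count_append, List.count_replicate]

/-- differences of consecutive entries -/
def exps : List ℕ → List ℕ
  | [] => []
  | z :: l => (z - l.headD 0) :: exps l

theorem length_exps (l : List ℕ) : (exps l).length = l.length := by
  induction l with
  | nil => rfl
  | cons z l ih => simp [exps, ih]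

/-- the word of a decreasing list -/
def wd (l : List ℕ) : List Bool := blk (exps l)

theorem wd_cons (z : ℕ) (l : List ℕ) :
    wd (z :: l) = List.replicate (z - l.headD 0) true ++ false :: wd l := rfl

theorem exps_add (f g : ℕ → ℕ) (hf : Monotone f) (hg : Monotone g) (l : List ℕ)
    (hl : l.Pairwise (· ≥ ·)) :
    List.zipWith (· + ·) (exps (l.map f)) (exps (l.map g)) = exps (l.map (fun z => f z + g z)) := by
  induction l with
  | nil => rfl
  | cons z l ih =>
    rw [List.pairwise_cons] at hl
    simp only [List.map_cons, exps, List.zipWith_cons_cons]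
    rw [ih hl.2]
    congr 1
    cases l with
    | nil => simp
    | cons h t =>
      simp only [List.map_cons, List.headD_cons]
      have h1 := hf (hl.1 h (by simp))
      have h2 := hg (hl.1 h (by simp))
      omega

variable (𝕜 : Type*) [CommRing 𝕜] [Algebra 𝕜 A]

/-- The colength of the ideal given by a word, with the canonical indices. -/
noncomputable def L (J : Ideal A) (w : List Bool) : ℝ≥0∞ := kl 𝕜 (app Y w.zipIdx J)

/-- the colength depends only on the word -/
def Good (J : Ideal A) : Prop :=
  ∀ w w' : List (Bool × ℕ), w.map Prod.fst = w'.map Prod.fst → (w.map Prod.snd).Nodup →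
    (w'.map Prod.snd).Nodup → kl 𝕜 (app Y w J) = kl 𝕜 (app Y w' J)

theorem nodup_zipIdx (w : List Bool) (i : ℕ) : ((w.zipIdx i).map Prod.snd).Nodup := by
  rw [List.zipIdx_map_snd]
  exact List.nodup_range' _

variable {Y} {𝕜}

theorem L_eq {J : Ideal A} (h : Good Y 𝕜 J) (w : List (Bool × ℕ)) (hw : (w.map Prod.snd).Nodup) :
    kl 𝕜 (app Y w J) = L Y 𝕜 J (w.map Prod.fst) :=
  h _ _ (by rw [List.zipIdx_map_fst]) hw (nodup_zipIdx _ _)

theorem L_split (J : Ideal A) (w : List Bool) :
    L Y 𝕜 J w = L Y 𝕜 J (w ++ [false]) + L Y 𝕜 J (w ++ [true]) := by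
  unfold L
  rw [List.zipIdx_append, List.zipIdx_append, app_append, app_append,
    kl_eq 𝕜 (app Y w.zipIdx J) (Y w.length)]
  simp [app, step]

theorem L_le_append {J : Ideal A} (w v : List Bool) : L Y 𝕜 J (w ++ v) ≤ L Y 𝕜 J w := by
  unfold L
  rw [List.zipIdx_append, app_append]
  exact kl_mono 𝕜 (le_app _ _ _)

theorem M1 {J : Ideal A} (h : Good Y 𝕜 J) (w v : List Bool) :
    L Y 𝕜 J (w ++ false :: true :: v) ≤ L Y 𝕜 J (w ++ true :: false :: v) := by
  set a := w.length with ha
  have h1 : L Y 𝕜 J (w ++ true :: false :: v) =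
      kl 𝕜 (app Y (w.zipIdx ++ (true, a + 1) :: (false, a) :: v.zipIdx (a + 2)) J) := by
    rw [L_eq h]
    · congr 1
      simp [List.zipIdx_map_fst]
    · have hp : ((w.zipIdx ++ (true, a + 1) :: (false, a) :: v.zipIdx (a + 2)).map Prod.snd).Perm
          (((w ++ false :: true :: v).zipIdx).map Prod.snd) := by
        rw [List.zipIdx_append, List.map_append, List.map_append]
        refine List.Perm.append_left _ ?_
        simp only [List.map_cons, List.zipIdx_cons, Nat.zero_add]
        exact List.Perm.swap _ _ _
      exact hp.nodup_iff.2 (nodup_zipIdx _ _)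
  rw [h1]
  unfold L
  rw [List.zipIdx_append, app_append, app_append]
  refine kl_mono 𝕜 ?_
  simp only [List.zipIdx_cons, Nat.zero_add]
  rw [app_cons, app_cons, app_cons, app_cons]
  refine app_mono Y ?_ _
  intro r hr
  simp only [step, if_true, if_false, Bool.false_eq_true] at hr ⊢
  obtain ⟨p, hp, q, hq, rfl⟩ := Submodule.mem_sup.1 hr
  rw [mem_col, mul_add]
  exact Submodule.add_mem_sup hp (Ideal.mul_mem_left _ _ hq)

theorem M2 {J : Ideal A} (h : Good Y 𝕜 J) (w v : List Bool) :
    L Y 𝕜 J (w ++ true :: v) ≤ L Y 𝕜 J (w ++ v) := by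
  set a := w.length with ha
  have h1 : L Y 𝕜 J (w ++ v) = kl 𝕜 (app Y (w.zipIdx ++ v.zipIdx (a + 1)) J) := by
    rw [L_eq h]
    · congr 1
      simp [List.zipIdx_map_fst]
    · have hs : ((w.zipIdx ++ v.zipIdx (a + 1)).map Prod.snd).Sublist
          (((w ++ true :: v).zipIdx).map Prod.snd) := by
        refine List.Sublist.map _ ?_
        rw [List.zipIdx_append]
        refine List.Sublist.append_left ?_ _
        simp only [List.zipIdx_cons, Nat.zero_add]
        exact List.sublist_cons_self _ _
      exact hs.nodup (nodup_zipIdx _ _)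
  rw [h1]
  unfold L
  rw [List.zipIdx_append, app_append, app_append]
  refine kl_mono 𝕜 ?_
  simp only [List.zipIdx_cons, Nat.zero_add]
  rw [app_cons]
  exact app_mono Y (le_step Y _ _) _

theorem M1i {J : Ideal A} (h : Good Y 𝕜 J) (i : ℕ) (w v : List Bool) :
    L Y 𝕜 J (w ++ false :: (List.replicate i true ++ v)) ≤
      L Y 𝕜 J (w ++ (List.replicate i true ++ false :: v)) := by
  induction i generalizing w with
  | zero => exact le_rfl
  | succ i ih =>
    rw [List.replicate_succ, List.cons_append, List.cons_append]
    refine (M1 h w _).trans ?_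
    have := ih (w ++ [true])
    simpa using this

theorem M2i {J : Ideal A} (h : Good Y 𝕜 J) (i : ℕ) (w v : List Bool) :
    L Y 𝕜 J (w ++ (List.replicate i true ++ v)) ≤ L Y 𝕜 J (w ++ v) := by
  induction i with
  | zero => exact le_rfl
  | succ i ih =>
    rw [List.replicate_succ, List.cons_append]
    exact (M2 h w _).trans ih

/-- monotonicity -/
theorem Mon {J : Ideal A} (h : Good Y 𝕜 J) (n : ℕ) : ∀ t t' : List ℕ, t.length = n →
    t.Pairwise (· ≥ ·) → t'.Pairwise (· ≥ ·) → List.Forall₂ (· ≤ ·) t t' →
    ∀ w, L Y 𝕜 J (w ++ wd t') ≤ L Y 𝕜 J (w ++ wd t) := by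
  induction n with
  | zero =>
    intro t t' ht _ _ hf w
    rw [List.length_eq_zero_iff] at ht
    subst ht
    rw [List.forall₂_nil_left_iff] at hf
    subst hf
    exact le_rfl
  | succ n ih =>
    intro t t' ht hp hp' hf w
    obtain ⟨z, u, rfl⟩ : ∃ z u, t = z :: u := by
      cases t with
      | nil => simp at ht
      | cons z u => exact ⟨z, u, rfl⟩
    rw [List.forall₂_cons_left_iff] at hf
    obtain ⟨z', u', hz, hu, rfl⟩ := hf
    cases u with
    | nil =>
      rw [List.forall₂_nil_left_iff] at hu
      subst hu
      rw [wd_cons, wd_cons]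
      obtain ⟨d, rfl⟩ := Nat.exists_eq_add_of_le hz
      simp only [List.headD_nil, Nat.sub_zero]
      rw [add_comm z d, List.replicate_add, List.append_assoc]
      exact M2i h d w _
    | cons a s =>
      rw [List.forall₂_cons_left_iff] at hu
      obtain ⟨a', s', ha, hs, rfl⟩ := hu
      rw [List.pairwise_cons] at hp hp'
      have hza : a ≤ z := hp.1 a (by simp)
      have hza' : a' ≤ z' := hp'.1 a' (by simp)
      have hp2 := List.pairwise_cons.1 hp.2
      have hp2' := List.pairwise_cons.1 hp'.2
      obtain ⟨δ, rfl⟩ := Nat.exists_eq_add_of_le ha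
      have hds : ((a + δ) :: s).Pairwise (· ≥ ·) := by
        rw [List.pairwise_cons]
        exact ⟨fun b hb => (hp2.1 b hb).trans (Nat.le_add_right a δ), hp2.2⟩
      have hsa : s.headD 0 ≤ a := by
        cases s with
        | nil => exact Nat.zero_le _
        | cons b s => exact hp2.1 b (by simp)
      have e1 : wd ((a + δ) :: s) = List.replicate δ true ++ wd (a :: s) := by
        rw [wd_cons, wd_cons, ← List.append_assoc, ← List.replicate_add]
        congr 2
        omega
      have hA : L Y 𝕜 J (w ++ wd (z' :: (a + δ) :: s')) ≤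
          L Y 𝕜 J (w ++ (List.replicate (z' - (a + δ)) true ++ false :: wd ((a + δ) :: s))) := by
        rw [wd_cons]
        simp only [List.headD_cons]
        have := ih ((a + δ) :: s) ((a + δ) :: s') (by simpa using ht) hds hp'.2
          (List.Forall₂.cons le_rfl hs) (w ++ (List.replicate (z' - (a + δ)) true ++ [false]))
        simpa using this
      refine hA.trans ?_
      rw [e1]
      have hB := M1i h δ (w ++ List.replicate (z' - (a + δ)) true) (wd (a :: s))
      have hC : L Y 𝕜 J (w ++ List.replicate (z' - (a + δ)) true ++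
          (List.replicate δ true ++ false :: wd (a :: s))) ≤ L Y 𝕜 J (w ++ wd (z :: a :: s)) := by
        rw [wd_cons z (a :: s)]
        simp only [List.headD_cons]
        have e2 : w ++ List.replicate (z' - (a + δ)) true ++
            (List.replicate δ true ++ false :: wd (a :: s)) =
            w ++ (List.replicate (z' - z) true ++
              (List.replicate (z - a) true ++ false :: wd (a :: s))) := by
          rw [List.append_assoc, ← List.append_assoc (List.replicate (z' - (a + δ)) true),
            ← List.append_assoc (List.replicate (z' - z) true), ← List.replicate_add,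
            ← List.replicate_add]
          congr 3
          omega
        rw [e2]
        exact M2i h _ w _
      refine le_trans (le_of_eq ?_) (hB.trans hC)
      congr 1
      simp

/-! ### Products -/

/-- the word of a list of blocks -/
def wC (B : List (List ℕ × List ℕ × ℕ)) : List (Bool × ℕ) :=
  B.flatMap fun x => (x.1 ++ x.2.1).map (fun t => (true, t)) ++ [(false, x.2.2)]

/-- the first factor -/
def wA (B : List (List ℕ × List ℕ × ℕ)) : List (Bool × ℕ) :=
  B.flatMap fun x => x.1.map (fun t => (true, t)) ++ [(false, x.2.2)]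

/-- the second factor -/
def wB (B : List (List ℕ × List ℕ × ℕ)) : List (Bool × ℕ) :=
  B.flatMap fun x => x.2.1.map (fun t => (true, t)) ++ [(false, x.2.2)]

theorem wC_cons (x : List ℕ × List ℕ × ℕ) (B : List (List ℕ × List ℕ × ℕ)) :
    wC (x :: B) = ((x.1 ++ x.2.1).map (fun t => (true, t)) ++ [(false, x.2.2)]) ++ wC B := by
  unfold wC
  rw [List.flatMap_cons]

theorem wA_cons (x : List ℕ × List ℕ × ℕ) (B : List (List ℕ × List ℕ × ℕ)) :
    wA (x :: B) = (x.1.map (fun t => (true, t)) ++ [(false, x.2.2)]) ++ wA B := by
  unfold wA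
  rw [List.flatMap_cons]

theorem wB_cons (x : List ℕ × List ℕ × ℕ) (B : List (List ℕ × List ℕ × ℕ)) :
    wB (x :: B) = (x.2.1.map (fun t => (true, t)) ++ [(false, x.2.2)]) ++ wB B := by
  unfold wB
  rw [List.flatMap_cons]

theorem map_fst_blk (l : List ℕ) (t : ℕ) :
    (l.map (fun t => (true, t)) ++ [(false, t)]).map Prod.fst =
      List.replicate l.length true ++ [false] := by
  induction l with
  | nil => rfl
  | cons x l ih => 
    rw [List.map_cons, List.cons_append, List.map_cons, ih]
    rfl

theorem map_snd_blk (l : List ℕ) (t : ℕ) :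
    (l.map (fun t => (true, t)) ++ [(false, t)]).map Prod.snd = l ++ [t] := by
  induction l with
  | nil => rfl
  | cons x l ih => 
    rw [List.map_cons, List.cons_append, List.map_cons, ih]
    rfl

variable (Y) in
theorem app_mul (B : List (List ℕ × List ℕ × ℕ)) (J J' : Ideal A) :
    app Y (wA B) J * app Y (wB B) J' ≤ app Y (wC B) (J * J') := by
  induction B generalizing J J' with
  | nil => exact le_rfl
  | cons x B ih =>
    have eA : app Y (wA (x :: B)) J = app Y (wA B)
        (app Y (x.1.map (fun t => (true, t))) J ⊔ Ideal.span {Y x.2.2}) := by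
      unfold wA
      rw [List.flatMap_cons, app_append, app_append]
      rfl
    have eB : app Y (wB (x :: B)) J' = app Y (wB B)
        (app Y (x.2.1.map (fun t => (true, t))) J' ⊔ Ideal.span {Y x.2.2}) := by
      unfold wB
      rw [List.flatMap_cons, app_append, app_append]
      rfl
    have eC : app Y (wC (x :: B)) (J * J') = app Y (wC B)
        (app Y ((x.1 ++ x.2.1).map (fun t => (true, t))) (J * J') ⊔ Ideal.span {Y x.2.2}) := by
      unfold wC
      rw [List.flatMap_cons, app_append, app_append]
      rfl
    rw [eA, eB, eC]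
    refine (ih _ _).trans (app_mono Y ?_ _)
    refine (sup_mul_sup_le _ _ _).trans (sup_le_sup_right ?_ _)
    rw [Ideal.mul_le]
    intro r hr s hs
    rw [mem_app_colon] at hr hs ⊢
    have := Ideal.mul_mem_mul hr hs
    rw [List.map_append, List.prod_append]
    have e : (x.1.map Y).prod * (x.2.1.map Y).prod * (r * s) =
        (x.1.map Y).prod * r * ((x.2.1.map Y).prod * s) := by ring
    rw [e]
    exact this

/-- blocks with given sizes and consecutive indices -/
def mk : List ℕ → List ℕ → ℕ → List (List ℕ × List ℕ × ℕ)
  | x :: a, y :: b, s =>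
    (List.range' s x, List.range' (s + x) y, s + x + y) :: mk a b (s + x + y + 1)
  | _, _, _ => []

theorem mk_fst_C (a b : List ℕ) (h : a.length = b.length) (s : ℕ) :
    (wC (mk a b s)).map Prod.fst = blk (List.zipWith (· + ·) a b) := by
  induction a generalizing b s with
  | nil =>
    cases b with
    | nil => rfl
    | cons y b => simp at h
  | cons x a ih =>
    cases b with
    | nil => simp at h
    | cons y b =>
      have h1 := ih b (by simpa using h) (s + x + y + 1)
      rw [mk, wC_cons, List.map_append, h1, List.zipWith_cons_cons, blk, map_fst_blk,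
        List.length_append, List.length_range', List.length_range', List.append_assoc]
      rfl

theorem mk_fst_A (a b : List ℕ) (h : a.length = b.length) (s : ℕ) :
    (wA (mk a b s)).map Prod.fst = blk a := by
  induction a generalizing b s with
  | nil =>
    cases b with
    | nil => rfl
    | cons y b => simp at h
  | cons x a ih =>
    cases b with
    | nil => simp at h
    | cons y b =>
      have h1 := ih b (by simpa using h) (s + x + y + 1)
      rw [mk, wA_cons, List.map_append, h1, blk, map_fst_blk, List.length_range',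
        List.append_assoc]
      rfl

theorem mk_fst_B (a b : List ℕ) (h : a.length = b.length) (s : ℕ) :
    (wB (mk a b s)).map Prod.fst = blk b := by
  induction a generalizing b s with
  | nil =>
    cases b with
    | nil => rfl
    | cons y b => simp at h
  | cons x a ih =>
    cases b with
    | nil => simp at h
    | cons y b =>
      have h1 := ih b (by simpa using h) (s + x + y + 1)
      rw [mk, wB_cons, List.map_append, h1, blk, map_fst_blk, List.length_range',
        List.append_assoc]
      rfl

theorem mk_snd (a b : List ℕ) (s : ℕ) :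
    ∃ m, (wC (mk a b s)).map Prod.snd = List.range' s m := by
  induction a generalizing b s with
  | nil => exact ⟨0, rfl⟩
  | cons x a ih =>
    cases b with
    | nil => exact ⟨0, rfl⟩
    | cons y b =>
      obtain ⟨m, hm⟩ := ih b (s + x + y + 1)
      refine ⟨x + y + 1 + m, ?_⟩
      rw [mk, wC_cons, List.map_append, hm, map_snd_blk,
        ← List.range'_append_1 (s := s) (m := x + y + 1) (n := m),
        ← List.range'_append_1 (s := s) (m := x + y) (n := 1),
        ← List.range'_append_1 (s := s) (m := x) (n := y)]
      simp only [add_assoc]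
      rfl

theorem sublist_A (B : List (List ℕ × List ℕ × ℕ)) : (wA B).Sublist (wC B) := by
  induction B with
  | nil => exact List.Sublist.refl _
  | cons x B ih =>
    unfold wA wC at ih ⊢
    rw [List.flatMap_cons, List.flatMap_cons, List.map_append]
    refine List.Sublist.append (List.Sublist.append ?_ (List.Sublist.refl _)) ih
    exact List.sublist_append_left _ _

theorem sublist_B (B : List (List ℕ × List ℕ × ℕ)) : (wB B).Sublist (wC B) := by
  induction B with
  | nil => exact List.Sublist.refl _
  | cons x B ih =>
    unfold wB wC at ih ⊢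
    rw [List.flatMap_cons, List.flatMap_cons, List.map_append]
    refine List.Sublist.append (List.Sublist.append ?_ (List.Sublist.refl _)) ih
    exact List.sublist_append_right _ _

theorem P2 {J J' : Ideal A} (h : Good Y 𝕜 J) (h' : Good Y 𝕜 J') (h'' : Good Y 𝕜 (J * J'))
    (a b : List ℕ) (hab : a.length = b.length) (ha : L Y 𝕜 J (blk a) = 0)
    (hb : L Y 𝕜 J' (blk b) = 0) :
    L Y 𝕜 (J * J') (blk (List.zipWith (· + ·) a b)) = 0 := by
  have hnd : ((wC (mk a b 0)).map Prod.snd).Nodup := by
    obtain ⟨m, hm⟩ := mk_snd a b 0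
    rw [hm]
    exact List.nodup_range' _
  have hA : app Y (wA (mk a b 0)) J = ⊤ := by
    apply eq_top_of_kl (𝕜 := 𝕜)
    rw [L_eq h _ (((sublist_A _).map _).nodup hnd), mk_fst_A a b hab, ha]
  have hB : app Y (wB (mk a b 0)) J' = ⊤ := by
    apply eq_top_of_kl (𝕜 := 𝕜)
    rw [L_eq h' _ (((sublist_B _).map _).nodup hnd), mk_fst_B a b hab, hb]
  have hC : app Y (wC (mk a b 0)) (J * J') = ⊤ := by
    have := app_mul Y (mk a b 0) J J'
    rw [hA, hB, Ideal.top_mul] at this
    exact top_le_iff.1 this
  rw [← mk_fst_C a b hab 0, ← L_eq h'' _ hnd, hC, kl_top]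

end Words

end Pool.Agent.X272.StirWord
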